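import Pool.Agent.SLD.StB

/-!
RTE, fixed statements (helper77): the rate of the natural density of invariant sets of the `3x+1` map.
Paper proof: `/team-store/R21_MP_071ec9_an_RATE.md`.
-/

set_option autoImplicit false
set_option linter.unusedVariables false

namespace Pool.Agent.RTE

open Finset Filter Topology
open Pool.Agent.SLD (N EvInv T)

/-- `P = (x - 8) (x - 9) ^ 2 (x - 12) ^ 3` -/
noncomputable def P : Polynomial ℤ :=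
  (Polynomial.X - Polynomial.C 8) * (Polynomial.X - Polynomial.C 9) ^ 2 * (Polynomial.X - Polynomial.C 12) ^ 3

/-- the coefficients of `P ^ n` -/
noncomputable def cf (n j : ℕ) : ℤ := (P ^ n).coeff j

/-- the polynomial as a real function -/
def Pr (x : ℝ) : ℝ := (x - 8) * (x - 9) ^ 2 * (x - 12) ^ 3

/-- `∫ P ^ n / x ^ (3 n + 1)` -/
noncomputable def Int3 (n : ℕ) (s t : ℝ) : ℝ := ∫ x in s..t, Pr x ^ n / x ^ (3 * n + 1)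

/-- [IMa] `t ^ (3 n - j) ∣ c_j`, `t = 8, 9, 12`: `t ^ 3` divides `P (t y)`. -/
def St_IMa : Prop :=
  ∀ n j : ℕ, j ≤ 3 * n → (8 : ℤ) ^ (3 * n - j) ∣ cf n j ∧ (9 : ℤ) ^ (3 * n - j) ∣ cf n j ∧
    (12 : ℤ) ^ (3 * n - j) ∣ cf n j

/-- [IMb] (needs IMa) the integrals are rational combinations of `1` and the logarithm.
`Pr x ^ n / x ^ (3 n + 1) = ∑ j, cf n j * x ^ (j - 3 n - 1)`; integrate (`integral_zpow`, `integral_inv`). -/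
def St_IMb : Prop :=
  ∀ n D : ℕ, (∀ k : ℕ, 1 ≤ k → k ≤ 3 * n → k ∣ D) →
    (∃ p : ℤ, (D : ℝ) * Int3 n 8 9 = D * cf n (3 * n) * Real.log (9 / 8) + p) ∧
    (∃ p : ℤ, (D : ℝ) * Int3 n 9 12 = D * cf n (3 * n) * Real.log (4 / 3) + p)

/-- [IMc] sizes. -/
def St_IMc : Prop :=
  (∀ n : ℕ, |Int3 n 8 9| ≤ (134 / 10000 : ℝ) ^ n) ∧
  (∀ n : ℕ, |Int3 n 9 12| ≤ (178 / 10000 : ℝ) ^ n) ∧
  (∀ n : ℕ, Even n → (1 / 100 : ℝ) * (16 / 1000) ^ n ≤ Int3 n 9 12) ∧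
  (∀ n : ℕ, |(cf n (3 * n) : ℝ)| ≤ 1977300 ^ n)

/-- [IMd] the least common multiple, from the prime number theorem (`PC.PNTAP.psi_ap` with `q = 1`):
`ψ (3 n) ≤ 1.3 · 3 n` for large `n`, `e ^ 3.9 < 50`. -/
def St_IMd : Prop :=
  ∃ (D : ℕ → ℕ) (C : ℝ), ∀ n : ℕ, 0 < D n ∧ (∀ k : ℕ, 1 ≤ k → k ≤ 3 * n → k ∣ D n) ∧
    (D n : ℝ) ≤ C * 50 ^ n

/-- [IME] the irrationality measure of `log 2 / log 3`. -/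
def St_IM : Prop :=
  ∃ (c : ℝ) (κ : ℕ), 0 < c ∧ ∀ a b : ℕ, 1 ≤ a + b →
    c / ((a : ℝ) + b) ^ κ ≤ |(a : ℝ) * Real.log 2 - b * Real.log 3|

/-- [NET] the inhomogeneous net (from IM and Dirichlet's theorem). -/
def St_NET : Prop :=
  ∃ (C : ℝ) (κ : ℕ), 0 < C ∧ ∀ (Q : ℕ) (h : ℝ), 1 ≤ Q → 0 ≤ h → h ≤ Real.log 3 →
    ∃ i j : ℕ, (i : ℝ) ≤ C * Q ^ κ ∧ (j : ℝ) ≤ C * Q ^ κ ∧
      |(i : ℝ) * Real.log 2 - j * Real.log 3 - h| ≤ 2 / Q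

/-- the quotient `N(X) / X` -/
noncomputable def Fr (σ : ℤ) (A : Set ℤ) (X : ℕ) : ℝ := (N σ A X 1 0 : ℝ) / X

/-- [STP] from `CollatzRate.rate` with time `k = (log₂ X) / 2`: `3 n + b`, `n` merge; `2 n ∈ A ↔ n ∈ A`,
`2 n + 1 ∈ A ↔ 3 n + 2 ∈ A`. -/
def St_STP : Prop :=
  ∃ C : ℝ, 0 < C ∧ ∀ (σ : ℤ) (K : ℕ) (A : Set ℤ) (X : ℕ), σ = 1 ∨ σ = -1 → EvInv K A → 2 ≤ X →
    (K : ℝ) ≤ (X : ℝ) ^ ((1 : ℝ) / 4) →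
    |Fr σ A (2 * X) - Fr σ A X| ≤ C / Real.sqrt (Real.log X) ∧
    |Fr σ A (3 * X) - Fr σ A X| ≤ C / Real.sqrt (Real.log X)

/-- [SLV] slow variation with a rate (from STP and NET): go from `X` to `2 ^ i X`, then divide `j` times by `3`. -/
def St_SLV : Prop :=
  ∃ c δ C : ℝ, 0 < c ∧ 0 < δ ∧ 0 < C ∧ ∀ (σ : ℤ) (K : ℕ) (A : Set ℤ) (X X' : ℕ), σ = 1 ∨ σ = -1 →
    EvInv K A → 2 ≤ X → (K : ℝ) ≤ (X : ℝ) ^ δ → X ≤ X' → X' ≤ 3 * X →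
    |Fr σ A X' - Fr σ A X| ≤ C / Real.log X ^ c

open Classical in
/-- the logarithmic sum `∑_{m ≤ X, σ m ∈ A} 1 / m` -/
noncomputable def L (σ : ℤ) (A : Set ℤ) (X : ℕ) : ℝ :=
  ∑ m ∈ (Icc 1 X).filter (fun m : ℕ => σ * (m : ℤ) ∈ A), 1 / (m : ℝ)

/-- the conserved quantity -/
noncomputable def Mq (σ : ℤ) (A : Set ℤ) (X : ℕ) : ℝ := L σ A (3 * X) - 2 * L σ A (2 * X) + L σ A X

/-- [CON] `Mq` converges with a rate (from ALE with `q = 3`).  For `X > K`: `Mq (X + 1) - Mq X =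
∑_{r = 1, 2, 3} 1_A (3 X + r) / (3 X + r) - 3 · 1_A (3 X + 2) / (3 X + 2) + O(X ^ (-2))` (for `σ = -1` the class
is `3 X + 1`: `-(2 X + 1) ∈ A ↔ -(3 X + 1) ∈ A`). -/
def St_CON : Prop :=
  ∃ δ C : ℝ, 0 < δ ∧ 0 < C ∧ ∀ (σ : ℤ) (K : ℕ) (A : Set ℤ) (X X' : ℕ), σ = 1 ∨ σ = -1 →
    EvInv K A → 2 ≤ X → (K : ℝ) ≤ (X : ℝ) ^ δ → X ≤ X' →
    |Mq σ A X' - Mq σ A X| ≤ C / Real.log X

/-- [LSM] `Mq X = - F(X) log (4/3) + error` (from SLV). -/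
def St_LSM : Prop :=
  ∃ c δ C : ℝ, 0 < c ∧ 0 < δ ∧ 0 < C ∧ ∀ (σ : ℤ) (K : ℕ) (A : Set ℤ) (X : ℕ), σ = 1 ∨ σ = -1 →
    EvInv K A → 2 ≤ X → (K : ℝ) ≤ (X : ℝ) ^ δ →
    |Mq σ A X + Fr σ A X * Real.log (4 / 3)| ≤ C / Real.log X ^ c

/-- [LIM] the density with a rate (CON, LSM: let `X' → ∞`). -/
def St_LIM : Prop :=
  ∃ c δ C : ℝ, 0 < c ∧ 0 < δ ∧ 0 < C ∧ ∀ (σ : ℤ) (K : ℕ) (A : Set ℤ) (d : ℝ) (X : ℕ), σ = 1 ∨ σ = -1 →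
    EvInv K A → Tendsto (fun Y : ℕ => (N σ A Y 1 0 : ℝ) / Y) atTop (𝓝 d) →
    2 ≤ X → (K : ℝ) ≤ (X : ℝ) ^ δ → |Fr σ A X - d| ≤ C / Real.log X ^ c

/-- [ALQ] all moduli (LIM, TWE, ALE; as in the proof of `SLD.thm_FIE`). -/
def St_ALQ : Prop :=
  ∃ c δ C : ℝ, 0 < c ∧ 0 < δ ∧ 0 < C ∧ ∀ (σ : ℤ) (K : ℕ) (A : Set ℤ) (d : ℝ), σ = 1 ∨ σ = -1 →
    EvInv K A → Tendsto (fun Y : ℕ => (N σ A Y 1 0 : ℝ) / Y) atTop (𝓝 d) →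
    ∀ (X q : ℕ) (r : ℤ), 2 ≤ X → (K : ℝ) ≤ (X : ℝ) ^ δ → 1 ≤ q → (q : ℝ) ≤ (X : ℝ) ^ δ →
      |(N σ A X q r : ℝ) - d * X / q| ≤ C * X / (q * Real.log X ^ c)

end Pool.Agent.RTE
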