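import Pool.Agent.RTE.St

/-!
RTE, the same statements with a fixed exponent `c` of the logarithm (helper77).
-/

set_option autoImplicit false
set_option linter.unusedVariables false

namespace Pool.Agent.RTE

open Finset Filter Topology
open Pool.Agent.SLD (N EvInv T)

/-- SLV with the exponent `c` -/
def SLVc (c : ℝ) : Prop :=
  ∃ δ C : ℝ, 0 < δ ∧ 0 < C ∧ ∀ (σ : ℤ) (K : ℕ) (A : Set ℤ) (X X' : ℕ), σ = 1 ∨ σ = -1 →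
    EvInv K A → 2 ≤ X → (K : ℝ) ≤ (X : ℝ) ^ δ → X ≤ X' → X' ≤ 3 * X →
    |Fr σ A X' - Fr σ A X| ≤ C / Real.log X ^ c

/-- LSM with the exponent `c` -/
def LSMc (c : ℝ) : Prop :=
  ∃ δ C : ℝ, 0 < δ ∧ 0 < C ∧ ∀ (σ : ℤ) (K : ℕ) (A : Set ℤ) (X : ℕ), σ = 1 ∨ σ = -1 →
    EvInv K A → 2 ≤ X → (K : ℝ) ≤ (X : ℝ) ^ δ →
    |Mq σ A X + Fr σ A X * Real.log (4 / 3)| ≤ C / Real.log X ^ c

/-- LIM with the exponent `c` -/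
def LIMc (c : ℝ) : Prop :=
  ∃ δ C : ℝ, 0 < δ ∧ 0 < C ∧ ∀ (σ : ℤ) (K : ℕ) (A : Set ℤ) (d : ℝ) (X : ℕ), σ = 1 ∨ σ = -1 →
    EvInv K A → Tendsto (fun Y : ℕ => (N σ A Y 1 0 : ℝ) / Y) atTop (𝓝 d) →
    2 ≤ X → (K : ℝ) ≤ (X : ℝ) ^ δ → |Fr σ A X - d| ≤ C / Real.log X ^ c

/-- ALQ with the exponent `c` -/
def ALQc (c : ℝ) : Prop :=
  ∃ δ C : ℝ, 0 < δ ∧ 0 < C ∧ ∀ (σ : ℤ) (K : ℕ) (A : Set ℤ) (d : ℝ), σ = 1 ∨ σ = -1 →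
    EvInv K A → Tendsto (fun Y : ℕ => (N σ A Y 1 0 : ℝ) / Y) atTop (𝓝 d) →
    ∀ (X q : ℕ) (r : ℤ), 2 ≤ X → (K : ℝ) ≤ (X : ℝ) ^ δ → 1 ≤ q → (q : ℝ) ≤ (X : ℝ) ^ δ →
      |(N σ A X q r : ℝ) - d * X / q| ≤ C * X / (q * Real.log X ^ c)

/-- slvx: from `net_twelve` (`i, j ≤ C Q ^ 12`, error `1 / Q`) and STP with `Q = (log X) ^ (1 / 26)` -/
def St_slvx : Prop := SLVc (1 / 26)

def St_lsmx : Prop := ∀ c : ℝ, 0 < c → c ≤ 1 → SLVc c → LSMc c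

def St_limx : Prop := ∀ c : ℝ, 0 < c → c ≤ 1 → St_CON → LSMc c → LIMc c

def St_alqx : Prop := ∀ c : ℝ, 0 < c → c ≤ 1 → LIMc c → ALQc c

end Pool.Agent.RTE
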