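import Pool.Agent.RTE.ALQ0
import Pool.Agent.SLD.All

/-!
RTE, block ALQ (helper3).
-/

set_option autoImplicit false

namespace Pool.Agent.RTE

/-- [ALQ] -/
theorem thm_ALQ (hL : St_LIM) : St_ALQ :=
  ALQ_core (fun σ A X q r hσ => Pool.Agent.SLD.ALE_N_le σ hσ A X q r) hL
    Pool.Agent.SLD.all_TWE Pool.Agent.SLD.all_ALE

end Pool.Agent.RTE
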