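import Pool.Agent.RTE.St

/-!
RTE, block ALQ (helper3): all moduli with a rate, from the density with a rate, adapting `SLD.FIE`.
-/

set_option autoImplicit false

namespace Pool.Agent.RTE

open Finset Filter Topology
open Pool.Agent.SLD (N EvInv T St_TWE St_ALE)

private theorem ALQ_lim01 {σ : ℤ} {A : Set ℤ} {d : ℝ} (hN : ∀ Y : ℕ, (N σ A Y 1 0 : ℝ) ≤ Y)
    (h : Tendsto (fun Y : ℕ => (N σ A Y 1 0 : ℝ) / Y) atTop (𝓝 d)) : 0 ≤ d ∧ d ≤ 1 := by
  constructor
  · exact ge_of_tendsto' h (fun Y => by positivity)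
  · refine le_of_tendsto' h (fun Y => ?_)
    exact div_le_one_of_le₀ (hN Y) (Nat.cast_nonneg _)

private theorem ALQ_pow {ρ : ℝ} (h : 2 ≤ ρ) : ρ ^ 4 + 2 ≤ ρ ^ 7 := by
  have h1 : (2 : ℝ) ^ 3 ≤ ρ ^ 3 := pow_le_pow_left₀ (by norm_num) h 3
  have h2 : (2 : ℝ) ^ 4 ≤ ρ ^ 4 := pow_le_pow_left₀ (by norm_num) h 4
  have h3 : ρ ^ 7 = ρ ^ 4 * ρ ^ 3 := by ring
  nlinarith

private theorem ALQ_pow2 {ρ : ℝ} (h : 2 ≤ ρ) : (ρ + 3) * (8 * ρ) ≤ 8 * ρ ^ 7 := by
  have h1 : (2 : ℝ) ^ 5 ≤ ρ ^ 5 := pow_le_pow_left₀ (by norm_num) h 5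
  have h3 : ρ ^ 7 = ρ ^ 5 * ρ ^ 2 := by ring
  nlinarith [sq_nonneg ρ, mul_le_mul_of_nonneg_right h1 (sq_nonneg ρ)]

private theorem ALQ_range {w R Z X' : ℝ} (hw : 1 ≤ w) (hR : 0 ≤ R) (h5 : R + 2 ≤ Z)
    (h1 : -(2 * w) ≤ X' - w * Z) : R ≤ X' := by
  have h2 : w * (R + 2) ≤ w * Z := mul_le_mul_of_nonneg_left h5 (by linarith)
  have h3 : 1 * R ≤ w * R := mul_le_mul_of_nonneg_right hw hR
  nlinarith

private theorem ALQ_mul_le {u v : ℝ} (hu : 0 ≤ u) (hv : 1 ≤ v) : u ≤ u * v := by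
  nlinarith

private theorem ALQ_half {L L' t : ℝ} (hL : 0 ≤ L) (ht : (1 : ℝ) / 2 ≤ t) (h : L * t ≤ L') :
    L / 2 ≤ L' := by
  nlinarith

private theorem ALQ_two {d u : ℝ} (hd1 : d ≤ 1) (hd0 : 0 ≤ d) (hu0 : 0 ≤ u) (hu : u ≤ 2) :
    d * u ≤ 2 := by
  nlinarith

private theorem ALQ_e5 {w q X' t : ℝ} (hq : 1 ≤ q) (hw : 0 < w) (h : t ≤ 2 * w) :
    t ≤ 2 * (w * q) := by
  nlinarith

/-- [ALQ] with the results of SLD as hypotheses -/
theorem ALQ_core (hNle : ∀ (σ : ℤ) (A : Set ℤ) (X q : ℕ) (r : ℤ), σ = 1 ∨ σ = -1 → N σ A X q r ≤ X)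
    (hL : St_LIM) (hT : St_TWE) (hA : St_ALE) : St_ALQ := by
  obtain ⟨c0, δ0, C0, hc0, hδ0, hC0, hLIM⟩ := hL
  obtain ⟨δ₁, hδ₁, C₁, hALE⟩ := hA 1
  obtain ⟨c, hc⟩ : ∃ c : ℝ, c = min c0 1 := ⟨_, rfl⟩
  obtain ⟨δ, hδ⟩ : ∃ δ : ℝ, δ = min (min (δ₁ / 4) (δ0 / 4)) (1 / 8) := ⟨_, rfl⟩
  have hcpos : 0 < c := by
    rw [hc]
    exact lt_min hc0 one_pos
  have hcc0 : c ≤ c0 := by
    rw [hc]
    exact min_le_left _ _
  have hc1 : c ≤ 1 := by
    rw [hc]
    exact min_le_right _ _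
  have hδpos : 0 < δ := by
    rw [hδ]
    exact lt_min (lt_min (by positivity) (by positivity)) (by norm_num)
  have hδ1 : δ ≤ δ₁ / 4 := by
    rw [hδ]
    exact (min_le_left _ _).trans (min_le_left _ _)
  have hδ2 : δ ≤ δ0 / 4 := by
    rw [hδ]
    exact (min_le_left _ _).trans (min_le_right _ _)
  have hδ8 : δ ≤ 1 / 8 := by
    rw [hδ]
    exact min_le_right _ _
  obtain ⟨C', hC'⟩ : ∃ C' : ℝ, C' = 8 + 4 * (|C₁| + C0) := ⟨_, rfl⟩
  have hC'0 : 0 < C' := by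
    rw [hC']
    positivity
  refine ⟨c, δ, C' + 65536, hcpos, hδpos, by positivity, ?_⟩
  intro σ K A d hσ hI hlim X q r hX hKX hq hqX
  have hNX : ∀ (Y s : ℕ) (b : ℤ), (N σ A Y s b : ℝ) ≤ Y := by
    intro Y s b
    exact_mod_cast hNle σ A Y s b hσ
  obtain ⟨hd0, hd1⟩ := ALQ_lim01 (fun Y => hNX Y 1 0) hlim
  have hX2 : (2 : ℝ) ≤ X := by exact_mod_cast hX
  have hXpos : (0 : ℝ) < X := by linarith
  have hlogpos : 0 < Real.log X := Real.log_pos (by linarith)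
  have hLLpos : 0 < Real.log X ^ c := Real.rpow_pos_of_pos hlogpos c
  have hq1 : (1 : ℝ) ≤ q := by exact_mod_cast hq
  have hq0 : (0 : ℝ) < q := by linarith
  suffices h : |(N σ A X q r : ℝ) - d * (X / q)| ≤ (C' + 65536) * ((X / q) / Real.log X ^ c) by
    have h1 : d * (X : ℝ) / q = d * (X / q) := by ring
    have h2 : (C' + 65536) * (X : ℝ) / (q * Real.log X ^ c) =
        (C' + 65536) * ((X / q) / Real.log X ^ c) := by
      field_simp
    rw [h1, h2]
    exact h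
  have hu0 : 0 < (X : ℝ) / q := by positivity
  by_cases hX0 : (X : ℝ) < 256
  · have h1 : |(N σ A X q r : ℝ) - d * (X / q)| ≤ X := by
      have a1 := hNX X q r
      have a2 : (0 : ℝ) ≤ N σ A X q r := Nat.cast_nonneg _
      have a3 : (X : ℝ) / q ≤ X := div_le_self hXpos.le hq1
      have a4 : d * (X / q) ≤ 1 * (X / q) := mul_le_mul_of_nonneg_right hd1 hu0.le
      have a5 : 0 ≤ d * ((X : ℝ) / q) := mul_nonneg hd0 hu0.le
      rw [abs_le]
      constructor <;> linarith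
    have h2 : (q : ℝ) ≤ 256 := by
      have h3 : (X : ℝ) ^ δ ≤ (X : ℝ) ^ (1 : ℝ) :=
        Real.rpow_le_rpow_of_exponent_le (by linarith) (by linarith)
      rw [Real.rpow_one] at h3
      linarith
    have h3 : Real.log X ^ c ≤ 256 := by
      have h4 : Real.log X ≤ 256 := by
        have h5 := Real.log_le_sub_one_of_pos hXpos
        linarith
      calc Real.log X ^ c ≤ (256 : ℝ) ^ c := Real.rpow_le_rpow hlogpos.le h4 hcpos.le
        _ ≤ (256 : ℝ) ^ (1 : ℝ) := Real.rpow_le_rpow_of_exponent_le (by norm_num) hc1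
        _ = 256 := Real.rpow_one _
    have h4 : (X : ℝ) ≤ 65536 * ((X / q) / Real.log X ^ c) := by
      have h5 : (q : ℝ) * Real.log X ^ c ≤ 65536 := by
        calc (q : ℝ) * Real.log X ^ c ≤ 256 * 256 :=
              mul_le_mul h2 h3 hLLpos.le (by norm_num)
          _ = 65536 := by norm_num
      have h6 : 65536 * (((X : ℝ) / q) / Real.log X ^ c) =
          65536 * X / (q * Real.log X ^ c) := by
        field_simp
      rw [h6, le_div_iff₀ (by positivity)]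
      nlinarith
    have h5 : 0 ≤ C' * (((X : ℝ) / q) / Real.log X ^ c) := by positivity
    calc |(N σ A X q r : ℝ) - d * (X / q)| ≤ X := h1
      _ ≤ 65536 * ((X / q) / Real.log X ^ c) := h4
      _ ≤ (C' + 65536) * ((X / q) / Real.log X ^ c) := by
          rw [add_mul]
          linarith
  · push Not at hX0
    obtain ⟨ρ, hρ⟩ : ∃ ρ : ℝ, ρ = (X : ℝ) ^ ((1 : ℝ) / 8) := ⟨_, rfl⟩
    have hρ0 : 0 < ρ := by
      rw [hρ]
      positivity
    have hρ8 : ρ ^ 8 = X := by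
      rw [hρ, ← Real.rpow_natCast, ← Real.rpow_mul hXpos.le]
      norm_num
    have hρ2 : 2 ≤ ρ := by
      by_contra hcon
      push Not at hcon
      have h1 : ρ ^ 8 < 2 ^ 8 := pow_lt_pow_left₀ hcon hρ0.le (by norm_num)
      rw [hρ8] at h1
      have h2 : (2 : ℝ) ^ 8 = 256 := by norm_num
      rw [h2] at h1
      linarith
    have hX1 : (1 : ℝ) ≤ X := by linarith
    have hXδ : (X : ℝ) ^ δ ≤ ρ := by
      rw [hρ]
      exact Real.rpow_le_rpow_of_exponent_le hX1 hδ8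
    have hKρ : (K : ℝ) ≤ ρ := hKX.trans hXδ
    have hqρ : (q : ℝ) ≤ ρ := hqX.trans hXδ
    obtain ⟨R, hR⟩ : ∃ R : ℝ, R = ρ ^ 4 := ⟨_, rfl⟩
    have hR0 : 0 < R := by
      rw [hR]
      positivity
    have hRX : R ^ 2 = X := by
      rw [hR, ← hρ8]
      ring
    have hR16 : 16 ≤ R := by
      rw [hR]
      calc (16 : ℝ) = 2 ^ 4 := by norm_num
        _ ≤ ρ ^ 4 := pow_le_pow_left₀ (by norm_num) hρ2 4
    have hXR : ∀ e : ℝ, (X : ℝ) ^ (e / 2) = R ^ e := fun e => by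
      rw [← hRX, ← Real.rpow_natCast R 2, ← Real.rpow_mul hR0.le]
      congr 1
      push_cast
      ring
    -- X / q
    have hXq : ρ ^ 7 ≤ X / q := by
      rw [le_div_iff₀ hq0]
      calc ρ ^ 7 * q ≤ ρ ^ 7 * ρ := mul_le_mul_of_nonneg_left hqρ (by positivity)
        _ = X := by
          rw [← hρ8]
          ring
    -- the odd part
    obtain ⟨i, q₁, hq₁, hqi⟩ := Nat.exists_eq_two_pow_mul_odd (n := q) (by omega)
    have hq₁1 : 1 ≤ q₁ := hq₁.pos
    have hq₁1' : (1 : ℝ) ≤ q₁ := by exact_mod_cast hq₁1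
    have hq₁0 : (0 : ℝ) < q₁ := by linarith
    have hqi' : (q : ℝ) = 2 ^ i * q₁ := by
      rw [hqi]
      push_cast
      ring
    have h2i0 : (0 : ℝ) < 2 ^ i := by positivity
    have h2i : (2 : ℝ) ^ i ≤ q := by
      rw [hqi']
      exact ALQ_mul_le h2i0.le hq₁1'
    obtain ⟨a, X', b, hai, hN, hX'⟩ := hT σ r K A X i q₁ hσ hI hq₁
    have h3a1 : (1 : ℝ) ≤ 3 ^ a := one_le_pow₀ (by norm_num)
    have h3a0 : (0 : ℝ) < 3 ^ a := by positivity
    -- the modulus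
    have hQ : ((3 ^ a * q₁ : ℕ) : ℝ) ≤ (q : ℝ) ^ 2 := by
      have h1 : (3 : ℝ) ^ a ≤ (2 ^ i) ^ 2 := by
        calc (3 : ℝ) ^ a ≤ 3 ^ i := pow_le_pow_right₀ (by norm_num) hai
          _ ≤ 4 ^ i := pow_le_pow_left₀ (by norm_num) (by norm_num) i
          _ = (2 ^ i) ^ 2 := by rw [← pow_mul, mul_comm, pow_mul]; norm_num
      have h2 : (q₁ : ℝ) ≤ q₁ ^ 2 := by
        rw [sq]
        exact ALQ_mul_le hq₁0.le hq₁1'
      rw [hqi', mul_pow]
      push_cast
      exact mul_le_mul h1 h2 hq₁0.le (by positivity)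
    -- the new range
    have hX'R : R ≤ X' := by
      have h1 := (abs_le.1 hX').1
      have h2 : (3 : ℝ) ^ a * X / 2 ^ i = 3 ^ a * (X / 2 ^ i) := by ring
      rw [h2] at h1
      have h3 : (X : ℝ) / q ≤ X / 2 ^ i := div_le_div_of_nonneg_left hXpos.le h2i0 h2i
      have h4 := ALQ_pow hρ2
      rw [← hR] at h4
      have h5 : R + 2 ≤ X / 2 ^ i := by linarith
      exact ALQ_range h3a1 (by linarith) h5 h1
    have hX'0 : (0 : ℝ) < X' := by linarith
    have hX'16 : (16 : ℝ) ≤ X' := by linarith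
    have hX'2 : 2 ≤ X' := by
      have : (2 : ℝ) ≤ X' := by linarith
      exact_mod_cast this
    have hQodd : Odd (3 ^ a * q₁) := (Odd.pow (by decide)).mul hq₁
    have hQ0 : (0 : ℝ) < ((3 ^ a * q₁ : ℕ) : ℝ) := by positivity
    have hRX' : ∀ e : ℝ, 0 < e → (X : ℝ) ^ (e / 2) ≤ (X' : ℝ) ^ e := by
      intro e he
      rw [hXR]
      exact Real.rpow_le_rpow hR0.le hX'R he.le
    have hQX' : ((3 ^ a * q₁ : ℕ) : ℝ) ≤ (X' : ℝ) ^ δ₁ := by
      refine hQ.trans (le_trans ?_ (hRX' δ₁ hδ₁))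
      calc (q : ℝ) ^ 2 ≤ ((X : ℝ) ^ δ) ^ 2 := pow_le_pow_left₀ hq0.le hqX 2
        _ = (X : ℝ) ^ (δ * 2) := by
          rw [← Real.rpow_natCast ((X : ℝ) ^ δ) 2, ← Real.rpow_mul hXpos.le]
          norm_num
        _ ≤ (X : ℝ) ^ (δ₁ / 2) := Real.rpow_le_rpow_of_exponent_le hX1 (by linarith)
    have hKX' : (K : ℝ) ≤ (X' : ℝ) ^ δ₁ := by
      refine hKX.trans (le_trans ?_ (hRX' δ₁ hδ₁))
      exact Real.rpow_le_rpow_of_exponent_le hX1 (by linarith)
    have hKX0 : (K : ℝ) ≤ (X' : ℝ) ^ δ0 := by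
      refine hKX.trans (le_trans ?_ (hRX' δ0 hδ0))
      exact Real.rpow_le_rpow_of_exponent_le hX1 (by linarith)
    have e1 := hALE σ b K A X' (3 ^ a * q₁) hσ hI hX'2 hKX' hQodd hQX'
    have e2 := hLIM σ K A d X' hσ hI hlim hX'2 hKX0
    -- the logarithm
    have hlogR : Real.log X = 2 * Real.log R := by
      rw [← hRX, Real.log_pow]
      push_cast
      ring
    have hlogX' : Real.log X / 2 ≤ Real.log X' := by
      rw [hlogR]
      have := Real.log_le_log hR0 hX'R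
      linarith
    have hlogX'1 : 1 ≤ Real.log X' := by
      have h1 : Real.log 16 ≤ Real.log X' := Real.log_le_log (by norm_num) hX'16
      have h2 : Real.log 16 = 4 * Real.log 2 := by
        rw [show (16 : ℝ) = 2 ^ 4 by norm_num, Real.log_pow]
        push_cast
        ring
      have h3 := Real.log_two_gt_d9
      linarith
    have hlogX1 : 1 ≤ Real.log X := by
      have h1 : Real.log 16 ≤ Real.log X := Real.log_le_log (by norm_num) (by linarith)
      have h2 : Real.log 16 = 4 * Real.log 2 := by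
        rw [show (16 : ℝ) = 2 ^ 4 by norm_num, Real.log_pow]
        push_cast
        ring
      have h3 := Real.log_two_gt_d9
      linarith
    have hLL' : Real.log X ^ c / 2 ≤ Real.log X' ^ c := by
      have h1 : (Real.log X / 2) ^ c ≤ Real.log X' ^ c :=
        Real.rpow_le_rpow (by positivity) hlogX' hcpos.le
      have h2 : (Real.log X / 2) ^ c = Real.log X ^ c * (1 / 2 : ℝ) ^ c := by
        rw [← Real.mul_rpow hlogpos.le (by norm_num)]
        congr 1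
        ring
      have h3 : (1 / 2 : ℝ) ^ (1 : ℝ) ≤ (1 / 2 : ℝ) ^ c :=
        Real.rpow_le_rpow_of_exponent_ge (by norm_num) (by norm_num) hc1
      rw [Real.rpow_one] at h3
      rw [h2] at h1
      exact ALQ_half hLLpos.le h3 h1
    have hLLX' : Real.log X' ^ c ≤ Real.log X' := by
      calc Real.log X' ^ c ≤ Real.log X' ^ (1 : ℝ) :=
            Real.rpow_le_rpow_of_exponent_le hlogX'1 hc1
        _ = Real.log X' := Real.rpow_one _
    have hLLX0 : Real.log X' ^ c ≤ Real.log X' ^ c0 :=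
      Real.rpow_le_rpow_of_exponent_le hlogX'1 hcc0
    obtain ⟨LL, hLL⟩ : ∃ LL : ℝ, LL = Real.log X ^ c := ⟨_, rfl⟩
    rw [← hLL] at hLLpos hLL' ⊢
    obtain ⟨Y, hY⟩ : ∃ Y : ℝ, Y = (X' : ℝ) / ((3 ^ a * q₁ : ℕ) : ℝ) := ⟨_, rfl⟩
    have hYpos : 0 < Y := by
      rw [hY]
      positivity
    have hlx0 : 0 < Real.log X' := by linarith
    have e3 : C₁ * X' / (((3 ^ a * q₁ : ℕ) : ℝ) * Real.log X' ^ 1) ≤ |C₁| * (2 / LL * Y) := by
      have h1 : C₁ * X' / (((3 ^ a * q₁ : ℕ) : ℝ) * Real.log X' ^ 1) =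
          C₁ * (1 / Real.log X' * Y) := by
        rw [hY, pow_one]
        field_simp
      rw [h1]
      have h2 : 1 / Real.log X' ≤ 2 / LL := by
        rw [div_le_div_iff₀ hlx0 hLLpos]
        linarith
      have h3 : 0 ≤ 1 / Real.log X' * Y := by positivity
      calc C₁ * (1 / Real.log X' * Y) ≤ |C₁| * (1 / Real.log X' * Y) :=
            mul_le_mul_of_nonneg_right (le_abs_self _) h3
        _ ≤ |C₁| * (2 / LL * Y) := mul_le_mul_of_nonneg_left
            (mul_le_mul_of_nonneg_right h2 hYpos.le) (abs_nonneg _)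
    have e4 : |(N σ A X' 1 0 : ℝ) / ((3 ^ a * q₁ : ℕ) : ℝ) - d * Y| ≤ C0 * (2 / LL * Y) := by
      have h1 : (N σ A X' 1 0 : ℝ) / ((3 ^ a * q₁ : ℕ) : ℝ) - d * Y =
          (Fr σ A X' - d) * Y := by
        rw [hY, Fr]
        field_simp
      have h2 : C0 / Real.log X' ^ c0 ≤ C0 * (2 / LL) := by
        have h3 : 1 / Real.log X' ^ c0 ≤ 2 / LL := by
          rw [div_le_div_iff₀ (Real.rpow_pos_of_pos hlx0 _) hLLpos]
          linarith
        calc C0 / Real.log X' ^ c0 = C0 * (1 / Real.log X' ^ c0) := by ring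
          _ ≤ C0 * (2 / LL) := mul_le_mul_of_nonneg_left h3 hC0.le
      rw [h1, abs_mul, abs_of_pos hYpos, ← mul_assoc]
      exact mul_le_mul_of_nonneg_right (e2.trans h2) hYpos.le
    have e5 : |Y - X / q| ≤ 2 := by
      have h0 : Y - X / q = ((X' : ℝ) - 3 ^ a * X / 2 ^ i) / ((3 ^ a * q₁ : ℕ) : ℝ) := by
        rw [hY, hqi']
        push_cast
        field_simp
      have h1 : ((3 ^ a * q₁ : ℕ) : ℝ) = 3 ^ a * q₁ := by push_cast; ring
      rw [h0, abs_div, abs_of_pos hQ0, div_le_iff₀ hQ0]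
      rw [h1]
      exact ALQ_e5 (X' := X') hq₁1' h3a0 hX'
    have e7 : Y ≤ 2 * (X / q) := by
      have h1 := (abs_le.1 e5).2
      have h2 : (2 : ℝ) ≤ X / q := by
        have h3 : (2 : ℝ) ^ 7 ≤ ρ ^ 7 := pow_le_pow_left₀ (by norm_num) hρ2 7
        have h4 : (2 : ℝ) ≤ 2 ^ 7 := by norm_num
        linarith
      linarith
    have e8 : (K : ℝ) + 3 ≤ 8 * ((X / q) / LL) := by
      have h1 : LL ≤ 8 * ρ := by
        have h2 : LL ≤ Real.log X := by
          rw [hLL]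
          calc Real.log X ^ c ≤ Real.log X ^ (1 : ℝ) :=
                Real.rpow_le_rpow_of_exponent_le hlogX1 hc1
            _ = Real.log X := Real.rpow_one _
        have h3 : Real.log X = 8 * Real.log ρ := by
          rw [← hρ8, Real.log_pow]
          push_cast
          ring
        have h4 := Real.log_le_sub_one_of_pos hρ0
        linarith
      have h2 : 8 * ((X : ℝ) / q / LL) = 8 * (X / q) / LL := by ring
      rw [h2, le_div_iff₀ hLLpos]
      calc ((K : ℝ) + 3) * LL ≤ (ρ + 3) * (8 * ρ) :=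
            mul_le_mul (by linarith) h1 hLLpos.le (by positivity)
        _ ≤ 8 * ρ ^ 7 := ALQ_pow2 hρ2
        _ ≤ 8 * (X / q) := by linarith
    have e9 : |d * Y - d * (X / q)| ≤ 2 := by
      rw [← mul_sub, abs_mul, abs_of_nonneg hd0]
      exact ALQ_two hd1 hd0 (abs_nonneg _) e5
    have hNq : (N σ A X q r : ℝ) = (N σ A X (2 ^ i * q₁) r : ℝ) := by rw [hqi]
    rw [← hNq] at hN
    have h10 : |(N σ A X q r : ℝ) - d * (X / q)| ≤
        (K + 1) + |C₁| * (2 / LL * Y) + C0 * (2 / LL * Y) + 2 := by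
      have a0 := abs_le.1 hN
      have a1 := abs_le.1 (e1.trans e3)
      have a2 := abs_le.1 e4
      have a3 := abs_le.1 e9
      rw [abs_le]
      constructor
      · linarith [a0.1, a1.1, a2.1, a3.1]
      · linarith [a0.2, a1.2, a2.2, a3.2]
    have h11 : 2 / LL * Y ≤ 4 * ((X / q) / LL) := by
      calc 2 / LL * Y ≤ 2 / LL * (2 * (X / q)) := mul_le_mul_of_nonneg_left e7 (by positivity)
        _ = 4 * ((X / q) / LL) := by ring
    have h12 : |C₁| * (2 / LL * Y) ≤ |C₁| * (4 * ((X / q) / LL)) :=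
      mul_le_mul_of_nonneg_left h11 (abs_nonneg _)
    have h13 : C0 * (2 / LL * Y) ≤ C0 * (4 * ((X / q) / LL)) :=
      mul_le_mul_of_nonneg_left h11 hC0.le
    have h14 : 0 ≤ ((X : ℝ) / q) / LL := by positivity
    calc |(N σ A X q r : ℝ) - d * (X / q)|
        ≤ (K + 1) + |C₁| * (2 / LL * Y) + C0 * (2 / LL * Y) + 2 := h10
      _ ≤ 8 * ((X / q) / LL) + |C₁| * (4 * ((X / q) / LL)) + C0 * (4 * ((X / q) / LL)) := by
          linarith
      _ = C' * ((X / q) / LL) := by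
          rw [hC']
          ring
      _ ≤ (C' + 65536) * ((X / q) / LL) := by
          rw [add_mul]
          linarith

end Pool.Agent.RTE
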