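import Pool.Agent.RTE.Tr
import Pool.Agent.SLD.All

set_option autoImplicit false

/-!
# RTE, module Cns: the conserved quantity converges with a rate
-/

namespace Pool.Agent.RTE

open Finset
open Pool.Agent.SLD (N EvInv T)

/-- Invariance under doubling. -/
theorem Cns_even {σ : ℤ} (hσ : σ = 1 ∨ σ = -1) {K : ℕ} {A : Set ℤ} (hA : EvInv K A) {m : ℕ}
    (hm : K < 2 * m) : ind σ A (2 * m) = ind σ A m := by
  have hT : T (σ * ((2 * m : ℕ) : ℤ)) = σ * (m : ℤ) := by
    unfold T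
    push_cast
    have e : σ * (2 * (m : ℤ)) = 2 * (σ * m) := by ring
    rw [e, if_pos (dvd_mul_right 2 _), Int.mul_ediv_cancel_left _ (by norm_num)]
  have habs : (K : ℤ) < |σ * ((2 * m : ℕ) : ℤ)| := by
    rw [abs_mul]
    have h1 : |σ| = 1 := by rcases hσ with h | h <;> rw [h] <;> norm_num
    rw [h1, one_mul, Nat.abs_cast]
    exact_mod_cast hm
  have h := hA _ habs
  rw [hT] at h
  unfold ind
  split_ifs with h1 h2 h2
  · rfl
  · exact absurd (h.2 h1) h2
  · exact absurd (h.1 h2) h1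
  · rfl

/-- Invariance at odd integers. -/
theorem Cns_odd {σ : ℤ} {ρ : ℕ} (hρ : (σ = 1 ∧ ρ = 2) ∨ (σ = -1 ∧ ρ = 1)) {K : ℕ} {A : Set ℤ}
    (hA : EvInv K A) {t : ℕ} (ht : K < 2 * t + 1) : ind σ A (2 * t + 1) = ind σ A (3 * t + ρ) := by
  have hT : T (σ * ((2 * t + 1 : ℕ) : ℤ)) = σ * ((3 * t + ρ : ℕ) : ℤ) := by
    unfold T
    rcases hρ with ⟨h, h'⟩ | ⟨h, h'⟩
    · rw [h, h', if_neg (by push_cast; omega)]
      push_cast
      omega
    · rw [h, h', if_neg (by push_cast; omega)]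
      push_cast
      omega
  have habs : (K : ℤ) < |σ * ((2 * t + 1 : ℕ) : ℤ)| := by
    rw [abs_mul]
    have h1 : |σ| = 1 := by rcases hρ with ⟨h, _⟩ | ⟨h, _⟩ <;> rw [h] <;> norm_num
    rw [h1, one_mul, Nat.abs_cast]
    exact_mod_cast ht
  have h := hA _ habs
  rw [hT] at h
  unfold ind
  split_ifs with h1 h2 h2
  · rfl
  · exact absurd (h.2 h1) h2
  · exact absurd (h.1 h2) h1
  · rfl

/-- [CON] -/
theorem thm_CON : St_CON := by
  obtain ⟨δ, hδ, C, hE⟩ := Pool.Agent.SLD.all_ALE 2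
  obtain ⟨C₁, hC₁⟩ : ∃ C₁ : ℝ, C₁ = max C 0 := ⟨_, rfl⟩
  have hC₁0 : 0 ≤ C₁ := by rw [hC₁]; exact le_max_right _ _
  -- the size from which `3 ≤ m ^ δ`
  obtain ⟨X₀, hX₀1, hX₀⟩ : ∃ X₀ : ℕ, 2 ≤ X₀ ∧ ∀ m : ℕ, X₀ ≤ m → (3 : ℝ) ≤ (m : ℝ) ^ δ := by
    obtain ⟨X₀, h⟩ := exists_nat_ge ((3 : ℝ) ^ (1 / δ))
    refine ⟨max X₀ 2, le_max_right _ _, fun m hm => ?_⟩
    have h1 : (3 : ℝ) ^ (1 / δ) ≤ (m : ℝ) :=
      h.trans (by exact_mod_cast (le_max_left _ _).trans hm)
    calc (3 : ℝ) = ((3 : ℝ) ^ (1 / δ)) ^ δ := by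
          rw [← Real.rpow_mul (by norm_num), one_div, inv_mul_cancel₀ hδ.ne', Real.rpow_one]
      _ ≤ (m : ℝ) ^ δ := Real.rpow_le_rpow (by positivity) h1 hδ.le
  have hlX₀ : 0 < Real.log X₀ := by
    apply Real.log_pos
    exact_mod_cast (by omega : 1 < X₀)
  refine ⟨min δ 1, 12 * C₁ + 3 + 2 * Real.log X₀, lt_min hδ one_pos, by positivity, ?_⟩
  intro σ K A X X' hσ hA hX hK hXX'
  have hX1 : 1 ≤ X := by omega
  have hXR : (2 : ℝ) ≤ X := by exact_mod_cast hX
  have hX0 : (0 : ℝ) < X := by linarith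
  have hlX : 0 < Real.log X := Real.log_pos (by linarith)
  rw [tr_MM, tr_MM]
  obtain ⟨a, ha⟩ : ∃ a, a = ind σ A := ⟨_, rfl⟩
  rw [← ha]
  have h0 : ∀ n, 0 ≤ a n := fun n => by rw [ha]; exact ind_nonneg σ A n
  have h1 : ∀ n, a n ≤ 1 := fun n => by rw [ha]; exact ind_le_one σ A n
  rcases Nat.lt_or_ge X X₀ with hsm | hla
  · -- small `X`
    have e1 := MM_le a h0 h1 X hX1
    have e2 := MM_le a h0 h1 X' (by omega)
    have e3 := abs_sub (MM a X') (MM a X)
    have e4 : Real.log X ≤ Real.log X₀ := by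
      apply Real.log_le_log hX0
      exact_mod_cast hsm.le
    rw [le_div_iff₀ hlX]
    have e5 : |MM a X' - MM a X| ≤ 2 := by linarith
    have e6 : |MM a X' - MM a X| * Real.log X ≤ 2 * Real.log X₀ :=
      mul_le_mul e5 e4 hlX.le (by norm_num)
    linarith
  · -- large `X`
    have hKX : (K : ℝ) ≤ X := by
      refine hK.trans ?_
      calc (X : ℝ) ^ (min δ 1) ≤ (X : ℝ) ^ (1 : ℝ) :=
            Real.rpow_le_rpow_of_exponent_le (by linarith) (min_le_right _ _)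
        _ = X := Real.rpow_one _
    have hKXn : K ≤ X := by exact_mod_cast hKX
    obtain ⟨ρ, hρ⟩ : ∃ ρ : ℕ, (σ = 1 ∧ ρ = 2) ∨ (σ = -1 ∧ ρ = 1) := by
      rcases hσ with h | h
      · exact ⟨2, Or.inl ⟨h, rfl⟩⟩
      · exact ⟨1, Or.inr ⟨h, rfl⟩⟩
    have hρ12 : ρ = 1 ∨ ρ = 2 := by
      rcases hρ with ⟨_, h⟩ | ⟨_, h⟩
      · exact Or.inr h
      · exact Or.inl h
    obtain ⟨k, rfl⟩ : ∃ k, X' = X + k := ⟨X' - X, by omega⟩
    have key := con_abs a h0 h1 ρ hρ12 X k hX1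
      (fun m hm => by rw [ha]; exact Cns_even hσ hA (by omega))
      (fun t ht => by rw [ha]; exact Cns_odd hρ hA (by omega)) C₁ hC₁0
      (fun m hm => by
        have hm1 : X ≤ m := by omega
        have hmR : (X : ℝ) ≤ m := by exact_mod_cast hm1
        have hlm : 0 < Real.log m := Real.log_pos (by linarith)
        have hKm : (K : ℝ) ≤ (m : ℝ) ^ δ := by
          refine hK.trans ?_
          calc (X : ℝ) ^ (min δ 1) ≤ (X : ℝ) ^ δ :=
                Real.rpow_le_rpow_of_exponent_le (by linarith) (min_le_left _ _)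
            _ ≤ (m : ℝ) ^ δ := Real.rpow_le_rpow hX0.le hmR hδ.le
        have h3 := hE σ 2 K A m 3 hσ hA (by omega) hKm (by decide)
          (by exact_mod_cast hX₀ m (by omega))
        rw [SS_df, ha, tr_cl hσ A m ρ hρ, tr_SS hσ]
        push_cast at h3
        refine h3.trans ?_
        have h4 : C * (m : ℝ) / (3 * Real.log m ^ 2) ≤ C₁ * m / (3 * Real.log m ^ 2) := by
          apply div_le_div_of_nonneg_right _ (by positivity)
          apply mul_le_mul_of_nonneg_right _ (by linarith)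
          rw [hC₁]
          exact le_max_left _ _
        refine h4.trans ?_
        apply div_le_div_of_nonneg_left (by positivity) (by positivity)
        have : 0 ≤ Real.log m ^ 2 := by positivity
        linarith)
    refine key.trans ?_
    have e4 : Real.log X ≤ Real.log (3 * X : ℕ) := by
      apply Real.log_le_log hX0
      exact_mod_cast (by omega : X ≤ 3 * X)
    have e5 : (12 * C₁ + 3) / Real.log (3 * X : ℕ) ≤ (12 * C₁ + 3) / Real.log X :=
      div_le_div_of_nonneg_left (by positivity) hlX e4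
    refine e5.trans (div_le_div_of_nonneg_right ?_ hlX.le)
    linarith

end Pool.Agent.RTE
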