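import Pool.Agent.RTE.St
import Pool.Agent.SLD.FWE
import Pool.Agent.Helper86.CollatzInt

/-! RTE, module STP (helper77): one step of slow variation, from the rate of merging. -/

set_option autoImplicit false
set_option linter.unusedVariables false

namespace Pool.Agent.RTE

open Finset Filter Topology
open Pool.Agent.SLD (N EvInv T)
open Pool.Agent.Helper86.CollatzChain (w u w_zero_or_one u_nonneg)
open Pool.Agent.Helper86.CollatzRate (rate)
open Pool.Agent.Helper86.CollatzInt (coalesce sum_w_le_shift)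

open Classical in
/-- the indicator function -/
noncomputable def stpI (A : Set ℤ) (n : ℤ) : ℝ := if n ∈ A then 1 else 0

private theorem stp_I01 (A : Set ℤ) (n : ℤ) : 0 ≤ stpI A n ∧ stpI A n ≤ 1 := by
  unfold stpI
  split_ifs <;> norm_num

private theorem stp_I_congr {A : Set ℤ} {m n : ℤ} (h : m ∈ A ↔ n ∈ A) : stpI A m = stpI A n := by
  unfold stpI
  by_cases hm : m ∈ A
  · rw [if_pos hm, if_pos (h.1 hm)]
  · rw [if_neg hm, if_neg (fun hn => hm (h.2 hn))]

private theorem stp_I_dist (A : Set ℤ) (m n : ℤ) : |stpI A m - stpI A n| ≤ 1 := by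
  have h1 := stp_I01 A m
  have h2 := stp_I01 A n
  rw [abs_le]
  constructor <;> linarith

/-- `N` as a sum of indicators -/
theorem stp_N {σ : ℤ} (hσ : σ = 1 ∨ σ = -1) (A : Set ℤ) (X : ℕ) :
    (N σ A X 1 0 : ℝ) = ∑ t ∈ range X, stpI A (σ * ((t : ℤ) + 1)) := by
  classical
  have hσσ : σ * σ = 1 := by rcases hσ with rfl | rfl <;> norm_num
  have hset : {n : ℤ | 1 ≤ σ * n ∧ σ * n ≤ X ∧ ((1 : ℕ) : ℤ) ∣ n - 0 ∧ n ∈ A} =
      (fun t : ℕ => σ * ((t : ℤ) + 1)) ''
        (((range X).filter (fun t : ℕ => σ * ((t : ℤ) + 1) ∈ A) : Finset ℕ) : Set ℕ) := by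
    ext n
    constructor
    · rintro ⟨h1, h2, -, h4⟩
      have e0 : (((σ * n - 1).toNat : ℕ) : ℤ) = σ * n - 1 := Int.toNat_of_nonneg (by omega)
      have e1 : σ * ((((σ * n - 1).toNat : ℕ) : ℤ) + 1) = n := by
        rw [e0]
        linear_combination n * hσσ
      refine ⟨(σ * n - 1).toNat, ?_, e1⟩
      rw [Finset.mem_coe, Finset.mem_filter, Finset.mem_range]
      refine ⟨by omega, ?_⟩
      rw [e1]
      exact h4
    · rintro ⟨t, ht, rfl⟩
      rw [Finset.mem_coe, Finset.mem_filter, Finset.mem_range] at ht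
      have e : σ * (σ * ((t : ℤ) + 1)) = (t : ℤ) + 1 := by rw [← mul_assoc, hσσ, one_mul]
      refine ⟨?_, ?_, ?_, ht.2⟩
      · show 1 ≤ σ * (σ * ((t : ℤ) + 1))
        rw [e]
        omega
      · show σ * (σ * ((t : ℤ) + 1)) ≤ X
        rw [e]
        have := ht.1
        omega
      · simp
  have hinj : Function.Injective (fun t : ℕ => σ * ((t : ℤ) + 1)) := by
    intro a b hab
    have h1 : σ * ((a : ℤ) + 1) = σ * ((b : ℤ) + 1) := hab
    have h2 : σ * (σ * ((a : ℤ) + 1)) = σ * (σ * ((b : ℤ) + 1)) := by rw [h1]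
    rw [← mul_assoc, ← mul_assoc, hσσ, one_mul, one_mul] at h2
    omega
  unfold N
  rw [hset, Set.ncard_image_of_injective _ hinj, Set.ncard_coe_finset, Finset.card_filter]
  push_cast
  rfl

/-- the sum of `w` over `σ t`, `t < X` -/
private theorem stp_w {σ : ℤ} (hσ : σ = 1 ∨ σ = -1) (k X : ℕ) (s : ℕ × ℤ) :
    ∑ t ∈ range X, w k s (σ * (t : ℤ)) ≤ (X + 2 ^ k) * u k s := by
  rcases hσ with rfl | rfl
  · have h := sum_w_le_shift k X s 0
    refine le_trans (le_of_eq ?_) h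
    apply Finset.sum_congr rfl
    intro t _
    congr 1
    ring
  · have h := sum_w_le_shift k X s (-((X : ℤ) - 1))
    refine le_trans (le_of_eq ?_) h
    rw [← Finset.sum_range_reflect]
    apply Finset.sum_congr rfl
    intro t ht
    rw [Finset.mem_range] at ht
    congr 1
    have : ((X - 1 - t : ℕ) : ℤ) = (X : ℤ) - 1 - t := by omega
    rw [this]
    ring

/-- `3 n + b` and `n` are on the same side, up to the count -/
private theorem stp_merge (hF : Pool.Agent.SLD.St_FWE) {σ : ℤ} (hσ : σ = 1 ∨ σ = -1) {K : ℕ} {A : Set ℤ}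
    (hI : EvInv K A) (X k : ℕ) {b : ℤ} (hb : |b| ≤ 3) :
    ∑ t ∈ range X, |stpI A (3 * (σ * (t : ℤ)) + b) - stpI A (σ * (t : ℤ))| ≤
      (X + 2 ^ k) * u k (1, b) + (K * 2 ^ k + 2) := by
  classical
  have hσσ : |σ| = 1 := by rcases hσ with rfl | rfl <;> norm_num
  have h1 : ∀ t : ℕ, |stpI A (3 * (σ * (t : ℤ)) + b) - stpI A (σ * (t : ℤ))| ≤
      w k (1, b) (σ * (t : ℤ)) + (if t < K * 2 ^ k + 2 then 1 else 0) := by
    intro t
    have hd := stp_I_dist A (3 * (σ * (t : ℤ)) + b) (σ * (t : ℤ))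
    rcases w_zero_or_one k (1, b) (σ * (t : ℤ)) with h | h
    · split_ifs with ht
      · rw [h]; linarith
      · rw [h]
        push Not at ht
        have e1 := coalesce k 1 b (σ * (t : ℤ)) (3 * (σ * (t : ℤ)) + b) (by ring) h
        have habs : |σ * (t : ℤ)| = t := by
          rw [abs_mul, hσσ, one_mul]
          exact abs_of_nonneg (by positivity)
        have ht' : (K : ℤ) * 2 ^ k + 2 ≤ t := by exact_mod_cast ht
        have e2 : (K : ℤ) * 2 ^ k < |σ * (t : ℤ)| := by rw [habs]; linarith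
        have e3 : (K : ℤ) * 2 ^ k < |3 * (σ * (t : ℤ)) + b| := by
          have h5 : |3 * (σ * (t : ℤ))| ≤ |3 * (σ * (t : ℤ)) + b| + |b| := by
            have h6 := abs_add_le (3 * (σ * (t : ℤ)) + b) (-b)
            rw [abs_neg] at h6
            have h7 : 3 * (σ * (t : ℤ)) + b + -b = 3 * (σ * (t : ℤ)) := by ring
            rw [h7] at h6
            exact h6
          rw [abs_mul, habs] at h5
          have h6 : |(3 : ℤ)| = 3 := by norm_num
          rw [h6] at h5
          have h8 : (0 : ℤ) ≤ (K : ℤ) * 2 ^ k := by positivity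
          linarith
        have e4 := hF.2 K A hI (σ * (t : ℤ)) k e2
        have e5 := hF.2 K A hI (3 * (σ * (t : ℤ)) + b) k e3
        have hT : Pool.Agent.Helper14.T = T := by
          funext n
          unfold Pool.Agent.Helper14.T T
          split_ifs <;> omega
        rw [hT] at e1
        have e6 : stpI A (3 * (σ * (t : ℤ)) + b) = stpI A (σ * (t : ℤ)) :=
          stp_I_congr (by rw [← e5, ← e4, e1])
        rw [e6]
        simp
    · rw [h]
      split_ifs <;> linarith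
  refine (Finset.sum_le_sum fun t _ => h1 t).trans ?_
  rw [Finset.sum_add_distrib]
  have h2 := stp_w hσ k X (1, b)
  have h3 : ∑ t ∈ range X, (if t < K * 2 ^ k + 2 then (1 : ℝ) else 0) ≤ K * 2 ^ k + 2 := by
    have h4 : ∑ t ∈ range X, (if t < K * 2 ^ k + 2 then (1 : ℝ) else 0) =
        (((range X).filter (fun t => t < K * 2 ^ k + 2)).card : ℝ) := by
      rw [Finset.card_filter]
      push_cast
      rfl
    rw [h4]
    have h5 : ((range X).filter (fun t => t < K * 2 ^ k + 2)).card ≤ K * 2 ^ k + 2 := by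
      calc ((range X).filter (fun t => t < K * 2 ^ k + 2)).card ≤ (range (K * 2 ^ k + 2)).card := by
            apply Finset.card_le_card
            intro t ht
            rw [Finset.mem_filter] at ht
            exact Finset.mem_range.2 ht.2
        _ = K * 2 ^ k + 2 := Finset.card_range _
    exact_mod_cast h5
  linarith

private theorem stp_sum2 (f : ℕ → ℝ) (X : ℕ) :
    ∑ t ∈ range (2 * X), f t = ∑ s ∈ range X, (f (2 * s) + f (2 * s + 1)) := by
  induction X with
  | zero => simp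
  | succ X ih =>
    rw [show 2 * (X + 1) = 2 * X + 1 + 1 by ring, Finset.sum_range_succ, Finset.sum_range_succ, ih,
      Finset.sum_range_succ]
    ring

private theorem stp_sum3 (f : ℕ → ℝ) (X : ℕ) :
    ∑ t ∈ range (3 * X), f t = ∑ s ∈ range X, (f (3 * s) + f (3 * s + 1) + f (3 * s + 2)) := by
  induction X with
  | zero => simp
  | succ X ih =>
    rw [show 3 * (X + 1) = 3 * X + 1 + 1 + 1 by ring, Finset.sum_range_succ, Finset.sum_range_succ,
      Finset.sum_range_succ, ih, Finset.sum_range_succ]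
    ring

/-- the shift by one -/
private theorem stp_shift (σ : ℤ) (A : Set ℤ) (X : ℕ) :
    |∑ t ∈ range X, stpI A (σ * ((t : ℤ) + 1)) - ∑ t ∈ range X, stpI A (σ * (t : ℤ))| ≤ 1 := by
  have h : ∑ t ∈ range X, stpI A (σ * ((t : ℤ) + 1)) - ∑ t ∈ range X, stpI A (σ * (t : ℤ)) =
      stpI A (σ * (X : ℤ)) - stpI A 0 := by
    induction X with
    | zero => simp
    | succ X ih =>
      rw [Finset.sum_range_succ, Finset.sum_range_succ]
      have e : σ * (((X + 1 : ℕ) : ℤ)) = σ * ((X : ℤ) + 1) := by push_cast; ring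
      rw [e]
      linarith
  rw [h]
  exact stp_I_dist A _ _

private theorem stp_few (f : ℕ → ℝ) (X M : ℕ) (h1 : ∀ t, |f t| ≤ 1) (h2 : ∀ t, M ≤ t → f t = 0) :
    ∑ t ∈ range X, |f t| ≤ M := by
  have h3 : ∀ t, |f t| ≤ (if t < M then (1 : ℝ) else 0) := by
    intro t
    split_ifs with ht
    · exact h1 t
    · rw [h2 t (by omega)]
      simp
  refine (Finset.sum_le_sum fun t _ => h3 t).trans ?_
  have h4 : ∑ t ∈ range X, (if t < M then (1 : ℝ) else 0) =
      (((range X).filter (fun t => t < M)).card : ℝ) := by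
    rw [Finset.card_filter]
    push_cast
    rfl
  rw [h4]
  have h5 : ((range X).filter (fun t => t < M)).card ≤ M := by
    calc ((range X).filter (fun t => t < M)).card ≤ (range M).card := by
          apply Finset.card_le_card
          intro t ht
          rw [Finset.mem_filter] at ht
          exact Finset.mem_range.2 ht.2
      _ = M := Finset.card_range _
  exact_mod_cast h5

private theorem stp_even {σ : ℤ} (hσ : σ = 1 ∨ σ = -1) {K : ℕ} {A : Set ℤ} (hI : EvInv K A) (X : ℕ) :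
    ∑ t ∈ range X, |stpI A (σ * (2 * (t : ℤ) + 2)) - stpI A (σ * ((t : ℤ) + 1))| ≤ K := by
  apply stp_few (fun t : ℕ => stpI A (σ * (2 * (t : ℤ) + 2)) - stpI A (σ * ((t : ℤ) + 1)))
  · intro t
    exact stp_I_dist A _ _
  · intro t ht
    have hσσ : |σ| = 1 := by rcases hσ with rfl | rfl <;> norm_num
    have h1 : (K : ℤ) < |σ * (2 * (t : ℤ) + 2)| := by
      rw [abs_mul, hσσ, one_mul, abs_of_nonneg (by positivity)]
      omega
    have h2 := hI _ h1
    have h3 : T (σ * (2 * (t : ℤ) + 2)) = σ * ((t : ℤ) + 1) := by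
      unfold T
      rcases hσ with rfl | rfl <;> rw [if_pos (by omega)] <;> omega
    rw [h3] at h2
    have h4 := stp_I_congr h2
    show stpI A (σ * (2 * (t : ℤ) + 2)) - stpI A (σ * ((t : ℤ) + 1)) = 0
    rw [h4]
    ring

private theorem stp_odd {σ : ℤ} (hσ : σ = 1 ∨ σ = -1) {K : ℕ} {A : Set ℤ} (hI : EvInv K A) (X : ℕ) :
    ∃ b : ℤ, |b| ≤ 3 ∧
    ∑ t ∈ range X, |stpI A (σ * (2 * (t : ℤ) + 1)) - stpI A (3 * (σ * (t : ℤ)) + b)| ≤ K := by
  obtain ⟨b, hb, hT⟩ : ∃ b : ℤ, |b| ≤ 3 ∧ ∀ t : ℕ, T (σ * (2 * (t : ℤ) + 1)) = 3 * (σ * (t : ℤ)) + b := by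
    rcases hσ with rfl | rfl
    · refine ⟨2, by norm_num, fun t => ?_⟩
      unfold T
      rw [if_neg (by omega)]
      omega
    · refine ⟨-1, by norm_num, fun t => ?_⟩
      unfold T
      rw [if_neg (by omega)]
      omega
  refine ⟨b, hb, ?_⟩
  apply stp_few (fun t : ℕ => stpI A (σ * (2 * (t : ℤ) + 1)) - stpI A (3 * (σ * (t : ℤ)) + b))
  · intro t
    exact stp_I_dist A _ _
  · intro t ht
    have hσσ : |σ| = 1 := by rcases hσ with rfl | rfl <;> norm_num
    have h1 : (K : ℤ) < |σ * (2 * (t : ℤ) + 1)| := by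
      rw [abs_mul, hσσ, one_mul, abs_of_nonneg (by positivity)]
      omega
    have h2 := hI _ h1
    rw [hT t] at h2
    have h4 := stp_I_congr h2
    show stpI A (σ * (2 * (t : ℤ) + 1)) - stpI A (3 * (σ * (t : ℤ)) + b) = 0
    rw [h4]
    ring

private theorem stp_abs_sum {f g : ℕ → ℝ} {X : ℕ} {c : ℝ} (h : ∑ t ∈ range X, |f t - g t| ≤ c) :
    |∑ t ∈ range X, f t - ∑ t ∈ range X, g t| ≤ c := by
  rw [← Finset.sum_sub_distrib]
  exact (Finset.abs_sum_le_sum_abs _ _).trans h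

/-- the two counts -/
private theorem stp_counts (hF : Pool.Agent.SLD.St_FWE) {σ : ℤ} (hσ : σ = 1 ∨ σ = -1) {K : ℕ} {A : Set ℤ}
    (hI : EvInv K A) (X k : ℕ) {U : ℝ} (hU : ∀ b : ℤ, |b| ≤ 3 → u k (1, b) ≤ U) :
    |(N σ A (2 * X) 1 0 : ℝ) - 2 * N σ A X 1 0| ≤ (X + 2 ^ k) * U + (K * 2 ^ k + 2) + 2 * K + 1 ∧
    |(N σ A (3 * X) 1 0 : ℝ) - 3 * N σ A X 1 0| ≤ 3 * ((X + 2 ^ k) * U + (K * 2 ^ k + 2)) + 3 := by
  have hE : ∀ b : ℤ, |b| ≤ 3 →
      ∑ t ∈ range X, |stpI A (3 * (σ * (t : ℤ)) + b) - stpI A (σ * (t : ℤ))| ≤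
        (X + 2 ^ k) * U + (K * 2 ^ k + 2) := by
    intro b hb
    refine (stp_merge hF hσ hI X k hb).trans ?_
    have h1 := mul_le_mul_of_nonneg_left (hU b hb) (by positivity : (0 : ℝ) ≤ (X : ℝ) + 2 ^ k)
    linarith
  have hS := stp_shift σ A X
  rw [stp_N hσ, stp_N hσ, stp_N hσ, stp_sum2, stp_sum3]
  set S1 : ℝ := ∑ t ∈ range X, stpI A (σ * ((t : ℤ) + 1)) with hS1
  set S0 : ℝ := ∑ t ∈ range X, stpI A (σ * (t : ℤ)) with hS0
  constructor
  · obtain ⟨b, hb, ho⟩ := stp_odd hσ hI X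
    have h1 := stp_abs_sum ho
    have h2 := stp_abs_sum (hE b hb)
    have h3 := stp_abs_sum (stp_even hσ hI X)
    have e : ∑ s ∈ range X, (stpI A (σ * (((2 * s : ℕ) : ℤ) + 1)) + stpI A (σ * (((2 * s + 1 : ℕ) : ℤ) + 1))) =
        ∑ t ∈ range X, stpI A (σ * (2 * (t : ℤ) + 1)) + ∑ t ∈ range X, stpI A (σ * (2 * (t : ℤ) + 2)) := by
      rw [← Finset.sum_add_distrib]
      apply Finset.sum_congr rfl
      intro s _
      have e1 : (((2 * s : ℕ) : ℤ) + 1) = 2 * (s : ℤ) + 1 := by push_cast; ring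
      have e2 : (((2 * s + 1 : ℕ) : ℤ) + 1) = 2 * (s : ℤ) + 2 := by push_cast; ring
      rw [e1, e2]
    rw [e]
    rw [abs_le] at h1 h2 h3 hS ⊢
    constructor <;> linarith
  · have hb : ∀ r : ℤ, 0 ≤ r → r ≤ 3 → |σ * r| ≤ 3 := by
      intro r h0 h3
      have hσσ : |σ| = 1 := by rcases hσ with rfl | rfl <;> norm_num
      rw [abs_mul, hσσ, one_mul, abs_of_nonneg h0]
      exact h3
    have h1 := stp_abs_sum (hE (σ * 1) (hb 1 (by norm_num) (by norm_num)))
    have h2 := stp_abs_sum (hE (σ * 2) (hb 2 (by norm_num) (by norm_num)))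
    have h3 := stp_abs_sum (hE (σ * 3) (hb 3 (by norm_num) (by norm_num)))
    have e : ∑ s ∈ range X, (stpI A (σ * (((3 * s : ℕ) : ℤ) + 1)) + stpI A (σ * (((3 * s + 1 : ℕ) : ℤ) + 1)) +
          stpI A (σ * (((3 * s + 2 : ℕ) : ℤ) + 1))) =
        ∑ t ∈ range X, stpI A (3 * (σ * (t : ℤ)) + σ * 1) + ∑ t ∈ range X, stpI A (3 * (σ * (t : ℤ)) + σ * 2) +
          ∑ t ∈ range X, stpI A (3 * (σ * (t : ℤ)) + σ * 3) := by
      rw [← Finset.sum_add_distrib, ← Finset.sum_add_distrib]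
      apply Finset.sum_congr rfl
      intro s _
      have e1 : σ * (((3 * s : ℕ) : ℤ) + 1) = 3 * (σ * (s : ℤ)) + σ * 1 := by push_cast; ring
      have e2 : σ * (((3 * s + 1 : ℕ) : ℤ) + 1) = 3 * (σ * (s : ℤ)) + σ * 2 := by push_cast; ring
      have e3 : σ * (((3 * s + 2 : ℕ) : ℤ) + 1) = 3 * (σ * (s : ℤ)) + σ * 3 := by push_cast; ring
      rw [e1, e2, e3]
    rw [e]
    rw [abs_le] at h1 h2 h3 hS ⊢
    constructor <;> linarith


/-- [STP] -/
theorem thm_STP (hF : Pool.Agent.SLD.St_FWE) : St_STP := by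
  obtain ⟨C, hC, hrate⟩ := rate
  refine ⟨32 * C + 100, by positivity, ?_⟩
  intro σ K A X hσ hI hX2 hK
  have hX0 : (0 : ℝ) < X := by
    have : 0 < X := by omega
    exact_mod_cast this
  have hX1 : (1 : ℝ) ≤ X := by
    have : 1 ≤ X := by omega
    exact_mod_cast this
  have hlog : 0 < Real.log X := by
    apply Real.log_pos
    have : 1 < X := by omega
    exact_mod_cast this
  have hs0 : 0 < Real.sqrt (Real.log X) := Real.sqrt_pos.2 hlog
  -- the fourth root
  set R : ℝ := (X : ℝ) ^ ((1 : ℝ) / 4) with hR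
  have hR0 : 0 < R := Real.rpow_pos_of_pos hX0 _
  have hR1 : 1 ≤ R := Real.one_le_rpow hX1 (by norm_num)
  have hR4 : R ^ 4 = X := by
    rw [hR, ← Real.rpow_natCast, ← Real.rpow_mul hX0.le]
    norm_num
  have hlogR : Real.log X ≤ 4 * R := by
    rw [← hR4, Real.log_pow]
    have := Real.log_le_sub_one_of_pos hR0
    push_cast
    linarith
  have hsR : Real.sqrt (Real.log X) ≤ 2 * R := by
    rw [show 2 * R = Real.sqrt ((2 * R) ^ 2) by rw [Real.sqrt_sq (by positivity)]]
    apply Real.sqrt_le_sqrt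
    nlinarith
  set Y : ℝ := X / Real.sqrt (Real.log X) with hY
  have hY0 : 0 < Y := by positivity
  have hYR : R ^ 3 ≤ 2 * Y := by
    rw [hY, mul_div_assoc', le_div_iff₀ hs0]
    have h1 := mul_le_mul_of_nonneg_left hsR (by positivity : (0 : ℝ) ≤ R ^ 3)
    have h2 : R ^ 3 * (2 * R) = 2 * X := by rw [← hR4]; ring
    linarith
  have h1R : 1 ≤ R ^ 3 := one_le_pow₀ hR1
  have hRR : R ≤ R ^ 3 := by
    calc R = R ^ 1 := (pow_one R).symm
      _ ≤ R ^ 3 := pow_le_pow_right₀ hR1 (by norm_num)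
  -- the time
  have key : ∃ (k : ℕ) (U : ℝ), (∀ b : ℤ, |b| ≤ 3 → u k (1, b) ≤ U) ∧ ((X : ℝ) + 2 ^ k) * U ≤ (16 * C + 8) * Y ∧
      (K : ℝ) * 2 ^ k ≤ R ^ 3 := by
    obtain ⟨k, hk⟩ : ∃ k, k = Nat.log 2 X / 2 := ⟨_, rfl⟩
    have hk2 : 2 ^ (2 * k) ≤ X := by
      calc 2 ^ (2 * k) ≤ 2 ^ (Nat.log 2 X) := Nat.pow_le_pow_right (by norm_num) (by omega)
        _ ≤ X := Nat.pow_log_le_self 2 (by omega)
    have hk3 : X < 2 ^ (2 * k + 2) := by
      calc X < 2 ^ (Nat.log 2 X + 1) := Nat.lt_pow_succ_log_self (by norm_num) X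
        _ ≤ 2 ^ (2 * k + 2) := Nat.pow_le_pow_right (by norm_num) (by omega)
    have hkR : (2 : ℝ) ^ k ≤ R ^ 2 := by
      have h1 : ((2 : ℝ) ^ k) ^ 2 ≤ (R ^ 2) ^ 2 := by
        rw [← pow_mul, ← pow_mul, hR4, mul_comm k 2]
        exact_mod_cast hk2
      exact le_of_sq_le_sq h1 (by positivity)
    have hKk : (K : ℝ) * 2 ^ k ≤ R ^ 3 := by
      calc (K : ℝ) * 2 ^ k ≤ R * R ^ 2 := mul_le_mul hK hkR (by positivity) hR0.le
        _ = R ^ 3 := by ring
    have h2X : (2 : ℝ) ^ k ≤ X := by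
      refine hkR.trans ?_
      rw [← hR4]
      exact pow_le_pow_right₀ hR1 (by norm_num)
    have hlogk : Real.log X ≤ 2 * k + 2 := by
      have h1 : Real.log X ≤ Real.log ((2 : ℝ) ^ (2 * k + 2)) := by
        apply Real.log_le_log hX0
        exact_mod_cast hk3.le
      rw [Real.log_pow] at h1
      have h2 : Real.log 2 ≤ 1 := by
        have := Real.log_two_lt_d9
        linarith
      have h3 : ((2 * k + 2 : ℕ) : ℝ) * Real.log 2 ≤ ((2 * k + 2 : ℕ) : ℝ) * 1 :=
        mul_le_mul_of_nonneg_left h2 (by positivity)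
      push_cast at h1 h3
      linarith
    rcases Nat.eq_zero_or_pos k with hk0 | hkpos
    · -- small X
      refine ⟨k, 1, ?_, ?_, hKk⟩
      · intro b _
        rw [hk0]
        simp only [u]
        split_ifs <;> norm_num
      · have hl : Real.log X ≤ 4 := by
          rw [hk0] at hlogk
          push_cast at hlogk
          linarith
        have hsl : Real.sqrt (Real.log X) ≤ 2 := by
          rw [show (2 : ℝ) = Real.sqrt (2 ^ 2) by rw [Real.sqrt_sq (by norm_num)]]
          apply Real.sqrt_le_sqrt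
          linarith
        have hXY : (X : ℝ) ≤ 2 * Y := by
          rw [hY, mul_div_assoc', le_div_iff₀ hs0]
          nlinarith
        nlinarith
    · have hk1 : (1 : ℝ) ≤ k := by exact_mod_cast hkpos
      have hk0' : (0 : ℝ) < k := by linarith
      refine ⟨k, C * (4 / Real.sqrt (Real.log X)), ?_, ?_, hKk⟩
      · intro b hb
        have h1 := hrate 1 b k hkpos
        refine h1.trans (mul_le_mul_of_nonneg_left ?_ hC.le)
        rw [show (4 : ℝ) / Real.sqrt (Real.log X) = Real.sqrt (16 / Real.log X) by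
          rw [Real.sqrt_div' _ hlog.le, show (16 : ℝ) = 4 ^ 2 by norm_num, Real.sqrt_sq (by norm_num)]]
        apply Real.sqrt_le_sqrt
        have hb' : |(b : ℝ)| ≤ 3 := by
          rw [← Int.cast_abs]
          exact_mod_cast hb
        have hl4 : Real.log (1 + |(b : ℝ)|) ≤ 2 := by
          have h2 : Real.log (1 + |(b : ℝ)|) ≤ Real.log (2 ^ 2) := by
            apply Real.log_le_log (by positivity)
            linarith
          rw [Real.log_pow] at h2
          have := Real.log_two_lt_d9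
          push_cast at h2
          linarith
        rw [div_le_div_iff₀ hk0' hlog]
        have h5 : (1 + ((1 : ℕ) : ℝ) ^ 2 + Real.log (1 + |(b : ℝ)|)) ≤ 4 := by
          push_cast
          linarith
        calc (1 + ((1 : ℕ) : ℝ) ^ 2 + Real.log (1 + |(b : ℝ)|)) * Real.log X ≤ 4 * (4 * k) := by
              apply mul_le_mul h5 (by linarith) hlog.le (by norm_num)
          _ = 16 * k := by ring
      · have h1 : ((X : ℝ) + 2 ^ k) * (C * (4 / Real.sqrt (Real.log X))) ≤
            (2 * X) * (C * (4 / Real.sqrt (Real.log X))) := by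
          apply mul_le_mul_of_nonneg_right _ (by positivity)
          linarith
        have h2 : (2 * X) * (C * (4 / Real.sqrt (Real.log X))) = 8 * C * Y := by
          rw [hY]
          ring
        rw [h2] at h1
        nlinarith
  obtain ⟨k, U, hU, hUX, hKk⟩ := key
  obtain ⟨c1, c2⟩ := stp_counts hF hσ hI X k hU
  have hKR : (K : ℝ) ≤ R ^ 3 := hK.trans hRR
  have hYX : Y / X = 1 / Real.sqrt (Real.log X) := by
    rw [hY]
    field_simp
  constructor
  · have e : Fr σ A (2 * X) - Fr σ A X = ((N σ A (2 * X) 1 0 : ℝ) - 2 * N σ A X 1 0) / (2 * X) := by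
      unfold Fr
      push_cast
      field_simp
    rw [e, abs_div, abs_of_pos (by positivity : (0 : ℝ) < 2 * X), div_le_div_iff₀ (by positivity) hs0]
    have h1 : |(N σ A (2 * X) 1 0 : ℝ) - 2 * N σ A X 1 0| ≤ (16 * C + 8) * Y + 2 * Y + 4 * Y + 4 * Y + 2 * Y := by
      linarith
    have h2 : |(N σ A (2 * X) 1 0 : ℝ) - 2 * N σ A X 1 0| * Real.sqrt (Real.log X) ≤
        ((16 * C + 8) * Y + 2 * Y + 4 * Y + 4 * Y + 2 * Y) * Real.sqrt (Real.log X) :=
      mul_le_mul_of_nonneg_right h1 hs0.le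
    have h3 : Y * Real.sqrt (Real.log X) = X := by
      rw [hY]
      field_simp
    have h4 : ((16 * C + 8) * Y + 2 * Y + 4 * Y + 4 * Y + 2 * Y) * Real.sqrt (Real.log X) =
        (16 * C + 20) * (Y * Real.sqrt (Real.log X)) := by ring
    rw [h4, h3] at h2
    nlinarith
  · have e : Fr σ A (3 * X) - Fr σ A X = ((N σ A (3 * X) 1 0 : ℝ) - 3 * N σ A X 1 0) / (3 * X) := by
      unfold Fr
      push_cast
      field_simp
    rw [e, abs_div, abs_of_pos (by positivity : (0 : ℝ) < 3 * X), div_le_div_iff₀ (by positivity) hs0]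
    have h1 : |(N σ A (3 * X) 1 0 : ℝ) - 3 * N σ A X 1 0| ≤ 3 * ((16 * C + 8) * Y + 2 * Y + 4 * Y) + 6 * Y := by
      linarith
    have h2 : |(N σ A (3 * X) 1 0 : ℝ) - 3 * N σ A X 1 0| * Real.sqrt (Real.log X) ≤
        (3 * ((16 * C + 8) * Y + 2 * Y + 4 * Y) + 6 * Y) * Real.sqrt (Real.log X) :=
      mul_le_mul_of_nonneg_right h1 hs0.le
    have h3 : Y * Real.sqrt (Real.log X) = X := by
      rw [hY]
      field_simp
    have h4 : (3 * ((16 * C + 8) * Y + 2 * Y + 4 * Y) + 6 * Y) * Real.sqrt (Real.log X) =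
        (48 * C + 48) * (Y * Real.sqrt (Real.log X)) := by ring
    rw [h4, h3] at h2
    nlinarith

end Pool.Agent.RTE
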