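import Pool.Agent.RTE.St

/-!
RTE, module SLV (helper37): slow variation of the proportion with a rate, from the steps `X → 2 X`,
`X → 3 X` and the net of the numbers `i log 2 - j log 3`.
-/

set_option autoImplicit false

namespace Pool.Agent.RTE

open Finset
open Pool.Agent.SLD (N EvInv T)

open Classical in
private theorem SLV_N {σ : ℤ} (hσ : σ = 1 ∨ σ = -1) (A : Set ℤ) (X : ℕ) :
    N σ A X 1 0 = ((Icc 1 X).filter (fun m : ℕ => σ * (m : ℤ) ∈ A)).card := by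
  have hs : σ * σ = 1 := by rcases hσ with rfl | rfl <;> norm_num
  have h1 : {n : ℤ | 1 ≤ σ * n ∧ σ * n ≤ X ∧ ((1 : ℕ) : ℤ) ∣ n - 0 ∧ n ∈ A} =
      (fun m : ℕ => σ * (m : ℤ)) ''
        (((Icc 1 X).filter (fun m : ℕ => σ * (m : ℤ) ∈ A) : Finset ℕ) : Set ℕ) := by
    ext n
    constructor
    · rintro ⟨a, b, -, c⟩
      have e : σ * (((σ * n).toNat : ℕ) : ℤ) = n := by
        rw [Int.toNat_of_nonneg (by omega), ← mul_assoc, hs, one_mul]
      refine ⟨(σ * n).toNat, ?_, e⟩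
      rw [Finset.mem_coe, Finset.mem_filter, Finset.mem_Icc, e]
      exact ⟨⟨by omega, by omega⟩, c⟩
    · rintro ⟨m, hm, rfl⟩
      rw [Finset.mem_coe, Finset.mem_filter, Finset.mem_Icc] at hm
      obtain ⟨⟨a, b⟩, c⟩ := hm
      have e : σ * (σ * (m : ℤ)) = m := by rw [← mul_assoc, hs, one_mul]
      refine ⟨?_, ?_, ?_, c⟩
      · show 1 ≤ σ * (σ * (m : ℤ))
        rw [e]; exact_mod_cast a
      · show σ * (σ * (m : ℤ)) ≤ X
        rw [e]; exact_mod_cast b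
      · rw [Nat.cast_one]; exact one_dvd _
  have h0 : σ ≠ 0 := by rcases hσ with rfl | rfl <;> norm_num
  unfold N
  rw [h1, Set.ncard_image_of_injective, Set.ncard_coe_finset]
  intro a b hab
  have := mul_left_cancel₀ h0 hab
  exact_mod_cast this

private theorem SLV_mono {σ : ℤ} (hσ : σ = 1 ∨ σ = -1) (A : Set ℤ) {X Y : ℕ} (h : X ≤ Y) :
    N σ A X 1 0 ≤ N σ A Y 1 0 ∧ N σ A Y 1 0 ≤ N σ A X 1 0 + (Y - X) ∧ N σ A X 1 0 ≤ X := by
  classical
  rw [SLV_N hσ, SLV_N hσ]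
  refine ⟨card_le_card (filter_subset_filter _ (Icc_subset_Icc le_rfl h)), ?_, ?_⟩
  · have h1 : (Icc 1 Y).filter (fun m : ℕ => σ * (m : ℤ) ∈ A) ⊆
        (Icc 1 X).filter (fun m : ℕ => σ * (m : ℤ) ∈ A) ∪ Ioc X Y := by
      intro m hm
      rw [mem_filter, mem_Icc] at hm
      rw [mem_union, mem_filter, mem_Icc, mem_Ioc]
      by_cases h2 : m ≤ X
      · exact Or.inl ⟨⟨hm.1.1, h2⟩, hm.2⟩
      · exact Or.inr ⟨by omega, hm.1.2⟩
    refine (card_le_card h1).trans ((card_union_le _ _).trans ?_)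
    rw [Nat.card_Ioc]
  · refine (card_filter_le _ _).trans ?_
    rw [Nat.card_Icc]
    omega

private theorem SLV_lip {σ : ℤ} (hσ : σ = 1 ∨ σ = -1) (A : Set ℤ) {X Y : ℕ} (hX : 1 ≤ X)
    (h : X ≤ Y) : |Fr σ A Y - Fr σ A X| ≤ ((Y : ℝ) - X) / Y := by
  obtain ⟨h1, h2, h3⟩ := SLV_mono hσ A h
  have hx : (0 : ℝ) < X := by exact_mod_cast hX
  have hxy : (X : ℝ) ≤ Y := by exact_mod_cast h
  have hy : (0 : ℝ) < Y := lt_of_lt_of_le hx hxy
  have a1 : (N σ A X 1 0 : ℝ) ≤ N σ A Y 1 0 := by exact_mod_cast h1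
  have a2 : (N σ A Y 1 0 : ℝ) ≤ N σ A X 1 0 + ((Y : ℝ) - X) := by
    have h4 : ((N σ A Y 1 0 : ℕ) : ℝ) ≤ ((N σ A X 1 0 + (Y - X) : ℕ) : ℝ) := by exact_mod_cast h2
    rw [Nat.cast_add, Nat.cast_sub h] at h4
    exact h4
  have a3 : (N σ A X 1 0 : ℝ) ≤ X := by exact_mod_cast h3
  have a4 : (0 : ℝ) ≤ N σ A X 1 0 := Nat.cast_nonneg _
  unfold Fr
  generalize (N σ A X 1 0 : ℝ) = a at a1 a2 a3 a4 ⊢
  generalize (N σ A Y 1 0 : ℝ) = b at a1 a2 ⊢
  have e : b / Y - a / X = ((b - a) - a * ((Y : ℝ) - X) / X) / Y := by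
    field_simp
    ring
  rw [e, abs_div, abs_of_pos hy]
  apply div_le_div_of_nonneg_right _ hy.le
  have h5 : 0 ≤ a * ((Y : ℝ) - X) / X := div_nonneg (mul_nonneg a4 (sub_nonneg.2 hxy)) hx.le
  have h6 : a * ((Y : ℝ) - X) / X ≤ Y - X := by
    rw [div_le_iff₀ hx]
    nlinarith
  rw [abs_le]
  constructor <;> linarith

private theorem SLV_lip2 {σ : ℤ} (hσ : σ = 1 ∨ σ = -1) (A : Set ℤ) {X Y : ℕ} (hX : 1 ≤ X)
    (hY : 1 ≤ Y) : |Fr σ A Y - Fr σ A X| ≤ |(Y : ℝ) - X| / X := by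
  have hx : (0 : ℝ) < X := by exact_mod_cast hX
  have hy : (0 : ℝ) < Y := by exact_mod_cast hY
  rcases le_total X Y with h | h
  · have hxy : (X : ℝ) ≤ Y := by exact_mod_cast h
    refine (SLV_lip hσ A hX h).trans ?_
    rw [abs_of_nonneg (sub_nonneg.2 hxy)]
    exact div_le_div_of_nonneg_left (sub_nonneg.2 hxy) hx hxy
  · have hxy : (Y : ℝ) ≤ X := by exact_mod_cast h
    rw [abs_sub_comm, abs_sub_comm (Y : ℝ) X, abs_of_nonneg (sub_nonneg.2 hxy)]
    exact SLV_lip hσ A hY h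

private theorem SLV_anti {C : ℝ} (hC : 0 < C) {W Y : ℕ} (hW : 2 ≤ W) (h : W ≤ Y) :
    C / Real.sqrt (Real.log Y) ≤ C / Real.sqrt (Real.log W) ∧
      (W : ℝ) ^ ((1 : ℝ) / 4) ≤ (Y : ℝ) ^ ((1 : ℝ) / 4) := by
  have h1 : (2 : ℝ) ≤ W := by exact_mod_cast hW
  have h2 : (W : ℝ) ≤ Y := by exact_mod_cast h
  have h3 : 0 < Real.log W := Real.log_pos (by linarith)
  refine ⟨div_le_div_of_nonneg_left hC.le (Real.sqrt_pos.2 h3)
    (Real.sqrt_le_sqrt (Real.log_le_log (by linarith) h2)),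
    Real.rpow_le_rpow (by linarith) h2 (by norm_num)⟩

private theorem SLV_up {σ : ℤ} {A : Set ℤ} {K : ℕ} {C : ℝ} (hC : 0 < C)
    (hst : ∀ X : ℕ, 2 ≤ X → (K : ℝ) ≤ (X : ℝ) ^ ((1 : ℝ) / 4) →
      |Fr σ A (2 * X) - Fr σ A X| ≤ C / Real.sqrt (Real.log X) ∧
      |Fr σ A (3 * X) - Fr σ A X| ≤ C / Real.sqrt (Real.log X))
    {X : ℕ} (hX : 2 ≤ X) (hK : (K : ℝ) ≤ (X : ℝ) ^ ((1 : ℝ) / 4)) (i : ℕ) :
    |Fr σ A (2 ^ i * X) - Fr σ A X| ≤ i * (C / Real.sqrt (Real.log X)) := by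
  induction i with
  | zero => simp
  | succ i ih =>
    have h1 : X ≤ 2 ^ i * X := Nat.le_mul_of_pos_left X (by positivity)
    obtain ⟨h2, h3⟩ := SLV_anti hC hX h1
    have h4 := (hst (2 ^ i * X) (hX.trans h1) (hK.trans h3)).1
    have h5 : 2 ^ (i + 1) * X = 2 * (2 ^ i * X) := by ring
    rw [h5]
    have h6 := abs_sub_le (Fr σ A (2 * (2 ^ i * X))) (Fr σ A (2 ^ i * X)) (Fr σ A X)
    push_cast
    linarith [h4.trans h2]

private theorem SLV_down {σ : ℤ} (hσ : σ = 1 ∨ σ = -1) {A : Set ℤ} {K : ℕ} {C : ℝ} (hC : 0 < C)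
    (hst : ∀ X : ℕ, 2 ≤ X → (K : ℝ) ≤ (X : ℝ) ^ ((1 : ℝ) / 4) →
      |Fr σ A (2 * X) - Fr σ A X| ≤ C / Real.sqrt (Real.log X) ∧
      |Fr σ A (3 * X) - Fr σ A X| ≤ C / Real.sqrt (Real.log X))
    {Z W : ℕ} (hW : 2 ≤ W) (hK : (K : ℝ) ≤ (W : ℝ) ^ ((1 : ℝ) / 4)) (j : ℕ)
    (hj : W ≤ Z / 3 ^ j) :
    |Fr σ A (Z / 3 ^ j) - Fr σ A Z| ≤ j * (C / Real.sqrt (Real.log W) + 2 / W) := by
  induction j with
  | zero => simp
  | succ j ih =>
    obtain ⟨Y, hY⟩ : ∃ Y, Y = Z / 3 ^ j := ⟨_, rfl⟩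
    have e : Z / 3 ^ (j + 1) = Y / 3 := by
      rw [hY, Nat.div_div_eq_div_mul, pow_succ]
    rw [← hY] at ih
    rw [e] at hj ⊢
    have hYW : W ≤ Y := hj.trans (Nat.div_le_self _ _)
    have hW0 : (0 : ℝ) < W := by
      have : 0 < W := by omega
      exact_mod_cast this
    have hWY : (W : ℝ) ≤ Y := by exact_mod_cast hYW
    obtain ⟨h2, h3⟩ := SLV_anti hC hW hj
    have h4 := (hst (Y / 3) (hW.trans hj) (hK.trans h3)).2
    have h5 : 3 * (Y / 3) ≤ Y := by omega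
    have h6 := SLV_lip hσ A (X := 3 * (Y / 3)) (Y := Y) (by omega) h5
    have h7 : ((Y : ℝ) - ((3 * (Y / 3) : ℕ) : ℝ)) / Y ≤ 2 / W := by
      have h8 : (Y : ℝ) - ((3 * (Y / 3) : ℕ) : ℝ) ≤ 2 := by
        have : Y ≤ 3 * (Y / 3) + 2 := by omega
        have : (Y : ℝ) ≤ ((3 * (Y / 3) + 2 : ℕ) : ℝ) := by exact_mod_cast this
        rw [Nat.cast_add] at this
        push_cast at this ⊢
        linarith
      refine (div_le_div_of_nonneg_right h8 (hW0.le.trans hWY)).trans ?_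
      exact div_le_div_of_nonneg_left (by norm_num) hW0 hWY
    have h9 := ih hYW
    have a1 := abs_sub_le (Fr σ A (Y / 3)) (Fr σ A (3 * (Y / 3))) (Fr σ A Z)
    have a2 := abs_sub_le (Fr σ A (3 * (Y / 3))) (Fr σ A Y) (Fr σ A Z)
    rw [abs_sub_comm (Fr σ A (Y / 3)) (Fr σ A (3 * (Y / 3)))] at a1
    rw [abs_sub_comm (Fr σ A (3 * (Y / 3))) (Fr σ A Y)] at a2
    push_cast
    linarith [h4.trans h2, h6.trans h7]

/-- **slow variation with a rate** -/
theorem thm_SLV (hnet : St_NET) (hstp : St_STP) : St_SLV := by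
  obtain ⟨C1, κ, hC1, hnet⟩ := hnet
  obtain ⟨C0, hC0, hstp⟩ := hstp
  refine ⟨((4 * (κ + 1) : ℕ) : ℝ)⁻¹, 1 / 8, C1 * (3 * C0 + 2) + 11, by positivity, by norm_num,
    by positivity, ?_⟩
  intro σ K A X X' hσ hA hX hK hXX' hX'3
  have hXr : (2 : ℝ) ≤ X := by exact_mod_cast hX
  have hX0 : (0 : ℝ) < X := by linarith
  have hXX'r : (X : ℝ) ≤ X' := by exact_mod_cast hXX'
  have hX'0 : (0 : ℝ) < X' := by linarith
  have hX'3r : (X' : ℝ) ≤ 3 * X := by exact_mod_cast hX'3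
  obtain ⟨l, hl⟩ : ∃ l, l = Real.log X := ⟨_, rfl⟩
  have hl0 : 0 < l := by rw [hl]; exact Real.log_pos (by linarith)
  rw [← hl]
  obtain ⟨u, hu⟩ : ∃ u, u = l ^ ((4 * (κ + 1) : ℕ) : ℝ)⁻¹ := ⟨_, rfl⟩
  have hu0 : 0 < u := by rw [hu]; exact Real.rpow_pos_of_pos hl0 _
  have hupow : u ^ (4 * (κ + 1)) = l := by
    rw [hu]; exact Real.rpow_inv_natCast_pow hl0.le (by omega)
  rw [← hu]
  have hst := fun Y h1 h2 => hstp σ K A Y hσ hA h1 h2
  by_cases hu2 : u < 2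
  · refine (SLV_lip hσ A (by omega : 1 ≤ X) hXX').trans ?_
    have h2 : ((X' : ℝ) - X) / X' ≤ 1 := by
      rw [div_le_one hX'0]; linarith
    refine h2.trans ?_
    rw [le_div_iff₀ hu0]
    nlinarith [mul_pos hC1 hC0]
  · rw [not_lt] at hu2
    -- size of `l` and `X`
    have hu1 : 1 ≤ u := by linarith
    have hl16 : 16 ≤ l := by
      rw [← hupow]
      calc (16 : ℝ) = 2 ^ 4 := by norm_num
        _ ≤ u ^ 4 := pow_le_pow_left₀ (by norm_num) hu2 4
        _ ≤ u ^ (4 * (κ + 1)) := pow_le_pow_right₀ hu1 (by omega)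
    have hlX : l ≤ X := by
      rw [hl]
      have := Real.log_le_sub_one_of_pos hX0
      linarith
    have hsq : Real.sqrt l = u ^ (2 * (κ + 1)) := by
      rw [← hupow, show 4 * (κ + 1) = 2 * (κ + 1) * 2 by ring, pow_mul]
      exact Real.sqrt_sq (by positivity)
    have hsl0 : 0 < Real.sqrt l := Real.sqrt_pos.2 hl0
    -- the net
    obtain ⟨Q, hQ⟩ : ∃ Q, Q = ⌊u⌋₊ := ⟨_, rfl⟩
    have hQu : (Q : ℝ) ≤ u := by rw [hQ]; exact Nat.floor_le hu0.le
    have hQ2 : 2 ≤ Q := by rw [hQ]; exact Nat.le_floor (by exact_mod_cast hu2)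
    have hQ2r : (2 : ℝ) ≤ Q := by exact_mod_cast hQ2
    have hQl : u / 2 ≤ Q := by
      have := Nat.lt_floor_add_one u
      rw [← hQ] at this
      linarith
    obtain ⟨i, j, hi, hj, hij⟩ := hnet Q (Real.log X' - l) (by omega)
      (by rw [hl]; exact sub_nonneg.2 (Real.log_le_log hX0 hXX'r))
      (by
        rw [hl, sub_le_iff_le_add, ← Real.log_mul (by norm_num) hX0.ne']
        exact Real.log_le_log hX'0 hX'3r)
    -- the point `y`
    obtain ⟨y, hy⟩ : ∃ y : ℝ, y = 2 ^ i * X / 3 ^ j := ⟨_, rfl⟩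
    have hy0 : 0 < y := by rw [hy]; positivity
    have hlogy : Real.log y = i * Real.log 2 + l - j * Real.log 3 := by
      rw [hy, Real.log_div (by positivity) (by positivity), Real.log_mul (by positivity) hX0.ne',
        Real.log_pow, Real.log_pow, hl]
    obtain ⟨v, hv⟩ : ∃ v, v = Real.log y - Real.log X' := ⟨_, rfl⟩
    have hv1 : |v| ≤ 2 / Q := by
      rw [hv, hlogy]
      refine le_trans (le_of_eq ?_) hij
      congr 1
      ring
    have h2Q : (2 : ℝ) / Q ≤ 1 := by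
      rw [div_le_one (by linarith)]; exact hQ2r
    have hyv : y = X' * Real.exp v := by
      rw [hv, Real.exp_sub, Real.exp_log hy0, Real.exp_log hX'0]
      field_simp
    have hyX' : |y - X'| ≤ 4 * X' / Q := by
      have h1 := Real.abs_exp_sub_one_le (hv1.trans h2Q)
      have h2 : y - X' = X' * (Real.exp v - 1) := by rw [hyv]; ring
      rw [h2, abs_mul, abs_of_pos hX'0]
      calc (X' : ℝ) * |Real.exp v - 1| ≤ X' * (2 * (2 / Q)) :=
            mul_le_mul_of_nonneg_left (h1.trans (by linarith)) hX'0.le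
        _ = 4 * X' / Q := by ring
    have hy3 : (X : ℝ) / 3 ≤ y := by
      have h1 : Real.exp (-1) ≤ Real.exp v := by
        apply Real.exp_le_exp.2
        have := (abs_le.1 (hv1.trans h2Q)).1
        exact this
      have h2 : (1 : ℝ) / 3 ≤ Real.exp (-1) := by
        rw [Real.exp_neg, one_div]
        apply inv_anti₀ (Real.exp_pos _)
        have := Real.exp_one_lt_d9
        linarith
      rw [hyv]
      nlinarith [h2.trans h1]
    -- the last point of the walk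
    obtain ⟨Z, hZ⟩ : ∃ Z, Z = 2 ^ i * X := ⟨_, rfl⟩
    obtain ⟨W, hW⟩ : ∃ W, W = Z / 3 ^ j := ⟨_, rfl⟩
    have h3j : (0 : ℝ) < (3 : ℝ) ^ j := by positivity
    have hWy1 : (W : ℝ) ≤ y := by
      have h1 : ((Z / 3 ^ j : ℕ) : ℝ) ≤ (Z : ℝ) / ((3 ^ j : ℕ) : ℝ) := Nat.cast_div_le
      rw [← hW, hZ] at h1
      push_cast at h1
      rw [hy]
      exact h1
    have hWy2 : y - 1 ≤ W := by
      have h1 : Z < 3 ^ j * (Z / 3 ^ j + 1) := Nat.lt_mul_div_succ Z (by positivity)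
      rw [← hW, hZ] at h1
      have h2 : (2 : ℝ) ^ i * X < 3 ^ j * ((W : ℝ) + 1) := by exact_mod_cast h1
      rw [hy, sub_le_iff_le_add, div_le_iff₀ h3j]
      linarith
    have hsX : Real.sqrt X ≤ W := by
      have h1 : Real.sqrt X * Real.sqrt X = X := Real.mul_self_sqrt hX0.le
      have h2 : 4 ≤ Real.sqrt X := by
        apply Real.le_sqrt_of_sq_le
        linarith
      nlinarith
    have hsX0 : 0 < Real.sqrt X := Real.sqrt_pos.2 hX0
    have hW0 : (0 : ℝ) < W := lt_of_lt_of_le hsX0 hsX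
    have hW2 : 2 ≤ W := by
      have h2 : 4 ≤ Real.sqrt X := by
        apply Real.le_sqrt_of_sq_le
        linarith
      have : (2 : ℝ) ≤ W := by linarith
      exact_mod_cast this
    have hlogW : l / 2 ≤ Real.log W := by
      have h1 := Real.log_le_log hsX0 hsX
      rw [Real.log_sqrt hX0.le, ← hl] at h1
      exact h1
    have hKX : (K : ℝ) ≤ (X : ℝ) ^ ((1 : ℝ) / 4) :=
      hK.trans (Real.rpow_le_rpow_of_exponent_le (by linarith) (by norm_num))
    have hKW : (K : ℝ) ≤ (W : ℝ) ^ ((1 : ℝ) / 4) := by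
      refine hK.trans ?_
      have h1 : (X : ℝ) ^ ((1 : ℝ) / 8) = (Real.sqrt X) ^ ((1 : ℝ) / 4) := by
        rw [Real.sqrt_eq_rpow, ← Real.rpow_mul hX0.le]
        norm_num
      rw [h1]
      exact Real.rpow_le_rpow hsX0.le hsX (by norm_num)
    -- the three parts
    have p1 := SLV_up hC0 hst hX hKX i
    have p2 := SLV_down hσ hC0 hst hW2 hKW (Z := Z) j (le_of_eq hW)
    have p3 := SLV_lip2 hσ A (X := X') (Y := W) (by omega) (by omega)
    rw [← hZ] at p1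
    rw [← hW] at p2
    rw [← hl] at p1
    have q3 : |(W : ℝ) - X'| / X' ≤ 1 / Real.sqrt l + 4 / Q := by
      have h1 : |(W : ℝ) - X'| ≤ 1 + 4 * X' / Q := by
        have h2 := abs_sub_le (W : ℝ) y X'
        have h3 : |(W : ℝ) - y| ≤ 1 := by
          rw [abs_le]; constructor <;> linarith
        linarith
      have h4 : (1 + 4 * (X' : ℝ) / Q) / X' = 1 / X' + 4 / Q := by
        have : (Q : ℝ) ≠ 0 := by positivity
        field_simp
      refine (div_le_div_of_nonneg_right h1 hX'0.le).trans ?_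
      rw [h4]
      have h5 : (1 : ℝ) / X' ≤ 1 / Real.sqrt l := by
        apply div_le_div_of_nonneg_left (by norm_num) hsl0
        calc Real.sqrt l ≤ Real.sqrt (X * X) := Real.sqrt_le_sqrt (by nlinarith)
          _ = X := Real.sqrt_mul_self hX0.le
          _ ≤ X' := hXX'r
      linarith
    have q2 : C0 / Real.sqrt (Real.log W) + 2 / W ≤ (2 * C0 + 2) / Real.sqrt l := by
      have h1 : Real.sqrt l / 2 ≤ Real.sqrt (Real.log W) := by
        apply Real.le_sqrt_of_sq_le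
        rw [div_pow, Real.sq_sqrt hl0.le]
        linarith
      have h2 : C0 / Real.sqrt (Real.log W) ≤ 2 * C0 / Real.sqrt l := by
        refine (div_le_div_of_nonneg_left hC0.le (by positivity) h1).trans (le_of_eq ?_)
        field_simp
      have h3 : (2 : ℝ) / W ≤ 2 / Real.sqrt l := by
        apply div_le_div_of_nonneg_left (by norm_num) hsl0
        exact (Real.sqrt_le_sqrt hlX).trans hsX
      have h4 : (2 * C0 + 2) / Real.sqrt l = 2 * C0 / Real.sqrt l + 2 / Real.sqrt l := by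
        rw [add_div]
      linarith
    -- collect
    have t1 := abs_sub_le (Fr σ A X') (Fr σ A W) (Fr σ A X)
    have t2 := abs_sub_le (Fr σ A W) (Fr σ A Z) (Fr σ A X)
    rw [abs_sub_comm (Fr σ A X') (Fr σ A W)] at t1
    have hQk : (Q : ℝ) ^ κ ≤ u ^ κ := pow_le_pow_left₀ (by linarith) hQu κ
    have hi' : (i : ℝ) ≤ C1 * u ^ κ := hi.trans (mul_le_mul_of_nonneg_left hQk hC1.le)
    have hj' : (j : ℝ) ≤ C1 * u ^ κ := hj.trans (mul_le_mul_of_nonneg_left hQk hC1.le)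
    have hud : u ^ κ / Real.sqrt l ≤ 1 / u := by
      rw [hsq, div_le_div_iff₀ (by positivity) hu0, one_mul, ← pow_succ]
      exact pow_le_pow_right₀ hu1 (by omega)
    have h1d : 1 / Real.sqrt l ≤ 1 / u := by
      refine le_trans (div_le_div_of_nonneg_right ?_ hsl0.le) hud
      exact one_le_pow₀ hu1
    have hQd : (4 : ℝ) / Q ≤ 8 / u := by
      rw [div_le_div_iff₀ (by linarith) hu0]
      linarith
    have r1 : (i : ℝ) * (C0 / Real.sqrt l) ≤ C1 * C0 * (1 / u) := by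
      calc (i : ℝ) * (C0 / Real.sqrt l) ≤ (C1 * u ^ κ) * (C0 / Real.sqrt l) :=
            mul_le_mul_of_nonneg_right hi' (by positivity)
        _ = C1 * C0 * (u ^ κ / Real.sqrt l) := by ring
        _ ≤ C1 * C0 * (1 / u) := mul_le_mul_of_nonneg_left hud (by positivity)
    have r2 : (j : ℝ) * (C0 / Real.sqrt (Real.log W) + 2 / W) ≤ C1 * (2 * C0 + 2) * (1 / u) := by
      calc (j : ℝ) * (C0 / Real.sqrt (Real.log W) + 2 / W)
          ≤ (j : ℝ) * ((2 * C0 + 2) / Real.sqrt l) :=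
            mul_le_mul_of_nonneg_left q2 (Nat.cast_nonneg _)
        _ ≤ (C1 * u ^ κ) * ((2 * C0 + 2) / Real.sqrt l) :=
            mul_le_mul_of_nonneg_right hj' (by positivity)
        _ = C1 * (2 * C0 + 2) * (u ^ κ / Real.sqrt l) := by ring
        _ ≤ C1 * (2 * C0 + 2) * (1 / u) := mul_le_mul_of_nonneg_left hud (by positivity)
    have hfin : (C1 * (3 * C0 + 2) + 11) / u =
        C1 * C0 * (1 / u) + C1 * (2 * C0 + 2) * (1 / u) + 1 / u + 8 / u + 2 / u := by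
      field_simp
      ring
    rw [hfin]
    have h2u : 0 ≤ 2 / u := by positivity
    linarith [p3.trans q3]

end Pool.Agent.RTE
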