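import Pool.Agent.RTE.NET
import Pool.Agent.RTE.STP
import Pool.Agent.RTE.Slv
import Pool.Agent.RTE.Cns
import Pool.Agent.RTE.LSM
import Pool.Agent.RTE.LIM
import Pool.Agent.RTE.ALQ

/-! RTE, assembly: the rate of the natural density of invariant sets of the `3x+1` map. -/

set_option autoImplicit false

namespace Pool.Agent.RTE

theorem all_STP : St_STP := thm_STP Pool.Agent.SLD.thm_FWE
theorem all_SLV : St_SLV := thm_SLV thm_NET all_STP
theorem all_LSM : St_LSM := thm_LSM all_SLV
theorem all_LIM : St_LIM := thm_LIM all_SLV thm_CON all_LSM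
theorem all_ALQ : St_ALQ := thm_ALQ all_LIM

end Pool.Agent.RTE
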