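import Pool.Agent.RTE.LIM
import Pool.Agent.RTE.StX

/-!
RTE, module limx: the density with a rate, fixed exponent (helper57).
-/

set_option autoImplicit false

namespace Pool.Agent.RTE

open Finset Filter Topology
open Pool.Agent.SLD (N EvInv T)

theorem thm_limx : St_limx := by
  intro c hc hc1 hCON hLSM
  obtain ⟨δ1, C1, hδ1, hC1, h1⟩ := hCON
  obtain ⟨δ2, C2, hδ2, hC2, h2⟩ := hLSM
  have hl : 0 < Real.log (4 / 3) := Real.log_pos (by norm_num)
  have hl2 : 0 < Real.log 2 := Real.log_pos (by norm_num)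
  set a1 : ℝ := 1 / Real.log 2 ^ (1 - c) with ha1
  have ha1' : 0 < a1 := by positivity
  refine ⟨min δ1 δ2, (C1 * a1 + C2) / Real.log (4 / 3), lt_min hδ1 hδ2, by positivity, ?_⟩
  intro σ K A d X hσ hA hd hX hK
  have hX1 : (1 : ℝ) ≤ X := by exact_mod_cast (by omega : 1 ≤ X)
  have hlogX : Real.log 2 ≤ Real.log X :=
    Real.log_le_log (by norm_num) (by exact_mod_cast hX)
  have hlogX0 : 0 < Real.log X := lt_of_lt_of_le hl2 hlogX
  have hK1 : ∀ Y : ℕ, X ≤ Y → (K : ℝ) ≤ (Y : ℝ) ^ δ1 := by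
    intro Y hY
    have hXY : (X : ℝ) ≤ Y := by exact_mod_cast hY
    calc (K : ℝ) ≤ (X : ℝ) ^ min δ1 δ2 := hK
      _ ≤ (X : ℝ) ^ δ1 := Real.rpow_le_rpow_of_exponent_le hX1 (min_le_left _ _)
      _ ≤ (Y : ℝ) ^ δ1 := Real.rpow_le_rpow (by positivity) hXY hδ1.le
  have hK2 : ∀ Y : ℕ, X ≤ Y → (K : ℝ) ≤ (Y : ℝ) ^ δ2 := by
    intro Y hY
    have hXY : (X : ℝ) ≤ Y := by exact_mod_cast hY
    calc (K : ℝ) ≤ (X : ℝ) ^ min δ1 δ2 := hK
      _ ≤ (X : ℝ) ^ δ2 := Real.rpow_le_rpow_of_exponent_le hX1 (min_le_right _ _)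
      _ ≤ (Y : ℝ) ^ δ2 := Real.rpow_le_rpow (by positivity) hXY hδ2.le
  -- `Mq Y → - d log (4/3)`
  have hF : Tendsto (fun Y : ℕ => Fr σ A Y) atTop (𝓝 d) := hd
  have hlogT : Tendsto (fun Y : ℕ => Real.log (Y : ℝ)) atTop atTop :=
    Real.tendsto_log_atTop.comp tendsto_natCast_atTop_atTop
  have herr : Tendsto (fun Y : ℕ => C2 / Real.log (Y : ℝ) ^ c) atTop (𝓝 0) :=
    ((tendsto_rpow_atTop hc).comp hlogT).const_div_atTop C2
  have hsum : Tendsto (fun Y : ℕ => Mq σ A Y + Fr σ A Y * Real.log (4 / 3)) atTop (𝓝 0) := by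
    refine squeeze_zero_norm' ?_ herr
    filter_upwards [eventually_ge_atTop X] with Y hY
    exact h2 σ K A Y hσ hA (hX.trans hY) (hK2 Y hY)
  have hM : Tendsto (fun Y : ℕ => Mq σ A Y) atTop (𝓝 (0 - d * Real.log (4 / 3))) := by
    refine (hsum.sub (hF.mul_const (Real.log (4 / 3)))).congr fun Y => ?_
    ring
  have hlim : |(0 - d * Real.log (4 / 3)) - Mq σ A X| ≤ C1 / Real.log X := by
    refine le_of_tendsto ((hM.sub_const (Mq σ A X)).abs) ?_
    filter_upwards [eventually_ge_atTop X] with Y hY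
    exact h1 σ K A X Y hσ hA hX (hK1 X le_rfl) hY
  have hX2 := h2 σ K A X hσ hA hX (hK2 X le_rfl)
  have e1 : C1 / Real.log X ≤ C1 * a1 * (1 / Real.log X ^ c) := by
    have := LIM_pow hlogX hc1
    rw [Real.rpow_one] at this
    calc C1 / Real.log X = C1 * (1 / Real.log X) := by ring
      _ ≤ C1 * (a1 * (1 / Real.log X ^ c)) := mul_le_mul_of_nonneg_left this hC1.le
      _ = _ := by ring
  have e2 : C2 / Real.log X ^ c ≤ C2 * (1 / Real.log X ^ c) := by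
    rw [mul_one_div]
  have h5 : |(Fr σ A X - d) * Real.log (4 / 3)| ≤
      (C1 * a1 + C2) * (1 / Real.log X ^ c) := by
    have h6 : (Fr σ A X - d) * Real.log (4 / 3) =
        (Mq σ A X + Fr σ A X * Real.log (4 / 3)) + ((0 - d * Real.log (4 / 3)) - Mq σ A X) := by
      ring
    rw [h6]
    refine (abs_add_le _ _).trans ?_
    linarith
  rw [abs_mul, abs_of_pos hl] at h5
  have h7 : |Fr σ A X - d| ≤ ((C1 * a1 + C2) * (1 / Real.log X ^ c)) / Real.log (4 / 3) := by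
    rw [le_div_iff₀ hl]
    exact h5
  refine h7.trans (le_of_eq ?_)
  ring

end Pool.Agent.RTE
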