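import Pool.Agent.RTE.StX

/-!
RTE, module LSM (helper20): `Mq X = - F(X) log (4/3) + error`, from slow variation with a rate, by
summation by parts: `L (X + 1) - L X = F (X + 1) - F X + F X / (X + 1)`.
-/

set_option autoImplicit false

namespace Pool.Agent.RTE

open Finset Filter Topology
open Pool.Agent.SLD (N EvInv T)

open Classical in
/-- the indicator of `σ m ∈ A` -/
private noncomputable def lsx_ind (σ : ℤ) (A : Set ℤ) (m : ℕ) : ℝ := if σ * (m : ℤ) ∈ A then 1 else 0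

open Classical in
private theorem lsx_N (σ : ℤ) (hσ : σ = 1 ∨ σ = -1) (A : Set ℤ) (X : ℕ) :
    (N σ A X 1 0 : ℝ) = ∑ m ∈ Icc 1 X, lsx_ind σ A m := by
  have hinj : Function.Injective (fun m : ℕ => σ * (m : ℤ)) := by
    intro a b h
    have h' : σ * (a : ℤ) = σ * (b : ℤ) := h
    rcases hσ with rfl | rfl <;> omega
  have hset : {n : ℤ | 1 ≤ σ * n ∧ σ * n ≤ X ∧ ((1 : ℕ) : ℤ) ∣ n - 0 ∧ n ∈ A} =
      (fun m : ℕ => σ * (m : ℤ)) ''
        (↑((Icc 1 X).filter (fun m : ℕ => σ * (m : ℤ) ∈ A)) : Set ℕ) := by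
    ext n
    simp only [Set.mem_ofPred_eq, Set.mem_image, Finset.mem_coe, Finset.mem_filter, Finset.mem_Icc]
    constructor
    · rintro ⟨h1, h2, -, h4⟩
      refine ⟨(σ * n).toNat, ⟨⟨by omega, by omega⟩, ?_⟩, ?_⟩
      · rw [Int.toNat_of_nonneg (by omega)]
        rcases hσ with rfl | rfl <;> simpa using h4
      · rw [Int.toNat_of_nonneg (by omega)]
        rcases hσ with rfl | rfl <;> simp
    · rintro ⟨m, ⟨⟨h1, h2⟩, h3⟩, rfl⟩
      refine ⟨?_, ?_, by simp, h3⟩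
      · rcases hσ with rfl | rfl <;> omega
      · rcases hσ with rfl | rfl <;> omega
  unfold N
  rw [hset, Set.ncard_image_of_injective _ hinj, Set.ncard_coe_finset]
  unfold lsx_ind
  rw [Finset.sum_ite, Finset.sum_const_zero, add_zero, Finset.sum_const, nsmul_eq_mul, mul_one]

private theorem lsx_N_succ (σ : ℤ) (hσ : σ = 1 ∨ σ = -1) (A : Set ℤ) (X : ℕ) :
    (N σ A (X + 1) 1 0 : ℝ) = N σ A X 1 0 + lsx_ind σ A (X + 1) := by
  rw [lsx_N σ hσ, lsx_N σ hσ, Finset.sum_Icc_succ_top (by omega)]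

open Classical in
private theorem lsx_L_succ (σ : ℤ) (A : Set ℤ) (X : ℕ) :
    L σ A (X + 1) = L σ A X + lsx_ind σ A (X + 1) / ((X : ℝ) + 1) := by
  unfold L lsx_ind
  rw [Finset.sum_filter, Finset.sum_filter, Finset.sum_Icc_succ_top (by omega)]
  congr 1
  push_cast
  split_ifs <;> simp

private theorem lsx_step (σ : ℤ) (hσ : σ = 1 ∨ σ = -1) (A : Set ℤ) (X : ℕ) (hX : 1 ≤ X) :
    L σ A (X + 1) - L σ A X = Fr σ A (X + 1) - Fr σ A X + Fr σ A X * (1 / ((X : ℝ) + 1)) := by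
  rw [lsx_L_succ]
  unfold Fr
  rw [lsx_N_succ σ hσ]
  have h1 : (0 : ℝ) < X := by exact_mod_cast hX
  have h2 : (X : ℝ) + 1 ≠ 0 := by positivity
  have h3 : (X : ℝ) ≠ 0 := h1.ne'
  push_cast
  field_simp
  ring

/-- the harmonic numbers -/
private noncomputable def lsx_H (n : ℕ) : ℝ := (harmonic n : ℝ)

private theorem lsx_H_succ (n : ℕ) : lsx_H (n + 1) = lsx_H n + 1 / ((n : ℝ) + 1) := by
  unfold lsx_H
  rw [harmonic_succ]
  push_cast
  rw [one_div]

private theorem lsx_sum (σ : ℤ) (hσ : σ = 1 ∨ σ = -1) (A : Set ℤ) (Y : ℕ) (hY : 1 ≤ Y) (F₀ ε : ℝ) :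
    ∀ Z : ℕ, Y ≤ Z → (∀ m : ℕ, Y ≤ m → m < Z → |Fr σ A m - F₀| ≤ ε) →
      |L σ A Z - L σ A Y - (Fr σ A Z - Fr σ A Y) - F₀ * (lsx_H Z - lsx_H Y)| ≤
        ε * (lsx_H Z - lsx_H Y) := by
  intro Z hZ
  induction Z, hZ using Nat.le_induction with
  | base => intro _; simp
  | succ Z hZ ih =>
    intro h
    have h1 := ih fun m hm hm' => h m hm (by omega)
    have h2 := h Z hZ (by omega)
    have h3 := lsx_step σ hσ A Z (by omega)
    have h4 := lsx_H_succ Z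
    have h5 : (0 : ℝ) ≤ 1 / ((Z : ℝ) + 1) := by positivity
    have h6 : |(Fr σ A Z - F₀) * (1 / ((Z : ℝ) + 1))| ≤ ε * (1 / ((Z : ℝ) + 1)) := by
      rw [abs_mul, abs_of_nonneg h5]
      exact mul_le_mul_of_nonneg_right h2 h5
    have h7 : L σ A (Z + 1) - L σ A Y - (Fr σ A (Z + 1) - Fr σ A Y) - F₀ * (lsx_H (Z + 1) - lsx_H Y) =
        (L σ A Z - L σ A Y - (Fr σ A Z - Fr σ A Y) - F₀ * (lsx_H Z - lsx_H Y)) +
          (Fr σ A Z - F₀) * (1 / ((Z : ℝ) + 1)) := by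
      rw [h4]
      have h8 : L σ A (Z + 1) = L σ A Z + (Fr σ A (Z + 1) - Fr σ A Z +
          Fr σ A Z * (1 / ((Z : ℝ) + 1))) := by linarith
      rw [h8]
      ring
    rw [h7, h4]
    refine (abs_add_le _ _).trans ?_
    have h9 : ε * (lsx_H Z + 1 / ((Z : ℝ) + 1) - lsx_H Y) =
        ε * (lsx_H Z - lsx_H Y) + ε * (1 / ((Z : ℝ) + 1)) := by ring
    rw [h9]
    exact add_le_add h1 h6

private theorem lsx_gamma (n : ℕ) (hn : 1 ≤ n) :
    Real.log n + Real.eulerMascheroniConstant ≤ lsx_H n ∧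
      lsx_H n ≤ Real.log n + Real.eulerMascheroniConstant + 1 / (n : ℝ) := by
  have h1 := Real.eulerMascheroniSeq_lt_eulerMascheroniConstant n
  have h2 := Real.eulerMascheroniConstant_lt_eulerMascheroniSeq' n
  unfold Real.eulerMascheroniSeq at h1
  unfold Real.eulerMascheroniSeq' at h2
  rw [if_neg (by omega)] at h2
  have h3 : (0 : ℝ) < n := by exact_mod_cast hn
  have h4 : Real.log ((n : ℝ) + 1) ≤ Real.log n + 1 / (n : ℝ) := by
    have h5 : Real.log (((n : ℝ) + 1) / n) ≤ ((n : ℝ) + 1) / n - 1 :=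
      Real.log_le_sub_one_of_pos (by positivity)
    rw [Real.log_div (by positivity) h3.ne'] at h5
    have h6 : ((n : ℝ) + 1) / n - 1 = 1 / (n : ℝ) := by field_simp; ring
    linarith
  unfold lsx_H
  constructor <;> linarith

private theorem lsx_har (X : ℕ) (hX : 2 ≤ X) :
    |lsx_H (3 * X) - 2 * lsx_H (2 * X) + lsx_H X + Real.log (4 / 3)| ≤ 3 / (X : ℝ) ∧
      0 ≤ lsx_H (3 * X) - lsx_H (2 * X) ∧ lsx_H (3 * X) - lsx_H (2 * X) ≤ 1 ∧
      0 ≤ lsx_H (2 * X) - lsx_H X ∧ lsx_H (2 * X) - lsx_H X ≤ 1 := by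
  have hX0 : (0 : ℝ) < X := by
    have : 0 < X := by omega
    exact_mod_cast this
  have hX2 : (2 : ℝ) ≤ X := by exact_mod_cast hX
  have h1 := lsx_gamma X (by omega)
  have h2 := lsx_gamma (2 * X) (by omega)
  have h3 := lsx_gamma (3 * X) (by omega)
  push_cast at h2 h3
  rw [Real.log_mul (by norm_num) hX0.ne'] at h2 h3
  have h4 : Real.log (4 / 3) = 2 * Real.log 2 - Real.log 3 := by
    rw [Real.log_div (by norm_num) (by norm_num)]
    have : (4 : ℝ) = 2 ^ 2 := by norm_num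
    rw [this, Real.log_pow]
    norm_num
  have h5 : Real.log (3 / 2) = Real.log 3 - Real.log 2 := by
    rw [Real.log_div (by norm_num) (by norm_num)]
  have h6 : Real.log (3 / 2) ≤ 3 / 2 - 1 := Real.log_le_sub_one_of_pos (by norm_num)
  have h7 : 1 - (3 / 2 : ℝ)⁻¹ ≤ Real.log (3 / 2) := Real.one_sub_inv_le_log_of_pos (by norm_num)
  have h8 := Real.log_two_lt_d9
  have h9 := Real.log_two_gt_d9
  set u : ℝ := 1 / (X : ℝ) with hu
  have hu0 : 0 < u := by positivity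
  have hu2 : u ≤ 1 / 2 := by
    rw [hu]; exact one_div_le_one_div_of_le (by norm_num) hX2
  have e2 : 1 / (2 * (X : ℝ)) = u / 2 := by rw [hu]; field_simp
  have e3 : 1 / (3 * (X : ℝ)) = u / 3 := by rw [hu]; field_simp
  have e4 : 3 / (X : ℝ) = 3 * u := by rw [hu]; field_simp
  rw [e2] at h2
  rw [e3] at h3
  rw [e4]
  obtain ⟨h1a, h1b⟩ := h1
  obtain ⟨h2a, h2b⟩ := h2
  obtain ⟨h3a, h3b⟩ := h3
  refine ⟨?_, ?_, ?_, ?_, ?_⟩
  · rw [abs_le]
    constructor <;> linarith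
  · norm_num at h7
    linarith
  · linarith
  · linarith
  · linarith

theorem thm_lsmx : St_lsmx := by
  intro c hc _ hS
  obtain ⟨δ, C, hδ, hC, h⟩ := hS
  set c' : ℝ := c ^ c with hc'
  have hc'0 : 0 < c' := Real.rpow_pos_of_pos hc c
  refine ⟨δ, 5 * C + 3 * c', hδ, by positivity, ?_⟩
  intro σ K A X hσ hA hX hK
  have hX0 : (0 : ℝ) < X := by
    have : 0 < X := by omega
    exact_mod_cast this
  have hX1 : (1 : ℝ) < X := by
    have : 1 < X := by omega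
    exact_mod_cast this
  have hlog : 0 < Real.log X := Real.log_pos hX1
  have hlc : 0 < Real.log X ^ c := Real.rpow_pos_of_pos hlog c
  set ε : ℝ := C / Real.log X ^ c with hε
  have hε0 : 0 < ε := by positivity
  have hF : ∀ m : ℕ, X ≤ m → m ≤ 3 * X → |Fr σ A m - Fr σ A X| ≤ ε := fun m h1 h2 =>
    h σ K A X m hσ hA hX hK h1 h2
  obtain ⟨g1, g2, g3, g4, g5⟩ := lsx_har X hX
  have h1 := lsx_sum σ hσ A (2 * X) (by omega) (Fr σ A X) ε (3 * X) (by omega)
    fun m hm hm' => hF m (by omega) (by omega)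
  have h2 := lsx_sum σ hσ A X (by omega) (Fr σ A X) ε (2 * X) (by omega)
    fun m hm hm' => hF m (by omega) (by omega)
  have h3 := hF (2 * X) (by omega) (by omega)
  have h4 := hF (3 * X) (by omega) (by omega)
  have hN : (N σ A X 1 0 : ℝ) ≤ X := by
    rw [lsx_N σ hσ]
    calc ∑ m ∈ Icc 1 X, lsx_ind σ A m ≤ ∑ m ∈ Icc 1 X, (1 : ℝ) := by
          refine Finset.sum_le_sum fun m _ => ?_
          unfold lsx_ind
          split_ifs <;> norm_num
      _ = X := by simp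
  have hF0 : 0 ≤ Fr σ A X := by unfold Fr; positivity
  have hF1 : Fr σ A X ≤ 1 := by unfold Fr; exact (div_le_one hX0).2 hN
  have hmain : |Mq σ A X + Fr σ A X * Real.log (4 / 3)| ≤ 5 * ε + 3 / (X : ℝ) := by
    have e1 : Mq σ A X + Fr σ A X * Real.log (4 / 3) =
        (L σ A (3 * X) - L σ A (2 * X) - (Fr σ A (3 * X) - Fr σ A (2 * X)) -
          Fr σ A X * (lsx_H (3 * X) - lsx_H (2 * X))) -
        (L σ A (2 * X) - L σ A X - (Fr σ A (2 * X) - Fr σ A X) -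
          Fr σ A X * (lsx_H (2 * X) - lsx_H X)) +
        (Fr σ A (3 * X) - Fr σ A X) - 2 * (Fr σ A (2 * X) - Fr σ A X) +
        Fr σ A X * (lsx_H (3 * X) - 2 * lsx_H (2 * X) + lsx_H X + Real.log (4 / 3)) := by
      unfold Mq
      ring
    have e2 : |Fr σ A X * (lsx_H (3 * X) - 2 * lsx_H (2 * X) + lsx_H X + Real.log (4 / 3))| ≤
        3 / (X : ℝ) := by
      rw [abs_mul, abs_of_nonneg hF0]
      calc _ ≤ 1 * (3 / (X : ℝ)) := mul_le_mul hF1 g1 (abs_nonneg _) (by norm_num)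
        _ = _ := one_mul _
    have e3 : ε * (lsx_H (3 * X) - lsx_H (2 * X)) ≤ ε := by
      calc _ ≤ ε * 1 := mul_le_mul_of_nonneg_left g3 hε0.le
        _ = ε := mul_one _
    have e4 : ε * (lsx_H (2 * X) - lsx_H X) ≤ ε := by
      calc _ ≤ ε * 1 := mul_le_mul_of_nonneg_left g5 hε0.le
        _ = ε := mul_one _
    rw [e1]
    rw [abs_le] at h1 h2 h3 h4 e2 ⊢
    constructor <;> linarith [h1.1, h1.2, h2.1, h2.2, h3.1, h3.2, h4.1, h4.2, e2.1, e2.2]
  have hlast : 3 / (X : ℝ) ≤ 3 * c' / Real.log X ^ c := by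
    have h5 : Real.log X ≤ (X : ℝ) ^ (1 / c) / (1 / c) :=
      Real.log_le_rpow_div hX0.le (by positivity)
    have h6 : (X : ℝ) ^ (1 / c) / (1 / c) = c * (X : ℝ) ^ (1 / c) := by
      rw [div_div_eq_mul_div, div_one, mul_comm]
    rw [h6] at h5
    have h7 : Real.log X ^ c ≤ c' * X := by
      calc Real.log X ^ c ≤ (c * (X : ℝ) ^ (1 / c)) ^ c :=
            Real.rpow_le_rpow hlog.le h5 hc.le
        _ = c' * X := by
            rw [Real.mul_rpow hc.le (Real.rpow_nonneg hX0.le _), ← Real.rpow_mul hX0.le,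
              one_div_mul_cancel hc.ne', Real.rpow_one]
    rw [div_le_div_iff₀ hX0 hlc]
    nlinarith
  calc _ ≤ 5 * ε + 3 / (X : ℝ) := hmain
    _ ≤ 5 * ε + 3 * c' / Real.log X ^ c := by linarith
    _ = (5 * C + 3 * c') / Real.log X ^ c := by rw [hε]; ring

end Pool.Agent.RTE
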