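import Mathlib

/-!
# RTE: the numbers `i log 2 - j log 3` are dense, with a polynomial bound for `i` and `j`
-/

set_option autoImplicit false

namespace Pool.Agent.RTE

open Real

theorem net_of (κ : ℝ) (hκ : 0 ≤ κ) (hM : ∃ c : ℝ, 0 < c ∧ ∀ k : ℕ, 1 ≤ k → ∀ p : ℤ,
      c / (k : ℝ) ^ κ ≤ |k * Real.log 3 - p * Real.log 2|) :
    ∃ C : ℝ, 0 < C ∧ ∀ Q : ℝ, 1 ≤ Q → ∀ h : ℝ, 0 ≤ h → h ≤ 2 * Real.log 2 → ∃ i j : ℕ,
      |h - (i * Real.log 2 - j * Real.log 3)| ≤ 1 / Q ∧ (i : ℝ) ≤ C * Q ^ (κ + 1) ∧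
      (j : ℝ) ≤ C * Q ^ (κ + 1) := by
  obtain ⟨c, hc, hM⟩ := hM
  have h2 : (0 : ℝ) < Real.log 2 := Real.log_pos one_lt_two
  have h21 : Real.log 2 < 1 := by
    have := Real.log_two_lt_d9
    linarith
  have h3 : (0 : ℝ) < Real.log 3 := Real.log_pos (by norm_num)
  have h32 : Real.log 3 ≤ 2 * Real.log 2 := by
    have e1 : (2 : ℝ) * Real.log 2 = Real.log (2 ^ 2) := by rw [Real.log_pow]; norm_num
    rw [e1]
    exact Real.log_le_log (by norm_num) (by norm_num)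
  refine ⟨2 + 3 * (2 / c), by positivity, fun Q hQ h h0 hh => ?_⟩
  have hQ0 : 0 < Q := by linarith
  obtain ⟨n, hn⟩ : ∃ n : ℕ, n = ⌊Q⌋₊ := ⟨_, rfl⟩
  have hn1 : 0 < n := by
    rw [hn]
    exact Nat.floor_pos.2 hQ
  have hnQ : (n : ℝ) ≤ Q := by
    rw [hn]
    exact Nat.floor_le hQ0.le
  have hQn : Q < n + 1 := by
    rw [hn]
    exact Nat.lt_floor_add_one Q
  obtain ⟨k, hk0, hkn, hk⟩ := Real.exists_nat_abs_mul_sub_round_le (Real.log 3 / Real.log 2) hn1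
  obtain ⟨p, hp⟩ : ∃ p : ℤ, p = round (k * (Real.log 3 / Real.log 2)) := ⟨_, rfl⟩
  rw [← hp] at hk
  have hkQ : (k : ℝ) ≤ Q := le_trans (by exact_mod_cast hkn) hnQ
  have hk1 : (1 : ℝ) ≤ k := by exact_mod_cast hk0
  have hδ1 : |k * Real.log 3 - p * Real.log 2| ≤ 1 / Q := by
    have e1 : k * Real.log 3 - p * Real.log 2 =
        (k * (Real.log 3 / Real.log 2) - p) * Real.log 2 := by
      field_simp
    rw [e1, abs_mul, abs_of_pos h2]
    calc |k * (Real.log 3 / Real.log 2) - p| * Real.log 2 ≤ 1 / (n + 1) * 1 :=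
          mul_le_mul hk h21.le h2.le (by positivity)
      _ ≤ 1 / Q := by
          rw [mul_one]
          exact one_div_le_one_div_of_le hQ0 hQn.le
  have hδ2 := hM k hk0 p
  have hkκ : (k : ℝ) ^ κ ≤ Q ^ κ := Real.rpow_le_rpow (by positivity) hkQ hκ
  have hkκ0 : (0 : ℝ) < (k : ℝ) ^ κ := Real.rpow_pos_of_pos (by linarith) κ
  have hQκ0 : (0 : ℝ) < Q ^ κ := Real.rpow_pos_of_pos hQ0 κ
  have hδ3 : c / Q ^ κ ≤ |k * Real.log 3 - p * Real.log 2| :=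
    (div_le_div_of_nonneg_left hc.le hkκ0 hkκ).trans hδ2
  have hQpow : Q ^ (κ + 1) = Q ^ κ * Q := by
    rw [Real.rpow_add hQ0, Real.rpow_one]
  have hQκ1 : 1 ≤ Q ^ κ := Real.one_le_rpow hQ hκ
  -- `p` is a natural number at most `3 Q`
  have hδle1 : |k * Real.log 3 - p * Real.log 2| ≤ 1 :=
    hδ1.trans (by rw [div_le_one hQ0]; exact hQ)
  have hround : |k * (Real.log 3 / Real.log 2) - p| ≤ 1 / 2 := by
    rw [hp]
    exact abs_sub_round _
  have hratio : 1 ≤ Real.log 3 / Real.log 2 := by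
    rw [one_le_div h2]
    exact Real.log_le_log (by norm_num) (by norm_num)
  have hratio2 : Real.log 3 / Real.log 2 ≤ 2 := by
    rw [div_le_iff₀ h2]
    exact h32
  have hp0 : (0 : ℝ) ≤ p := by
    have e1 := (abs_le.1 hround).2
    have e2 : (1 : ℝ) ≤ k * (Real.log 3 / Real.log 2) := by nlinarith
    linarith
  have hpQ : (p : ℝ) ≤ 3 * Q := by
    have e1 := (abs_le.1 hround).1
    have e2 : k * (Real.log 3 / Real.log 2) ≤ k * 2 :=
      mul_le_mul_of_nonneg_left hratio2 (by linarith)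
    linarith
  obtain ⟨p', hp'⟩ : ∃ p' : ℕ, (p : ℤ) = p' := Int.eq_ofNat_of_zero_le (by exact_mod_cast hp0)
  have hpp : (p : ℝ) = (p' : ℝ) := by exact_mod_cast hp'
  rw [hpp] at hδ1 hδ3 hpQ
  obtain ⟨δ, hδ⟩ : ∃ δ : ℝ, δ = |k * Real.log 3 - (p' : ℝ) * Real.log 2| := ⟨_, rfl⟩
  rw [← hδ] at hδ1 hδ3
  have hδ0 : 0 < δ := lt_of_lt_of_le (by positivity) hδ3
  -- the number of steps
  have hsteps : ∀ y : ℝ, 0 ≤ y → y ≤ 2 * Real.log 2 → ∃ m : ℕ, |y - m * δ| ≤ 1 / Q ∧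
      (m : ℝ) ≤ 2 / c * Q ^ κ := by
    intro y hy hy2
    refine ⟨⌊y / δ⌋₊, ?_, ?_⟩
    · have e1 : (⌊y / δ⌋₊ : ℝ) ≤ y / δ := Nat.floor_le (by positivity)
      have e2 : y / δ < ⌊y / δ⌋₊ + 1 := Nat.lt_floor_add_one _
      rw [le_div_iff₀ hδ0] at e1
      rw [div_lt_iff₀ hδ0] at e2
      rw [abs_le]
      constructor
      · have : 0 < 1 / Q := by positivity
        linarith
      · nlinarith
    · have e1 : (⌊y / δ⌋₊ : ℝ) ≤ y / δ := Nat.floor_le (by positivity)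
      refine e1.trans ?_
      rw [div_le_iff₀ hδ0]
      have e2 : 2 / c * Q ^ κ * (c / Q ^ κ) = 2 := by
        field_simp
      have e3 : 2 / c * Q ^ κ * (c / Q ^ κ) ≤ 2 / c * Q ^ κ * δ :=
        mul_le_mul_of_nonneg_left hδ3 (by positivity)
      linarith
  have hbound : ∀ m : ℕ, (m : ℝ) ≤ 2 / c * Q ^ κ →
      ((m * k : ℕ) : ℝ) ≤ (2 + 3 * (2 / c)) * Q ^ (κ + 1) ∧
      ((2 + m * p' : ℕ) : ℝ) ≤ (2 + 3 * (2 / c)) * Q ^ (κ + 1) := by
    intro m hm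
    rw [hQpow]
    have hm0 : (0 : ℝ) ≤ m := Nat.cast_nonneg _
    have e0 : 1 ≤ Q ^ κ * Q := by nlinarith
    have e4 : 0 ≤ 2 / c * Q ^ κ := by positivity
    constructor
    · push_cast
      have e1 : (m : ℝ) * k ≤ 2 / c * Q ^ κ * Q := mul_le_mul hm hkQ (by linarith) e4
      have e2 : 0 ≤ 2 / c * Q ^ κ * Q := by positivity
      nlinarith
    · push_cast
      have e1 : (m : ℝ) * p' ≤ 2 / c * Q ^ κ * (3 * Q) :=
        mul_le_mul hm hpQ (Nat.cast_nonneg _) e4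
      nlinarith
  rcases le_total (k * Real.log 3 - (p' : ℝ) * Real.log 2) 0 with hs | hs
  · obtain ⟨m, hm1, hm2⟩ := hsteps h h0 hh
    refine ⟨m * p', m * k, ?_, ?_, (hbound m hm2).1⟩
    · rw [abs_of_nonpos hs] at hδ
      have e1 : ((m * p' : ℕ) : ℝ) * Real.log 2 - ((m * k : ℕ) : ℝ) * Real.log 3 = m * δ := by
        rw [hδ]
        push_cast
        ring
      rw [e1]
      exact hm1
    · refine le_trans ?_ (hbound m hm2).2
      exact_mod_cast (by omega)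
  · obtain ⟨m, hm1, hm2⟩ := hsteps (2 * Real.log 2 - h) (by linarith) (by linarith)
    refine ⟨2 + m * p', m * k, ?_, (hbound m hm2).2, (hbound m hm2).1⟩
    rw [abs_of_nonneg hs] at hδ
    have e1 : h - (((2 + m * p' : ℕ) : ℝ) * Real.log 2 - ((m * k : ℕ) : ℝ) * Real.log 3) =
        -((2 * Real.log 2 - h) - m * δ) := by
      rw [hδ]
      push_cast
      ring
    rw [e1, abs_neg]
    exact hm1

end Pool.Agent.RTE
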