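import Pool.Agent.RTE.St
import Pool.Agent.RTE.NetCore
import Pool.Agent.CPC.ME2
import Pool.Agent.CPC.DV2
import Pool.Agent.CPC.SZ2
import Pool.Agent.CPC.SZI
import Pool.Agent.CPC.NV2
import Pool.Agent.CPC.LCM

/-!
# RTE [NET]: the inhomogeneous net, from the irrationality measure of `log 3 / log 2`
-/

set_option autoImplicit false

namespace Pool.Agent.RTE

/-- the irrationality measure of `log 3 / log 2` (helper5, `Pool.Agent.CPC`) -/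
theorem net_im : ∃ c : ℝ, 0 < c ∧ ∀ k : ℕ, 1 ≤ k → ∀ p : ℤ,
    c / (k : ℝ) ^ (10.8 : ℝ) ≤ |k * Real.log 3 - p * Real.log 2| :=
  Pool.Agent.CPC.thm_ME2 Pool.Agent.CPC.thm_LCM Pool.Agent.CPC.thm_DV2
    (Pool.Agent.CPC.thm_SZ2 Pool.Agent.CPC.thm_SZI) Pool.Agent.CPC.thm_NV2

/-- every `h` in `[0, 2 log 2]` is within `1 / Q` of some `i log 2 - j log 3` with
`i, j ≤ C Q ^ 11.8` -/
theorem net_real : ∃ C : ℝ, 0 < C ∧ ∀ Q : ℝ, 1 ≤ Q → ∀ h : ℝ, 0 ≤ h → h ≤ 2 * Real.log 2 →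
    ∃ i j : ℕ, |h - (i * Real.log 2 - j * Real.log 3)| ≤ 1 / Q ∧
      (i : ℝ) ≤ C * Q ^ (11.8 : ℝ) ∧ (j : ℝ) ≤ C * Q ^ (11.8 : ℝ) := by
  have e1 : (11.8 : ℝ) = 10.8 + 1 := by norm_num
  rw [e1]
  exact net_of 10.8 (by norm_num) net_im

/-- [NET], with `κ = 12` -/
theorem net_twelve : ∃ C : ℝ, 0 < C ∧ ∀ (Q : ℕ) (h : ℝ), 1 ≤ Q → 0 ≤ h → h ≤ Real.log 3 →
    ∃ i j : ℕ, (i : ℝ) ≤ C * (Q : ℝ) ^ 12 ∧ (j : ℝ) ≤ C * (Q : ℝ) ^ 12 ∧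
      |(i : ℝ) * Real.log 2 - j * Real.log 3 - h| ≤ 1 / Q := by
  obtain ⟨C, hC, hnet⟩ := net_real
  refine ⟨C, hC, fun Q h hQ h0 hh => ?_⟩
  have h32 : Real.log 3 ≤ 2 * Real.log 2 := by
    have e1 : (2 : ℝ) * Real.log 2 = Real.log (2 ^ 2) := by rw [Real.log_pow]; norm_num
    rw [e1]
    exact Real.log_le_log (by norm_num) (by norm_num)
  have hQ1 : (1 : ℝ) ≤ Q := by exact_mod_cast hQ
  obtain ⟨i, j, h1, h2, h3⟩ := hnet Q hQ1 h h0 (hh.trans h32)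
  have h4 : (Q : ℝ) ^ (11.8 : ℝ) ≤ (Q : ℝ) ^ 12 := by
    rw [← Real.rpow_natCast]
    exact Real.rpow_le_rpow_of_exponent_le hQ1 (by norm_num)
  refine ⟨i, j, h2.trans (mul_le_mul_of_nonneg_left h4 hC.le),
    h3.trans (mul_le_mul_of_nonneg_left h4 hC.le), ?_⟩
  rw [abs_sub_comm]
  exact h1

theorem thm_NET : St_NET := by
  obtain ⟨C, hC, hnet⟩ := net_twelve
  refine ⟨C, 12, hC, fun Q h hQ h0 hh => ?_⟩
  obtain ⟨i, j, h1, h2, h3⟩ := hnet Q h hQ h0 hh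
  refine ⟨i, j, h1, h2, h3.trans ?_⟩
  have hQ1 : (0 : ℝ) < Q := by exact_mod_cast hQ
  exact div_le_div_of_nonneg_right (by norm_num) hQ1.le

end Pool.Agent.RTE
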