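import Pool.Agent.RTE.All
import Pool.Agent.RTE.SlvX
import Pool.Agent.RTE.LsmX
import Pool.Agent.RTE.LimX
import Pool.Agent.RTE.AlqX

/-! RTE, assembly with the exponent `1 / 26`. -/

set_option autoImplicit false

namespace Pool.Agent.RTE

theorem all_ALQX : ALQc (1 / 26) :=
  thm_alqx Pool.Agent.SLD.all_TWE Pool.Agent.SLD.all_ALE (1 / 26) (by norm_num) (by norm_num)
    (thm_limx (1 / 26) (by norm_num) (by norm_num) thm_CON
      (thm_lsmx (1 / 26) (by norm_num) (by norm_num) (thm_slvx all_STP)))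

end Pool.Agent.RTE
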