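import Mathlib

set_option autoImplicit false

/-!
# RTE, module Cq: the conserved quantity, abstract form

`S(x) = ∑_{n ≤ x} a n`, `L(x) = ∑_{n ≤ x} a n / n`, `M(y) = L(3y) - 2 L(2y) + L(y)`.
-/

namespace Pool.Agent.RTE

open Finset

/-- The counting function. -/
noncomputable def SS (a : ℕ → ℝ) (x : ℕ) : ℝ := ∑ n ∈ Ioc 0 x, a n

/-- The logarithmic sum. -/
noncomputable def LL (a : ℕ → ℝ) (x : ℕ) : ℝ := ∑ n ∈ Ioc 0 x, a n / n

/-- The conserved quantity. -/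
noncomputable def MM (a : ℕ → ℝ) (y : ℕ) : ℝ := LL a (3 * y) - 2 * LL a (2 * y) + LL a y

theorem SS_zero (a : ℕ → ℝ) : SS a 0 = 0 := by simp [SS]

theorem SS_succ (a : ℕ → ℝ) (x : ℕ) : SS a (x + 1) = SS a x + a (x + 1) := by
  unfold SS
  rw [Finset.sum_Ioc_succ_top (Nat.zero_le x)]

theorem LL_succ (a : ℕ → ℝ) (x : ℕ) : LL a (x + 1) = LL a x + a (x + 1) / ((x + 1 : ℕ) : ℝ) := by
  unfold LL
  rw [Finset.sum_Ioc_succ_top (Nat.zero_le x)]

/-- Partial summation. -/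
theorem abel (a : ℕ → ℝ) (x k : ℕ) (hx : 1 ≤ x) :
    LL a (x + k) - LL a x = SS a (x + k) / ((x + k : ℕ) : ℝ) - SS a x / x +
      ∑ i ∈ range k, SS a (x + i) * (1 / ((x + i : ℕ) : ℝ) - 1 / ((x + i + 1 : ℕ) : ℝ)) := by
  induction k with
  | zero => simp
  | succ k ih =>
    rw [sum_range_succ, ← add_assoc x k 1, LL_succ, SS_succ]
    have h1 : (0 : ℝ) < ((x + k : ℕ) : ℝ) := by
      have : 0 < x + k := by omega
      exact_mod_cast this
    have h2 : (0 : ℝ) < ((x + k + 1 : ℕ) : ℝ) := by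
      have : 0 < x + k + 1 := by omega
      exact_mod_cast this
    have h3 : LL a (x + k) = LL a x + (SS a (x + k) / ((x + k : ℕ) : ℝ) - SS a x / x +
      ∑ i ∈ range k, SS a (x + i) * (1 / ((x + i : ℕ) : ℝ) - 1 / ((x + i + 1 : ℕ) : ℝ))) := by
      linarith
    rw [h3, add_div, mul_sub, mul_one_div, mul_one_div]
    ring

/-- Partial summation, bound. -/
theorem abel_bound (e : ℕ → ℝ) (η : ℕ → ℝ) (x k : ℕ) (hx : 1 ≤ x)
    (h : ∀ m, x ≤ m → m ≤ x + k → |SS e m| ≤ m * η m) :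
    |LL e (x + k) - LL e x| ≤ η (x + k) + η x +
      ∑ i ∈ range k, η (x + i) * (1 / ((x + i + 1 : ℕ) : ℝ)) := by
  rw [abel e x k hx]
  have hp : ∀ m, x ≤ m → (0 : ℝ) < (m : ℝ) := fun m hm => by
    have : 0 < m := by omega
    exact_mod_cast this
  have h1 : |SS e (x + k) / ((x + k : ℕ) : ℝ)| ≤ η (x + k) := by
    have h0 := hp (x + k) (by omega)
    rw [abs_div, abs_of_pos h0, div_le_iff₀ h0, mul_comm]
    exact h (x + k) (by omega) le_rfl
  have h2 : |SS e x / (x : ℝ)| ≤ η x := by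
    have h0 := hp x le_rfl
    rw [abs_div, abs_of_pos h0, div_le_iff₀ h0, mul_comm]
    exact h x le_rfl (by omega)
  have h3 : |∑ i ∈ range k, SS e (x + i) *
      (1 / ((x + i : ℕ) : ℝ) - 1 / ((x + i + 1 : ℕ) : ℝ))| ≤
      ∑ i ∈ range k, η (x + i) * (1 / ((x + i + 1 : ℕ) : ℝ)) := by
    refine (abs_sum_le_sum_abs _ _).trans (sum_le_sum fun i hi => ?_)
    rw [mem_range] at hi
    have h0 := hp (x + i) (by omega)
    have h0' := hp (x + i + 1) (by omega)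
    have e1 : 1 / ((x + i : ℕ) : ℝ) - 1 / ((x + i + 1 : ℕ) : ℝ) =
        1 / (((x + i : ℕ) : ℝ) * ((x + i + 1 : ℕ) : ℝ)) := by
      rw [div_sub_div _ _ h0.ne' h0'.ne']
      congr 1
      push_cast
      ring
    have hpp : (0 : ℝ) < 1 / (((x + i : ℕ) : ℝ) * ((x + i + 1 : ℕ) : ℝ)) :=
      one_div_pos.2 (mul_pos h0 h0')
    rw [e1, abs_mul, abs_of_pos hpp]
    have h4 := h (x + i) (by omega) (by omega)
    calc |SS e (x + i)| * (1 / (((x + i : ℕ) : ℝ) * ((x + i + 1 : ℕ) : ℝ)))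
        ≤ (((x + i : ℕ) : ℝ) * η (x + i)) * (1 / (((x + i : ℕ) : ℝ) * ((x + i + 1 : ℕ) : ℝ))) :=
          mul_le_mul_of_nonneg_right h4 hpp.le
      _ = η (x + i) * (1 / ((x + i + 1 : ℕ) : ℝ)) := by
          field_simp
  have h4 := abs_add_le (SS e (x + k) / ((x + k : ℕ) : ℝ) - SS e x / x)
    (∑ i ∈ range k, SS e (x + i) * (1 / ((x + i : ℕ) : ℝ) - 1 / ((x + i + 1 : ℕ) : ℝ)))
  have h5 := abs_sub (SS e (x + k) / ((x + k : ℕ) : ℝ)) (SS e x / (x : ℝ))
  linarith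

/-- `log (1 + 1/n)`. -/
theorem log_step {n : ℕ} (hn : 1 ≤ n) :
    1 / ((n + 1 : ℕ) : ℝ) ≤ Real.log ((n + 1 : ℕ) : ℝ) - Real.log n ∧
      Real.log ((n + 1 : ℕ) : ℝ) - Real.log n ≤ 1 / (n : ℝ) := by
  have h0 : (0 : ℝ) < n := by exact_mod_cast hn
  have h1 : (0 : ℝ) < ((n + 1 : ℕ) : ℝ) := by positivity
  constructor
  · have h2 := Real.log_le_sub_one_of_pos (show (0 : ℝ) < (n : ℝ) / ((n + 1 : ℕ) : ℝ) by positivity)
    rw [Real.log_div h0.ne' h1.ne'] at h2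
    have h3 : (n : ℝ) / ((n + 1 : ℕ) : ℝ) - 1 = -(1 / ((n + 1 : ℕ) : ℝ)) := by
      rw [div_sub_one h1.ne', ← neg_div]
      congr 1
      push_cast
      ring
    linarith
  · have h2 := Real.log_le_sub_one_of_pos (show (0 : ℝ) < ((n + 1 : ℕ) : ℝ) / (n : ℝ) by positivity)
    rw [Real.log_div h1.ne' h0.ne'] at h2
    have h3 : ((n + 1 : ℕ) : ℝ) / (n : ℝ) - 1 = 1 / (n : ℝ) := by
      rw [div_sub_one h0.ne']
      congr 1
      push_cast
      ring
    linarith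

/-- Harmonic sums. -/
theorem harm_log (x k : ℕ) (hx : 1 ≤ x) :
    LL (fun _ => 1) (x + k) - LL (fun _ => 1) x ≤ Real.log ((x + k : ℕ) : ℝ) - Real.log x ∧
      Real.log ((x + k : ℕ) : ℝ) - Real.log x ≤
        LL (fun _ => 1) (x + k) - LL (fun _ => 1) x + 1 / (x : ℝ) - 1 / ((x + k : ℕ) : ℝ) := by
  induction k with
  | zero => simp
  | succ k ih =>
    obtain ⟨h1, h2⟩ := ih
    obtain ⟨h3, h4⟩ := log_step (n := x + k) (by omega)
    rw [← add_assoc x k 1, LL_succ]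
    constructor <;> linarith

theorem LL_sub_mul (a : ℕ → ℝ) (F : ℝ) (x : ℕ) :
    LL (fun n => a n - F) x = LL a x - F * LL (fun _ => 1) x := by
  unfold LL
  rw [mul_sum, ← sum_sub_distrib]
  refine sum_congr rfl fun n _ => ?_
  ring

theorem SS_sub_mul (a : ℕ → ℝ) (F : ℝ) (x : ℕ) :
    SS (fun n => a n - F) x = SS a x - F * x := by
  unfold SS
  rw [sum_sub_distrib, sum_const, Nat.card_Ioc, nsmul_eq_mul, Nat.sub_zero]
  ring

/-- On a block where `S(m) = F m + O(ε m)`. -/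
theorem block_log (a : ℕ → ℝ) (F ε : ℝ) (hε : 0 ≤ ε) (hF : |F| ≤ 1) (x k : ℕ) (hx : 1 ≤ x)
    (hk : k ≤ x) (h : ∀ m, x ≤ m → m ≤ x + k → |SS a m - F * m| ≤ ε * m) :
    |LL a (x + k) - LL a x - F * (Real.log ((x + k : ℕ) : ℝ) - Real.log x)| ≤
      3 * ε + 1 / (x : ℝ) := by
  have hx0 : (0 : ℝ) < x := by exact_mod_cast hx
  have h1 := abel_bound (fun n => a n - F) (fun _ => ε) x k hx (fun m hm1 hm2 => by
    rw [SS_sub_mul, mul_comm (m : ℝ)]
    exact h m hm1 hm2)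
  have h2 : ∑ i ∈ range k, ε * (1 / ((x + i + 1 : ℕ) : ℝ)) ≤ ε := by
    have h3 : ∑ i ∈ range k, ε * (1 / ((x + i + 1 : ℕ) : ℝ)) ≤ ∑ i ∈ range k, ε * (1 / (x : ℝ)) := by
      refine sum_le_sum fun i _ => mul_le_mul_of_nonneg_left ?_ hε
      apply one_div_le_one_div_of_le hx0
      exact_mod_cast (by omega : x ≤ x + i + 1)
    refine h3.trans ?_
    rw [sum_const, card_range, nsmul_eq_mul]
    have h4 : (k : ℝ) ≤ x := by exact_mod_cast hk
    have h5 : (k : ℝ) * (ε * (1 / (x : ℝ))) = ε * (k / x) := by ring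
    rw [h5]
    exact mul_le_of_le_one_right hε ((div_le_one hx0).2 h4)
  rw [LL_sub_mul, LL_sub_mul] at h1
  obtain ⟨h6, h7⟩ := harm_log x k hx
  obtain ⟨H, hH⟩ : ∃ H : ℝ, H = LL (fun _ => 1) (x + k) - LL (fun _ => 1) x := ⟨_, rfl⟩
  obtain ⟨G, hG⟩ : ∃ G : ℝ, G = Real.log ((x + k : ℕ) : ℝ) - Real.log x := ⟨_, rfl⟩
  rw [← hH, ← hG] at h6 h7
  rw [← hG]
  have h8 : (0 : ℝ) ≤ 1 / ((x + k : ℕ) : ℝ) := by positivity
  have h9 : |F * (H - G)| ≤ 1 / (x : ℝ) := by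
    rw [abs_mul]
    have h10 : |H - G| ≤ 1 / (x : ℝ) := by
      rw [abs_le]
      constructor <;> linarith [show (0 : ℝ) ≤ 1 / (x : ℝ) by positivity]
    calc |F| * |H - G| ≤ 1 * |H - G| := mul_le_mul_of_nonneg_right hF (abs_nonneg _)
      _ ≤ 1 / (x : ℝ) := by rw [one_mul]; exact h10
  have h11 : LL a (x + k) - LL a x - F * G =
      (LL a (x + k) - F * LL (fun _ => 1) (x + k) - (LL a x - F * LL (fun _ => 1) x)) +
        F * (H - G) := by
    rw [hH]
    ring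
  rw [h11]
  refine (abs_add_le _ _).trans ?_
  linarith

/-- [LIM] `M(y) = - F log (4/3) + O(ε + 1/y)`. -/
theorem lim_abs (a : ℕ → ℝ) (F ε : ℝ) (hε : 0 ≤ ε) (hF : |F| ≤ 1) (y : ℕ) (hy : 1 ≤ y)
    (h : ∀ m, y ≤ m → m ≤ 3 * y → |SS a m - F * m| ≤ ε * m) :
    |MM a y + F * Real.log (4 / 3)| ≤ 6 * ε + 2 / (y : ℝ) := by
  have hy0 : (0 : ℝ) < y := by exact_mod_cast hy
  have h1 := block_log a F ε hε hF y y hy le_rfl (fun m h1 h2 => h m h1 (by omega))
  have h2 := block_log a F ε hε hF (2 * y) y (by omega) (by omega)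
    (fun m h1 h2 => h m (by omega) (by omega))
  have e1 : y + y = 2 * y := by ring
  have e2 : 2 * y + y = 3 * y := by ring
  rw [e1] at h1
  rw [e2] at h2
  have l1 : Real.log ((2 * y : ℕ) : ℝ) = Real.log 2 + Real.log y := by
    push_cast
    rw [Real.log_mul (by norm_num) hy0.ne']
  have l2 : Real.log ((3 * y : ℕ) : ℝ) = Real.log 3 + Real.log y := by
    push_cast
    rw [Real.log_mul (by norm_num) hy0.ne']
  have l3 : Real.log (4 / 3) = 2 * Real.log 2 - Real.log 3 := by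
    rw [Real.log_div (by norm_num) (by norm_num)]
    have : (4 : ℝ) = 2 ^ 2 := by norm_num
    rw [this, Real.log_pow]
    push_cast
    ring
  rw [l1] at h1
  rw [l1, l2] at h2
  have h3 : MM a y + F * Real.log (4 / 3) =
      (LL a (3 * y) - LL a (2 * y) - F * (Real.log 3 + Real.log y - (Real.log 2 + Real.log y))) -
      (LL a (2 * y) - LL a y - F * (Real.log 2 + Real.log y - Real.log y)) := by
    unfold MM
    rw [l3]
    ring
  rw [h3]
  refine (abs_sub _ _).trans ?_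
  have h4 : 1 / ((2 * y : ℕ) : ℝ) ≤ 1 / (y : ℝ) := by
    apply one_div_le_one_div_of_le hy0
    exact_mod_cast (by omega : y ≤ 2 * y)
  have h5 : 2 / (y : ℝ) = 1 / (y : ℝ) + 1 / (y : ℝ) := by ring
  rw [h5]
  linarith

/-- The class `ρ` modulo `3`. -/
noncomputable def cl (a : ℕ → ℝ) (ρ : ℕ) (n : ℕ) : ℝ := if n % 3 = ρ then a n else 0

/-- The difference to a third. -/
noncomputable def df (a : ℕ → ℝ) (ρ : ℕ) (n : ℕ) : ℝ := cl a ρ n - a n / 3

theorem LL_df (a : ℕ → ℝ) (ρ x : ℕ) : LL (df a ρ) x = LL (cl a ρ) x - LL a x / 3 := by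
  unfold LL df
  rw [sum_div, ← sum_sub_distrib]
  refine sum_congr rfl fun n _ => ?_
  ring

/-- Splitting into even and odd integers. -/
theorem split_two (a : ℕ → ℝ) (y k : ℕ) : LL a (2 * (y + k)) - LL a (2 * y) =
    ∑ i ∈ range k, (a (2 * (y + i) + 1) / ((2 * (y + i) + 1 : ℕ) : ℝ) +
      a (2 * (y + i) + 2) / ((2 * (y + i) + 2 : ℕ) : ℝ)) := by
  induction k with
  | zero => simp
  | succ k ih =>
    rw [sum_range_succ, ← ih]
    have e : 2 * (y + (k + 1)) = 2 * (y + k) + 1 + 1 := by ring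
    rw [e, LL_succ, LL_succ]
    ring

theorem split_three (a : ℕ → ℝ) (ρ : ℕ) (hρ : ρ = 1 ∨ ρ = 2) (y k : ℕ) :
    LL (cl a ρ) (3 * (y + k)) - LL (cl a ρ) (3 * y) =
      ∑ i ∈ range k, a (3 * (y + i) + ρ) / ((3 * (y + i) + ρ : ℕ) : ℝ) := by
  induction k with
  | zero => simp
  | succ k ih =>
    rw [sum_range_succ, ← ih]
    have e : 3 * (y + (k + 1)) = 3 * (y + k) + 1 + 1 + 1 := by ring
    rw [e, LL_succ, LL_succ, LL_succ]
    have c3 : cl a ρ (3 * (y + k) + 1 + 1 + 1) = 0 := by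
      unfold cl
      rw [if_neg (by omega)]
    rcases hρ with rfl | rfl
    · have c1 : cl a 1 (3 * (y + k) + 1) = a (3 * (y + k) + 1) := by
        unfold cl
        rw [if_pos (by omega)]
      have c2 : cl a 1 (3 * (y + k) + 1 + 1) = 0 := by
        unfold cl
        rw [if_neg (by omega)]
      rw [c1, c2, c3]
      ring
    · have c1 : cl a 2 (3 * (y + k) + 1) = 0 := by
        unfold cl
        rw [if_neg (by omega)]
      have c2 : cl a 2 (3 * (y + k) + 1 + 1) = a (3 * (y + k) + 2) := by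
        unfold cl
        rw [if_pos (by omega)]
      have e2 : 3 * (y + k) + 1 + 1 = 3 * (y + k) + 2 := by ring
      rw [c1, c2, c3, e2]
      ring

/-- The step of the conserved quantity. -/
theorem step_abs (a : ℕ → ℝ) (h0 : ∀ n, 0 ≤ a n) (h1 : ∀ n, a n ≤ 1) (ρ : ℕ)
    (hρ : ρ = 1 ∨ ρ = 2) (y k : ℕ) (hy : 1 ≤ y) (ha : ∀ m, y < m → a (2 * m) = a m)
    (hb : ∀ t, y ≤ t → a (2 * t + 1) = a (3 * t + ρ)) :
    |2 * (LL a (2 * (y + k)) - LL a (2 * y)) - (LL a (y + k) - LL a y) -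
      3 * (LL (cl a ρ) (3 * (y + k)) - LL (cl a ρ) (3 * y))| ≤ 1 / (y : ℝ) := by
  have key : ∀ k, |2 * (LL a (2 * (y + k)) - LL a (2 * y)) - (LL a (y + k) - LL a y) -
      3 * (LL (cl a ρ) (3 * (y + k)) - LL (cl a ρ) (3 * y))| ≤
        1 / (y : ℝ) - 1 / ((y + k : ℕ) : ℝ) := by
    intro k
    induction k with
    | zero => simp
    | succ k ih =>
      have hs2 := split_two a y (k + 1)
      have hs2' := split_two a y k
      have hs3 := split_three a ρ hρ y (k + 1)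
      have hs3' := split_three a ρ hρ y k
      rw [sum_range_succ, ← hs2'] at hs2
      rw [sum_range_succ, ← hs3'] at hs3
      have hL : LL a (y + (k + 1)) = LL a (y + k) + a (y + k + 1) / ((y + k + 1 : ℕ) : ℝ) := by
        rw [← add_assoc, LL_succ]
      have hbk := hb (y + k) (by omega)
      have hak := ha (y + k + 1) (by omega)
      have e2 : 2 * (y + k + 1) = 2 * (y + k) + 2 := by ring
      rw [e2] at hak
      obtain ⟨t, ht⟩ : ∃ t, t = y + k := ⟨_, rfl⟩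
      rw [← ht] at hs2 hs2' hs3 hs3' hL hbk hak ih
      have ht0 : (1 : ℝ) ≤ t := by
        have : 1 ≤ t := by omega
        exact_mod_cast this
      obtain ⟨v, hv⟩ : ∃ v, v = a (3 * t + ρ) := ⟨_, rfl⟩
      have hv0 : 0 ≤ v := by rw [hv]; exact h0 _
      have hv1 : v ≤ 1 := by rw [hv]; exact h1 _
      rw [hbk, hak] at hs2
      rw [← hv] at hs2 hs3
      have hq : 2 * (v / ((2 * t + 1 : ℕ) : ℝ)) - 3 * (v / ((3 * t + ρ : ℕ) : ℝ)) =
          v * ((2 * (ρ : ℝ) - 3) / ((2 * t + 1) * (3 * t + ρ))) := by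
        have hρ0 : (0 : ℝ) ≤ ρ := Nat.cast_nonneg _
        push_cast
        have d1 : (2 * (t : ℝ) + 1) ≠ 0 := by positivity
        have d2 : (3 * (t : ℝ) + ρ) ≠ 0 := by positivity
        field_simp
        ring
      have hq2 : |v * ((2 * (ρ : ℝ) - 3) / ((2 * t + 1) * (3 * t + ρ)))| ≤
          1 / (t : ℝ) - 1 / ((t + 1 : ℕ) : ℝ) := by
        have e3 : 1 / (t : ℝ) - 1 / ((t + 1 : ℕ) : ℝ) = 1 / ((t : ℝ) * (t + 1)) := by
          push_cast
          have d1 : (t : ℝ) ≠ 0 := by linarith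
          have d2 : (t : ℝ) + 1 ≠ 0 := by linarith
          field_simp
          ring
        rw [e3, abs_mul, abs_of_nonneg hv0]
        have d3 : |(2 * (ρ : ℝ) - 3) / ((2 * t + 1) * (3 * t + ρ))| ≤ 1 / ((t : ℝ) * (t + 1)) := by
          have hρ1 : (1 : ℝ) ≤ ρ := by rcases hρ with h | h <;> rw [h] <;> norm_num
          have hρ2 : |2 * (ρ : ℝ) - 3| ≤ 1 := by
            rcases hρ with h | h <;> rw [h] <;> norm_num
          have hpos : (0 : ℝ) < (2 * t + 1) * (3 * t + ρ) := by positivity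
          rw [abs_div, abs_of_pos hpos, div_le_div_iff₀ hpos (by positivity)]
          have : (t : ℝ) * (t + 1) ≤ (2 * t + 1) * (3 * t + ρ) := by nlinarith
          calc |2 * (ρ : ℝ) - 3| * ((t : ℝ) * (t + 1)) ≤ 1 * ((t : ℝ) * (t + 1)) :=
                mul_le_mul_of_nonneg_right hρ2 (by positivity)
            _ ≤ 1 * ((2 * t + 1) * (3 * t + ρ)) := by linarith
        calc v * |(2 * (ρ : ℝ) - 3) / ((2 * t + 1) * (3 * t + ρ))|
            ≤ 1 * (1 / ((t : ℝ) * (t + 1))) :=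
              mul_le_mul hv1 d3 (abs_nonneg _) (by norm_num)
          _ = _ := one_mul _
      have hhalf : a (t + 1) / ((2 * t + 2 : ℕ) : ℝ) = (a (t + 1) / ((t + 1 : ℕ) : ℝ)) / 2 := by
        push_cast
        have d2 : (t : ℝ) + 1 ≠ 0 := by linarith
        have e4 : (2 * (t : ℝ) + 2) = ((t : ℝ) + 1) * 2 := by ring
        rw [e4, div_div]
      have e5 : ((y + (k + 1) : ℕ) : ℝ) = ((t + 1 : ℕ) : ℝ) := by
        rw [ht]
        push_cast
        ring
      have hfin : 2 * (LL a (2 * (y + (k + 1))) - LL a (2 * y)) - (LL a (y + (k + 1)) - LL a y) -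
          3 * (LL (cl a ρ) (3 * (y + (k + 1))) - LL (cl a ρ) (3 * y)) =
          (2 * (LL a (2 * t) - LL a (2 * y)) - (LL a t - LL a y) -
            3 * (LL (cl a ρ) (3 * t) - LL (cl a ρ) (3 * y))) +
          (2 * (v / ((2 * t + 1 : ℕ) : ℝ)) - 3 * (v / ((3 * t + ρ : ℕ) : ℝ))) := by
        rw [hs2, hs3, hL, hhalf]
        ring
      rw [hfin, e5]
      refine (abs_add_le _ _).trans ?_
      rw [hq]
      have := hq2
      linarith
  have h2 := key k
  have h3 : (0 : ℝ) ≤ 1 / ((y + k : ℕ) : ℝ) := by positivity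
  linarith

/-- The tail of `∑ 1 / (n log² n)`. -/
theorem tail_log (x k : ℕ) (hx : 3 ≤ x) :
    ∑ i ∈ range k, 1 / Real.log ((x + i : ℕ) : ℝ) ^ 2 * (1 / ((x + i + 1 : ℕ) : ℝ)) ≤
      2 / Real.log x - 2 / Real.log ((x + k : ℕ) : ℝ) := by
  induction k with
  | zero => simp
  | succ k ih =>
    rw [sum_range_succ]
    obtain ⟨t, ht⟩ : ∃ t, t = x + k := ⟨_, rfl⟩
    have e : x + (k + 1) = t + 1 := by omega
    rw [e, ← ht]
    rw [← ht] at ih
    have ht3 : (3 : ℝ) ≤ t := by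
      have : 3 ≤ t := by omega
      exact_mod_cast this
    have hl1 : 1 ≤ Real.log t := by
      rw [← Real.log_exp 1]
      apply Real.log_le_log (Real.exp_pos 1)
      have := Real.exp_one_lt_d9
      linarith
    obtain ⟨h1, h2⟩ := log_step (n := t) (by omega)
    have hl2 : Real.log ((t + 1 : ℕ) : ℝ) ≤ 2 * Real.log t := by
      have h3 : 1 / (t : ℝ) ≤ 1 := by
        rw [div_le_one (by linarith)]
        linarith
      linarith
    have hl3 : Real.log t ≤ Real.log ((t + 1 : ℕ) : ℝ) := by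
      have : (0 : ℝ) ≤ 1 / ((t + 1 : ℕ) : ℝ) := by positivity
      linarith
    obtain ⟨u, hu⟩ : ∃ u, u = Real.log t := ⟨_, rfl⟩
    obtain ⟨v, hv⟩ : ∃ v, v = Real.log ((t + 1 : ℕ) : ℝ) := ⟨_, rfl⟩
    rw [← hu, ← hv] at h1 h2 hl2 hl3
    rw [← hu] at hl1 ih ⊢
    rw [← hv]
    have hu0 : 0 < u := by linarith
    have hv0 : 0 < v := by linarith
    have h4 : 1 / u ^ 2 * (1 / ((t + 1 : ℕ) : ℝ)) ≤ 2 / u - 2 / v := by
      have h5 : 2 / u - 2 / v = 2 * (v - u) / (u * v) := by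
        field_simp
      rw [h5]
      have h6 : 1 / u ^ 2 * (1 / ((t + 1 : ℕ) : ℝ)) ≤ 1 / u ^ 2 * (v - u) :=
        mul_le_mul_of_nonneg_left h1 (by positivity)
      refine h6.trans ?_
      rw [div_mul_eq_mul_div, one_mul, div_le_div_iff₀ (by positivity) (by positivity)]
      have h7 : 0 ≤ v - u := by linarith
      have h8 : u * v ≤ 2 * u ^ 2 := by nlinarith
      nlinarith [mul_le_mul_of_nonneg_left h8 h7]
    linarith

/-- [CON] The conserved quantity converges. -/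
theorem con_abs (a : ℕ → ℝ) (h0 : ∀ n, 0 ≤ a n) (h1 : ∀ n, a n ≤ 1) (ρ : ℕ)
    (hρ : ρ = 1 ∨ ρ = 2) (y k : ℕ) (hy : 1 ≤ y) (ha : ∀ m, y < m → a (2 * m) = a m)
    (hb : ∀ t, y ≤ t → a (2 * t + 1) = a (3 * t + ρ)) (C : ℝ) (hC : 0 ≤ C)
    (he : ∀ m, 3 * y ≤ m → |SS (df a ρ) m| ≤ C * m / Real.log m ^ 2) :
    |MM a (y + k) - MM a y| ≤ (12 * C + 3) / Real.log (3 * y : ℕ) := by
  have h2 := step_abs a h0 h1 ρ hρ y k hy ha hb
  have h3 := abel_bound (df a ρ) (fun m => C * (1 / Real.log m ^ 2)) (3 * y) (3 * k) (by omega)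
    (fun m hm _ => by
      refine (he m hm).trans (le_of_eq ?_)
      ring)
  have h4 := tail_log (3 * y) (3 * k) (by omega)
  have e3 : 3 * y + 3 * k = 3 * (y + k) := by ring
  have hlog : ∀ m : ℕ, 3 * y ≤ m → 1 ≤ Real.log m := fun m hm => by
    rw [← Real.log_exp 1]
    apply Real.log_le_log (Real.exp_pos 1)
    have h5 : (3 : ℝ) ≤ m := by exact_mod_cast (by omega : 3 ≤ m)
    have := Real.exp_one_lt_d9
    linarith
  have hl1 := hlog (3 * y) le_rfl
  have hl2 := hlog (3 * y + 3 * k) (by omega)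
  have hmono : Real.log (3 * y : ℕ) ≤ Real.log (3 * y + 3 * k : ℕ) := by
    apply Real.log_le_log
    · have : 0 < 3 * y := by omega
      exact_mod_cast this
    · exact_mod_cast (by omega : 3 * y ≤ 3 * y + 3 * k)
  have h5 : ∑ i ∈ range (3 * k), C * (1 / Real.log ((3 * y + i : ℕ) : ℝ) ^ 2) *
      (1 / ((3 * y + i + 1 : ℕ) : ℝ)) ≤ C * (2 / Real.log (3 * y : ℕ)) := by
    have e : ∑ i ∈ range (3 * k), C * (1 / Real.log ((3 * y + i : ℕ) : ℝ) ^ 2) *
      (1 / ((3 * y + i + 1 : ℕ) : ℝ)) = C * ∑ i ∈ range (3 * k),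
        1 / Real.log ((3 * y + i : ℕ) : ℝ) ^ 2 * (1 / ((3 * y + i + 1 : ℕ) : ℝ)) := by
      rw [mul_sum]
      refine sum_congr rfl fun i _ => ?_
      ring
    rw [e]
    refine mul_le_mul_of_nonneg_left (h4.trans ?_) hC
    have : 0 ≤ 2 / Real.log (3 * y + 3 * k : ℕ) := by positivity
    linarith
  obtain ⟨u, hu⟩ : ∃ u, u = Real.log (3 * y : ℕ) := ⟨_, rfl⟩
  obtain ⟨v, hv⟩ : ∃ v, v = Real.log (3 * y + 3 * k : ℕ) := ⟨_, rfl⟩
  have h6 : |LL (df a ρ) (3 * (y + k)) - LL (df a ρ) (3 * y)| ≤ 4 * C / u := by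
    rw [← e3]
    refine h3.trans ?_
    have h7 : C * (1 / Real.log (3 * y + 3 * k : ℕ) ^ 2) ≤ C * (1 / u) := by
      refine mul_le_mul_of_nonneg_left ?_ hC
      apply one_div_le_one_div_of_le (by linarith)
      rw [← hu, ← hv] at hmono
      rw [← hv]
      rw [← hv] at hl2
      nlinarith
    have h8 : C * (1 / Real.log (3 * y : ℕ) ^ 2) ≤ C * (1 / u) := by
      refine mul_le_mul_of_nonneg_left ?_ hC
      apply one_div_le_one_div_of_le (by linarith)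
      rw [← hu]
      rw [← hu] at hl1
      nlinarith
    rw [← hu] at h5
    have h9 : 4 * C / u = C * (1 / u) + C * (1 / u) + C * (2 / u) := by ring
    rw [h9]
    exact add_le_add (add_le_add h7 h8) h5
  rw [LL_df, LL_df] at h6
  have h10 : MM a (y + k) - MM a y =
      -3 * (LL (cl a ρ) (3 * (y + k)) - LL a (3 * (y + k)) / 3 -
        (LL (cl a ρ) (3 * y) - LL a (3 * y) / 3)) -
      (2 * (LL a (2 * (y + k)) - LL a (2 * y)) - (LL a (y + k) - LL a y) -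
      3 * (LL (cl a ρ) (3 * (y + k)) - LL (cl a ρ) (3 * y))) := by
    unfold MM
    ring
  have h11 : 1 / (y : ℝ) ≤ 3 / u := by
    have hy0 : (0 : ℝ) < y := by exact_mod_cast hy
    rw [div_le_div_iff₀ hy0 (by linarith), one_mul, hu]
    have h12 := Real.log_le_sub_one_of_pos (show (0 : ℝ) < ((3 * y : ℕ) : ℝ) by
      exact_mod_cast (by omega : 0 < 3 * y))
    push_cast at h12 ⊢
    linarith
  rw [h10, ← hu]
  refine (abs_sub _ _).trans ?_
  rw [abs_mul]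
  have h13 : |(-3 : ℝ)| = 3 := by norm_num
  rw [h13]
  have h14 : (12 * C + 3) / u = 3 * (4 * C / u) + 3 / u := by ring
  linarith

end Pool.Agent.RTE
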