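import Pool.Agent.PC.PNTAP

/-!
`lcm (1, …, 3n) ≤ C 50 ^ n`, from the prime number theorem.
-/

set_option autoImplicit false
open Filter Topology Finset

namespace Pool.Agent.RTE

theorem psi_tendsto : Tendsto (fun x : ℝ => Chebyshev.psi x / x) atTop (𝓝 1) := by
  have h := Pool.Agent.PC.PNT.psi_ap 1 1 one_pos (Nat.coprime_one_right 1)
  simp only [Nat.totient_one, Nat.cast_one, div_one] at h
  refine h.congr fun x => ?_
  congr 1
  unfold Pool.Agent.PC.WI.S Chebyshev.psi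
  refine Finset.sum_congr rfl fun k _ => ?_
  rw [ArithmeticFunction.vonMangoldt.residueClass, Set.indicator_of_mem]
  exact Subsingleton.elim _ _

theorem psi_le : ∀ᶠ n : ℕ in atTop, Chebyshev.psi ((3 * n : ℕ) : ℝ) ≤ (n : ℝ) * Real.log 50 := by
  have hlog : (3.9 : ℝ) ≤ Real.log 50 := by
    rw [Real.le_log_iff_exp_le (by norm_num)]
    have h1 : Real.exp 3.9 ^ 10 ≤ (50 : ℝ) ^ 10 := by
      rw [← Real.exp_nat_mul]
      have h2 : ((10 : ℕ) : ℝ) * 3.9 = ((39 : ℕ) : ℝ) * 1 := by norm_num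
      rw [h2, Real.exp_nat_mul]
      calc Real.exp 1 ^ 39 ≤ (2.7182818286 : ℝ) ^ 39 :=
            pow_le_pow_left₀ (Real.exp_pos _).le Real.exp_one_lt_d9.le _
        _ ≤ (50 : ℝ) ^ 10 := by norm_num
    exact le_of_pow_le_pow_left₀ (by norm_num) (by norm_num) h1
  have h3 : Tendsto (fun n : ℕ => ((3 * n : ℕ) : ℝ)) atTop atTop := by
    refine tendsto_natCast_atTop_atTop.comp ?_
    exact tendsto_id.const_mul_atTop' (by norm_num)
  have h := (psi_tendsto.comp h3).eventually (gt_mem_nhds (show (1 : ℝ) < 1.3 by norm_num))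
  filter_upwards [h, eventually_gt_atTop 0] with n hn hn0
  have hn0' : (0 : ℝ) < ((3 * n : ℕ) : ℝ) := by
    have : 0 < 3 * n := by omega
    exact_mod_cast this
  simp only [Function.comp] at hn
  rw [div_lt_iff₀ hn0'] at hn
  have h4 : (1.3 : ℝ) * ((3 * n : ℕ) : ℝ) = n * 3.9 := by
    push_cast
    ring
  have h5 : (n : ℝ) * 3.9 ≤ n * Real.log 50 := mul_le_mul_of_nonneg_left hlog (by positivity)
  linarith

theorem lcmUpto_le : ∃ C : ℝ, 0 < C ∧ ∀ n : ℕ, (Nat.lcmUpto (3 * n) : ℝ) ≤ C * 50 ^ n := by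
  obtain ⟨K, hK⟩ := eventually_atTop.1 psi_le
  refine ⟨1 + ∑ n ∈ range (K + 1), (Nat.lcmUpto (3 * n) : ℝ), by positivity, ?_⟩
  intro n
  have hsum : (0 : ℝ) ≤ ∑ n ∈ range (K + 1), (Nat.lcmUpto (3 * n) : ℝ) := by positivity
  have h50 : (1 : ℝ) ≤ 50 ^ n := one_le_pow₀ (by norm_num)
  by_cases hn : n < K
  · have h1 : (Nat.lcmUpto (3 * n) : ℝ) ≤
        ∑ n ∈ range (K + 1), (Nat.lcmUpto (3 * n) : ℝ) :=
      Finset.single_le_sum (f := fun n => (Nat.lcmUpto (3 * n) : ℝ))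
        (fun i _ => by positivity) (Finset.mem_range.2 (by omega))
    nlinarith
  · have h1 := hK n (not_lt.1 hn)
    rw [Chebyshev.psi_eq_log_lcmUpto] at h1
    have hpos : (0 : ℝ) < Nat.lcmUpto (3 * n) := by exact_mod_cast Nat.lcmUpto_pos _
    rw [← Real.log_pow, Real.log_le_log_iff hpos (by positivity)] at h1
    nlinarith

theorem lcm_le : ∃ C : ℝ, 0 < C ∧ ∀ n : ℕ, (((Finset.Icc 1 (3 * n)).lcm id : ℕ) : ℝ) ≤ C * 50 ^ n :=
  lcmUpto_le

end Pool.Agent.RTE
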