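import Pool.Agent.RTE.Cns

set_option autoImplicit false

/-!
# RTE, module SmA: the functional equation of the counting function, every power of the logarithm
-/

namespace Pool.Agent.RTE

open Finset
open Pool.Agent.SLD (N EvInv T)

theorem SmA_two (a : ℕ → ℝ) (X : ℕ) : SS a (2 * X) =
    ∑ i ∈ range X, (a (2 * i + 1) + a (2 * i + 2)) := by
  induction X with
  | zero => simp [SS]
  | succ X ih =>
    rw [sum_range_succ, ← ih]
    have e : 2 * (X + 1) = 2 * X + 1 + 1 := by ring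
    rw [e, SS_succ, SS_succ]
    ring

theorem SmA_one (a : ℕ → ℝ) (X : ℕ) : SS a X = ∑ i ∈ range X, a (i + 1) := by
  induction X with
  | zero => simp [SS]
  | succ X ih => rw [sum_range_succ, ← ih, SS_succ]

theorem SmA_three (a : ℕ → ℝ) (ρ : ℕ) (hρ : ρ = 1 ∨ ρ = 2) (X : ℕ) :
    SS (cl a ρ) (3 * X) = ∑ i ∈ range X, a (3 * i + ρ) := by
  induction X with
  | zero => simp [SS]
  | succ X ih =>
    rw [sum_range_succ, ← ih]
    have e : 3 * (X + 1) = 3 * X + 1 + 1 + 1 := by ring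
    rw [e, SS_succ, SS_succ, SS_succ]
    have c3 : cl a ρ (3 * X + 1 + 1 + 1) = 0 := by
      unfold cl
      rw [if_neg (by omega)]
    rcases hρ with rfl | rfl
    · have c1 : cl a 1 (3 * X + 1) = a (3 * X + 1) := by
        unfold cl
        rw [if_pos (by omega)]
      have c2 : cl a 1 (3 * X + 1 + 1) = 0 := by
        unfold cl
        rw [if_neg (by omega)]
      rw [c1, c2, c3]
      ring
    · have c1 : cl a 2 (3 * X + 1) = 0 := by
        unfold cl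
        rw [if_neg (by omega)]
      have c2 : cl a 2 (3 * X + 1 + 1) = a (3 * X + 2) := by
        unfold cl
        rw [if_pos (by omega)]
      rw [c1, c2, c3]
      ring

/-- The functional equation up to `K + 1`. -/
theorem SmA_fe {σ : ℤ} (hσ : σ = 1 ∨ σ = -1) {K : ℕ} {A : Set ℤ} (hA : EvInv K A) {ρ : ℕ}
    (hρ : (σ = 1 ∧ ρ = 2) ∨ (σ = -1 ∧ ρ = 1)) (X : ℕ) :
    |SS (ind σ A) (2 * X) - SS (ind σ A) X - SS (cl (ind σ A) ρ) (3 * X)| ≤ 2 * (K + 1) := by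
  obtain ⟨a, ha⟩ : ∃ a, a = ind σ A := ⟨_, rfl⟩
  rw [← ha]
  have h0 : ∀ n, 0 ≤ a n := fun n => by rw [ha]; exact ind_nonneg σ A n
  have h1 : ∀ n, a n ≤ 1 := fun n => by rw [ha]; exact ind_le_one σ A n
  have hρ12 : ρ = 1 ∨ ρ = 2 := by
    rcases hρ with ⟨_, h⟩ | ⟨_, h⟩
    · exact Or.inr h
    · exact Or.inl h
  rw [SmA_two, SmA_one, SmA_three a ρ hρ12, ← sum_sub_distrib, ← sum_sub_distrib]
  refine (abs_sum_le_sum_abs _ _).trans ?_
  have h2 : ∀ i ∈ range X, |a (2 * i + 1) + a (2 * i + 2) - a (i + 1) - a (3 * i + ρ)| ≤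
      if i < K + 1 then 2 else 0 := by
    intro i _
    by_cases hi : i < K + 1
    · rw [if_pos hi, abs_le]
      have := h0 (2 * i + 1)
      have := h0 (2 * i + 2)
      have := h0 (i + 1)
      have := h0 (3 * i + ρ)
      have := h1 (2 * i + 1)
      have := h1 (2 * i + 2)
      have := h1 (i + 1)
      have := h1 (3 * i + ρ)
      constructor <;> linarith
    · rw [if_neg hi]
      have e1 : a (2 * i + 2) = a (i + 1) := by
        have : 2 * i + 2 = 2 * (i + 1) := by ring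
        rw [this, ha]
        exact Cns_even hσ hA (by omega)
      have e2 : a (2 * i + 1) = a (3 * i + ρ) := by
        rw [ha]
        exact Cns_odd hρ hA (by omega)
      rw [e1, e2]
      have : a (3 * i + ρ) + a (i + 1) - a (i + 1) - a (3 * i + ρ) = 0 := by ring
      rw [this, abs_zero]
  refine (sum_le_sum h2).trans ?_
  rw [← sum_filter, sum_const, nsmul_eq_mul]
  have h3 : ((range X).filter (fun i => i < K + 1)).card ≤ K + 1 := by
    have : (range X).filter (fun i => i < K + 1) ⊆ range (K + 1) := by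
      intro i hi
      rw [mem_range]
      exact (mem_filter.1 hi).2
    have := card_le_card this
    rwa [card_range] at this
  have h4 : (((range X).filter (fun i => i < K + 1)).card : ℝ) ≤ K + 1 := by exact_mod_cast h3
  linarith

/-- `log^B x ≤ C √x`. -/
theorem SmA_log (B : ℕ) : ∃ C : ℝ, 0 < C ∧ ∀ x : ℝ, 1 ≤ x → Real.log x ^ B ≤ C * x ^ (1 / 2 : ℝ) := by
  refine ⟨(2 * (B + 1)) ^ B, by positivity, fun x hx => ?_⟩
  have hx0 : 0 < x := by linarith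
  have hB : (0 : ℝ) < 2 * (B + 1) := by positivity
  have h1 : Real.log x ≤ 2 * (B + 1) * x ^ (1 / (2 * (B + 1) : ℝ)) := by
    have h2 := Real.log_le_rpow_div hx0.le (show 0 < 1 / (2 * (B + 1) : ℝ) by positivity)
    refine h2.trans (le_of_eq ?_)
    rw [div_div_eq_mul_div, div_one, mul_comm]
  have h3 : Real.log x ^ B ≤ (2 * (B + 1) * x ^ (1 / (2 * (B + 1) : ℝ))) ^ B :=
    pow_le_pow_left₀ (Real.log_nonneg hx) h1 B
  refine h3.trans ?_
  rw [mul_pow]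
  apply mul_le_mul_of_nonneg_left _ (by positivity)
  rw [← Real.rpow_natCast (x ^ (1 / (2 * (B + 1) : ℝ))), ← Real.rpow_mul hx0.le]
  apply Real.rpow_le_rpow_of_exponent_le hx
  rw [one_div_mul_eq_div, div_le_div_iff₀ hB (by norm_num)]
  linarith

/-- The functional equation with every power of the logarithm. -/
theorem SmA_nat (B : ℕ) : ∃ δ C : ℝ, 0 < δ ∧ 0 < C ∧ ∀ (σ : ℤ) (K : ℕ) (A : Set ℤ) (X : ℕ),
    σ = 1 ∨ σ = -1 → EvInv K A → 2 ≤ X → (K : ℝ) ≤ (X : ℝ) ^ δ →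
    |(N σ A (3 * X) 1 0 : ℝ) / 3 - N σ A (2 * X) 1 0 + N σ A X 1 0| ≤ C * X / Real.log X ^ B := by
  obtain ⟨δ, hδ, C, hE⟩ := Pool.Agent.SLD.all_ALE B
  obtain ⟨C₁, hC₁⟩ : ∃ C₁ : ℝ, C₁ = max C 0 := ⟨_, rfl⟩
  have hC₁0 : 0 ≤ C₁ := by rw [hC₁]; exact le_max_right _ _
  obtain ⟨C₂, hC₂, hl⟩ := SmA_log B
  obtain ⟨X₀, hX₀1, hX₀⟩ : ∃ X₀ : ℕ, 2 ≤ X₀ ∧ ∀ m : ℕ, X₀ ≤ m → (3 : ℝ) ≤ (m : ℝ) ^ δ := by
    obtain ⟨X₀, h⟩ := exists_nat_ge ((3 : ℝ) ^ (1 / δ))
    refine ⟨max X₀ 2, le_max_right _ _, fun m hm => ?_⟩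
    have h1 : (3 : ℝ) ^ (1 / δ) ≤ (m : ℝ) :=
      h.trans (by exact_mod_cast (le_max_left _ _).trans hm)
    calc (3 : ℝ) = ((3 : ℝ) ^ (1 / δ)) ^ δ := by
          rw [← Real.rpow_mul (by norm_num), one_div, inv_mul_cancel₀ hδ.ne', Real.rpow_one]
      _ ≤ (m : ℝ) ^ δ := Real.rpow_le_rpow (by positivity) h1 hδ.le
  refine ⟨min δ (1 / 2), 4 * Real.log X₀ ^ B + C₁ + 4 * C₂ + 1, lt_min hδ (by norm_num),
    by positivity, ?_⟩
  intro σ K A X hσ hA hX hK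
  have hXR : (2 : ℝ) ≤ X := by exact_mod_cast hX
  have hX0 : (0 : ℝ) < X := by linarith
  have hlX : 0 < Real.log X := Real.log_pos (by linarith)
  have hlXB : 0 < Real.log X ^ B := by positivity
  rw [le_div_iff₀ hlXB]
  rcases Nat.lt_or_ge X X₀ with hsm | hla
  · -- small `X`
    have hb : ∀ Y : ℕ, (0 : ℝ) ≤ N σ A Y 1 0 ∧ (N σ A Y 1 0 : ℝ) ≤ Y := by
      intro Y
      refine ⟨Nat.cast_nonneg _, ?_⟩
      classical
      rw [tr_N hσ]
      have h1 := card_filter_le (Ioc 0 Y) (fun m : ℕ => ((1 : ℕ) : ℤ) ∣ σ * (m : ℤ) - 0 ∧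
        σ * (m : ℤ) ∈ A)
      rw [Nat.card_Ioc, Nat.sub_zero] at h1
      exact_mod_cast h1
    obtain ⟨a1, a2⟩ := hb (3 * X)
    obtain ⟨a3, a4⟩ := hb (2 * X)
    obtain ⟨a5, a6⟩ := hb X
    push_cast at a2 a4
    have e1 : |(N σ A (3 * X) 1 0 : ℝ) / 3 - N σ A (2 * X) 1 0 + N σ A X 1 0| ≤ 4 * X := by
      rw [abs_le]
      constructor <;> linarith
    have e2 : Real.log X ^ B ≤ Real.log X₀ ^ B := by
      apply pow_le_pow_left₀ hlX.le
      apply Real.log_le_log hX0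
      exact_mod_cast hsm.le
    have e3 := mul_le_mul e1 e2 hlXB.le (by positivity : (0 : ℝ) ≤ 4 * X)
    refine e3.trans ?_
    have e4 : (0 : ℝ) ≤ (C₁ + 4 * C₂ + 1) * X := by positivity
    have e5 : 4 * (X : ℝ) * Real.log X₀ ^ B = 4 * Real.log X₀ ^ B * X := by ring
    rw [e5]
    linarith
  · obtain ⟨ρ, hρ⟩ : ∃ ρ : ℕ, (σ = 1 ∧ ρ = 2) ∨ (σ = -1 ∧ ρ = 1) := by
      rcases hσ with h | h
      · exact ⟨2, Or.inl ⟨h, rfl⟩⟩
      · exact ⟨1, Or.inr ⟨h, rfl⟩⟩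
    have h1 := SmA_fe hσ hA hρ X
    have h3X : (X : ℝ) ≤ ((3 * X : ℕ) : ℝ) := by exact_mod_cast (by omega : X ≤ 3 * X)
    have hK3 : (K : ℝ) ≤ ((3 * X : ℕ) : ℝ) ^ δ := by
      refine hK.trans ?_
      calc (X : ℝ) ^ (min δ (1 / 2)) ≤ (X : ℝ) ^ δ :=
            Real.rpow_le_rpow_of_exponent_le (by linarith) (min_le_left _ _)
        _ ≤ ((3 * X : ℕ) : ℝ) ^ δ := Real.rpow_le_rpow hX0.le h3X hδ.le
    have h2 := hE σ 2 K A (3 * X) 3 hσ hA (by omega) hK3 (by decide)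
      (by exact_mod_cast hX₀ (3 * X) (by omega))
    rw [tr_SS hσ, tr_SS hσ, tr_cl hσ A (3 * X) ρ hρ] at h1
    have h3 : |(N σ A (3 * X) 1 0 : ℝ) / 3 - N σ A (2 * X) 1 0 + N σ A X 1 0| ≤
        2 * (K + 1) + C * ((3 * X : ℕ) : ℝ) / (((3 : ℕ) : ℝ) * Real.log ((3 * X : ℕ) : ℝ) ^ B) := by
      have e1 : (N σ A (3 * X) 1 0 : ℝ) / 3 - N σ A (2 * X) 1 0 + N σ A X 1 0 =
          -((N σ A (2 * X) 1 0 : ℝ) - N σ A X 1 0 - N σ A (3 * X) 3 2) -
          ((N σ A (3 * X) 3 2 : ℝ) - N σ A (3 * X) 1 0 / ((3 : ℕ) : ℝ)) := by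
        push_cast
        ring
      rw [e1]
      refine (abs_sub _ _).trans ?_
      rw [abs_neg]
      exact add_le_add h1 h2
    have h4 : C * ((3 * X : ℕ) : ℝ) / (((3 : ℕ) : ℝ) * Real.log ((3 * X : ℕ) : ℝ) ^ B) ≤
        C₁ * X / Real.log X ^ B := by
      have e2 : Real.log X ≤ Real.log ((3 * X : ℕ) : ℝ) := Real.log_le_log hX0 h3X
      have e3 : 0 < Real.log ((3 * X : ℕ) : ℝ) := hlX.trans_le e2
      have e4 : C * ((3 * X : ℕ) : ℝ) / (((3 : ℕ) : ℝ) * Real.log ((3 * X : ℕ) : ℝ) ^ B) =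
          C * X / Real.log ((3 * X : ℕ) : ℝ) ^ B := by
        have e5 : Real.log ((3 * X : ℕ) : ℝ) ≠ 0 := e3.ne'
        push_cast at e5 ⊢
        field_simp
      rw [e4]
      have e6 : C * X / Real.log ((3 * X : ℕ) : ℝ) ^ B ≤
          C₁ * X / Real.log ((3 * X : ℕ) : ℝ) ^ B := by
        apply div_le_div_of_nonneg_right _ (by positivity)
        apply mul_le_mul_of_nonneg_right _ hX0.le
        rw [hC₁]
        exact le_max_left _ _
      refine e6.trans ?_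
      apply div_le_div_of_nonneg_left (by positivity) hlXB
      exact pow_le_pow_left₀ hlX.le e2 B
    have h5 : (2 * ((K : ℝ) + 1)) * Real.log X ^ B ≤ 4 * C₂ * X := by
      have e1 : (K : ℝ) ≤ (X : ℝ) ^ (1 / 2 : ℝ) := by
        refine hK.trans ?_
        exact Real.rpow_le_rpow_of_exponent_le (by linarith) (min_le_right _ _)
      have e2 : (1 : ℝ) ≤ (X : ℝ) ^ (1 / 2 : ℝ) := Real.one_le_rpow (by linarith) (by norm_num)
      have e3 := hl X (by linarith)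
      have e4 : (X : ℝ) ^ (1 / 2 : ℝ) * (X : ℝ) ^ (1 / 2 : ℝ) = X := by
        rw [← Real.rpow_add hX0]
        norm_num
      have e5 : 2 * ((K : ℝ) + 1) ≤ 4 * (X : ℝ) ^ (1 / 2 : ℝ) := by linarith
      calc (2 * ((K : ℝ) + 1)) * Real.log X ^ B
          ≤ (4 * (X : ℝ) ^ (1 / 2 : ℝ)) * (C₂ * (X : ℝ) ^ (1 / 2 : ℝ)) :=
            mul_le_mul e5 e3 hlXB.le (by positivity)
        _ = 4 * C₂ * ((X : ℝ) ^ (1 / 2 : ℝ) * (X : ℝ) ^ (1 / 2 : ℝ)) := by ring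
        _ = 4 * C₂ * X := by rw [e4]
    have h6 : |(N σ A (3 * X) 1 0 : ℝ) / 3 - N σ A (2 * X) 1 0 + N σ A X 1 0| * Real.log X ^ B ≤
        (2 * (K + 1) + C₁ * X / Real.log X ^ B) * Real.log X ^ B :=
      mul_le_mul_of_nonneg_right (h3.trans (by linarith)) hlXB.le
    refine h6.trans ?_
    rw [add_mul, div_mul_cancel₀ _ hlXB.ne']
    have h7 : (0 : ℝ) ≤ 4 * Real.log X₀ ^ B * X := by
      have : 0 ≤ Real.log X₀ := Real.log_nonneg (by exact_mod_cast (by omega : 1 ≤ X₀))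
      positivity
    linarith

/-- `f(t) = e^(-t) N(e^t)`. -/
noncomputable def fS (σ : ℤ) (A : Set ℤ) (t : ℝ) : ℝ :=
  Real.exp (-t) * (N σ A ⌊Real.exp t⌋₊ 1 0 : ℝ)

theorem SmA_lip {σ : ℤ} (hσ : σ = 1 ∨ σ = -1) (A : Set ℤ) (Y j : ℕ) :
    (N σ A Y 1 0 : ℝ) ≤ N σ A (Y + j) 1 0 ∧ (N σ A (Y + j) 1 0 : ℝ) ≤ N σ A Y 1 0 + j := by
  rw [← tr_SS hσ, ← tr_SS hσ]
  induction j with
  | zero => simp
  | succ j ih =>
    obtain ⟨h1, h2⟩ := ih
    rw [← add_assoc, SS_succ]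
    have h3 := ind_nonneg σ A (Y + j + 1)
    have h4 := ind_le_one σ A (Y + j + 1)
    push_cast
    constructor <;> linarith

/-- [SmA] The functional equation on the real line. -/
theorem smA (B : ℕ) : ∃ δ C : ℝ, 0 < δ ∧ 0 < C ∧ ∀ (σ : ℤ) (K : ℕ) (A : Set ℤ) (t : ℝ),
    σ = 1 ∨ σ = -1 → EvInv K A → 1 ≤ t → (K : ℝ) ≤ Real.exp (δ * t) →
    |fS σ A (t + Real.log 3) - 2 * fS σ A (t + Real.log 2) + fS σ A t| ≤ C / t ^ B := by
  obtain ⟨δ, C, hδ, hC, hN⟩ := SmA_nat B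
  refine ⟨δ / 2, C * 2 ^ B + 2 * B.factorial, by positivity, by positivity, ?_⟩
  intro σ K A t hσ hA ht hK
  obtain ⟨X, hX⟩ : ∃ X, X = ⌊Real.exp t⌋₊ := ⟨_, rfl⟩
  have he0 : 0 < Real.exp t := Real.exp_pos t
  have he2 : (2 : ℝ) ≤ Real.exp t := by
    have := Real.add_one_le_exp t
    linarith
  have hX1 : (X : ℝ) ≤ Real.exp t := by rw [hX]; exact Nat.floor_le he0.le
  have hX2 : Real.exp t < X + 1 := by rw [hX]; exact Nat.lt_floor_add_one _
  have hX3 : 2 ≤ X := by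
    rw [hX]
    exact Nat.le_floor (by exact_mod_cast he2)
  have hXR : (2 : ℝ) ≤ X := by exact_mod_cast hX3
  have hX0 : (0 : ℝ) < X := by linarith
  have hsq : Real.exp t ≤ (X : ℝ) ^ 2 := by nlinarith
  have hlog : t / 2 ≤ Real.log X := by
    have h1 := Real.log_le_log he0 hsq
    rw [Real.log_exp, Real.log_pow] at h1
    push_cast at h1
    linarith
  have hKX : (K : ℝ) ≤ (X : ℝ) ^ δ := by
    refine hK.trans ?_
    have h1 : Real.exp (δ / 2 * t) = (Real.exp t) ^ (δ / 2) := by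
      rw [← Real.exp_mul]
      congr 1
      ring
    rw [h1]
    have h2 : (Real.exp t) ^ (δ / 2) ≤ ((X : ℝ) ^ 2) ^ (δ / 2) :=
      Real.rpow_le_rpow he0.le hsq (by positivity)
    refine h2.trans (le_of_eq ?_)
    rw [← Real.rpow_natCast, ← Real.rpow_mul hX0.le]
    congr 1
    push_cast
    ring
  have hmain := hN σ K A X hσ hA hX3 hKX
  -- the floors
  obtain ⟨j₂, hj₂, hf₂⟩ : ∃ j, j ≤ 1 ∧ ⌊2 * Real.exp t⌋₊ = 2 * X + j := by
    have h1 : 2 * X ≤ ⌊2 * Real.exp t⌋₊ := Nat.le_floor (by push_cast; linarith)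
    have h2 : ⌊2 * Real.exp t⌋₊ < 2 * X + 2 := by
      rw [Nat.floor_lt (by positivity)]
      push_cast
      linarith
    exact ⟨⌊2 * Real.exp t⌋₊ - 2 * X, by omega, by omega⟩
  obtain ⟨j₃, hj₃, hf₃⟩ : ∃ j, j ≤ 2 ∧ ⌊3 * Real.exp t⌋₊ = 3 * X + j := by
    have h1 : 3 * X ≤ ⌊3 * Real.exp t⌋₊ := Nat.le_floor (by push_cast; linarith)
    have h2 : ⌊3 * Real.exp t⌋₊ < 3 * X + 3 := by
      rw [Nat.floor_lt (by positivity)]
      push_cast
      linarith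
    exact ⟨⌊3 * Real.exp t⌋₊ - 3 * X, by omega, by omega⟩
  obtain ⟨a1, a2⟩ := SmA_lip hσ A (2 * X) j₂
  obtain ⟨b1, b2⟩ := SmA_lip hσ A (3 * X) j₃
  have hj₂' : (j₂ : ℝ) ≤ 1 := by exact_mod_cast hj₂
  have hj₃' : (j₃ : ℝ) ≤ 2 := by exact_mod_cast hj₃
  have e2 : Real.exp (t + Real.log 2) = 2 * Real.exp t := by
    rw [Real.exp_add, Real.exp_log (by norm_num), mul_comm]
  have e3 : Real.exp (t + Real.log 3) = 3 * Real.exp t := by
    rw [Real.exp_add, Real.exp_log (by norm_num), mul_comm]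
  have e : fS σ A (t + Real.log 3) - 2 * fS σ A (t + Real.log 2) + fS σ A t =
      Real.exp (-t) * ((N σ A (3 * X + j₃) 1 0 : ℝ) / 3 - N σ A (2 * X + j₂) 1 0 + N σ A X 1 0) := by
    unfold fS
    rw [Real.exp_neg (t + Real.log 2), Real.exp_neg (t + Real.log 3), Real.exp_neg t, e2, e3, hf₂,
      hf₃, ← hX]
    field_simp
  rw [e, abs_mul, abs_of_pos (Real.exp_pos _)]
  have h1 : |(N σ A (3 * X + j₃) 1 0 : ℝ) / 3 - N σ A (2 * X + j₂) 1 0 + N σ A X 1 0| ≤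
      C * X / Real.log X ^ B + 2 := by
    rw [abs_le] at hmain ⊢
    constructor <;> linarith [hmain.1, hmain.2]
  have htB : 0 < t ^ B := by positivity
  have hlXB : 0 < Real.log X ^ B := by
    have : 0 < Real.log X := by linarith
    positivity
  have h2 : C * X / Real.log X ^ B ≤ C * Real.exp t * (2 ^ B / t ^ B) := by
    have g1 : (t / 2) ^ B ≤ Real.log X ^ B := pow_le_pow_left₀ (by positivity) hlog B
    have g2 : 1 / Real.log X ^ B ≤ 2 ^ B / t ^ B := by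
      have g3 : (2 : ℝ) ^ B / t ^ B = 1 / (t / 2) ^ B := by
        rw [div_pow, one_div_div]
      rw [g3]
      exact one_div_le_one_div_of_le (by positivity) g1
    calc C * X / Real.log X ^ B = C * X * (1 / Real.log X ^ B) := by ring
      _ ≤ C * Real.exp t * (2 ^ B / t ^ B) := by
          apply mul_le_mul _ g2 (by positivity) (by positivity)
          exact mul_le_mul_of_nonneg_left hX1 hC.le
  have h3 : Real.exp (-t) ≤ B.factorial / t ^ B := by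
    have g1 := Real.pow_div_factorial_le_exp t (by linarith) B
    rw [Real.exp_neg, inv_le_comm₀ he0 (by positivity), inv_div]
    exact g1
  calc Real.exp (-t) * |(N σ A (3 * X + j₃) 1 0 : ℝ) / 3 - N σ A (2 * X + j₂) 1 0 + N σ A X 1 0|
      ≤ Real.exp (-t) * (C * Real.exp t * (2 ^ B / t ^ B) + 2) :=
        mul_le_mul_of_nonneg_left (h1.trans (by linarith)) (Real.exp_pos _).le
    _ = (Real.exp (-t) * Real.exp t) * (C * 2 ^ B / t ^ B) + 2 * Real.exp (-t) := by ring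
    _ = C * 2 ^ B / t ^ B + 2 * Real.exp (-t) := by
        rw [← Real.exp_add, neg_add_cancel, Real.exp_zero, one_mul]
    _ ≤ C * 2 ^ B / t ^ B + 2 * (B.factorial / t ^ B) := by linarith
    _ = (C * 2 ^ B + 2 * B.factorial) / t ^ B := by ring

end Pool.Agent.RTE
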