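import Pool.Agent.RTE.St

/-!
RTE, smooth weights: definitions and statements (helper20).
For smooth weights the density of an invariant set is attained with an error `O((log x) ^ (-B))` for every `B`.
-/

set_option autoImplicit false
set_option linter.unusedVariables false

namespace Pool.Agent.RTE

open Finset Filter Topology MeasureTheory
open Pool.Agent.SLD (N EvInv T)

/-- iterated differences: `Dl [h₁, .., h_m] u = D_{h₁} .. D_{h_m} u`, `D_h u t = u (t + h) - u t` -/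
def Dl : List ℝ → (ℝ → ℝ) → ℝ → ℝ
  | [], u => u
  | h :: l, u => fun t => Dl l u (t + h) - Dl l u t

/-- `Λ u (t) = u (t + log 3) - 2 u (t + log 2) + u t` -/
noncomputable def Lam (u : ℝ → ℝ) (t : ℝ) : ℝ :=
  u (t + Real.log 3) - 2 * u (t + Real.log 2) + u t

/-- the weighted mean -/
noncomputable def Cv (f ψ : ℝ → ℝ) (t : ℝ) : ℝ := ∫ v, f (t + v) * ψ v

/-- [BIN] binomial smoothing: for bounded `g`, `∑ choose k a (g (a + 1) - g a) = O(2 ^ k / sqrt k)`. -/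
def St_BIN : Prop :=
  ∃ C : ℝ, 0 < C ∧ ∀ (k : ℕ) (g : ℕ → ℝ) (M : ℝ), 1 ≤ k → (∀ a : ℕ, |g a| ≤ M) →
    |∑ a ∈ range (k + 1), (k.choose a : ℝ) * (g (a + 1) - g a)| ≤ C * M * 2 ^ k / Real.sqrt k

/-- [ITR] iterating `u t = (u (t - log 2) + u (t - log 2 + log 3)) / 2 - Λ u (t - log 2) / 2`. -/
def St_ITR : Prop :=
  ∀ (u : ℝ → ℝ) (ε s₀ : ℝ), (∀ s : ℝ, s₀ ≤ s → |Lam u s| ≤ ε) → ∀ (k : ℕ) (t : ℝ),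
    s₀ + k * Real.log 2 ≤ t →
    |u t - (∑ a ∈ range (k + 1), (k.choose a : ℝ) * u (t - k * Real.log 2 + a * Real.log 3)) / 2 ^ k| ≤
      k * ε

/-- [OS] one step (from BIN, ITR, NET). -/
def St_OS : Prop :=
  ∃ c C : ℝ, 0 < c ∧ c ≤ 1 ∧ 0 < C ∧ ∀ (τ M : ℝ) (u : ℝ → ℝ), 2 ≤ τ → 0 ≤ M →
    (∀ s : ℝ, τ ≤ s → |u s| ≤ M) →
    (∀ s s' : ℝ, τ ≤ s → s ≤ s' → |u s' - u s| ≤ M * (s' - s)) →
    (∀ s : ℝ, τ ≤ s → |Lam u s| ≤ M / τ ^ 2) →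
    ∀ h t : ℝ, 0 ≤ h → h ≤ Real.log 3 → 3 * τ ≤ t → |u (t + h) - u t| ≤ C * M / τ ^ c

/-- [INV] inversion.  `I t = ∫ s in t..t + log 3, u s - 2 ∫ s in t..t + log 2, u s` has derivative `Λ u t` and limit 0, so
`|I t| ≤ E / t ^ p` (`I t ± E / t ^ p` is monotone), and `I t = - log (4 / 3) u t + ∫ (u (t + h) - u t) - 2 ∫ ..`. -/
def St_INV : Prop :=
  ∃ C : ℝ, 0 < C ∧ ∀ (u : ℝ → ℝ) (E t D : ℝ) (p : ℕ), Continuous u → Tendsto u atTop (𝓝 0) → 1 ≤ p → 1 ≤ t →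
    0 ≤ E → (∀ s : ℝ, t ≤ s → |Lam u s| ≤ E / s ^ (p + 1)) →
    (∀ h : ℝ, 0 ≤ h → h ≤ Real.log 3 → |u (t + h) - u t| ≤ D) → |u t| ≤ C * (D + E / t ^ p)

/-- [CORE] the abstract theorem. -/
def St_CORE : Prop :=
  ∀ (ψ : ℝ → ℝ), ContDiff ℝ (⊤ : ℕ∞) ψ → HasCompactSupport ψ → ∀ B : ℕ, ∃ (B' : ℕ) (θ : ℝ), 1 ≤ θ ∧
    ∀ E : ℝ, ∃ C : ℝ, 0 < C ∧ ∀ (f : ℝ → ℝ) (d T : ℝ), Measurable f → (∀ t, |f t| ≤ 1) → 1 ≤ T →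
      (∀ s : ℝ, T ≤ s → |Lam f s| ≤ E / s ^ B') → Tendsto f atTop (𝓝 d) →
      ∀ t : ℝ, θ * T ≤ t → |Cv f ψ t - d * ∫ v, ψ v| ≤ C / t ^ B

/-- `f (t) = e ^ (-t) N (⌊e ^ t⌋)` -/
noncomputable def fN (σ : ℤ) (A : Set ℤ) (t : ℝ) : ℝ := (N σ A ⌊Real.exp t⌋₊ 1 0 : ℝ) / Real.exp t

/-- [SMA] the functional equation with every power of the logarithm (ALE with `q = 3`; `2 n ∈ A ↔ n ∈ A`,
`2 n + 1 ∈ A ↔ 3 n + 2 ∈ A`). -/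
def St_SMA : Prop :=
  ∀ B : ℕ, ∃ δ E : ℝ, 0 < δ ∧ ∀ (σ : ℤ) (K : ℕ) (A : Set ℤ) (s : ℝ), σ = 1 ∨ σ = -1 → EvInv K A →
    1 ≤ s → (K : ℝ) ≤ Real.exp (δ * s) → |Lam (fN σ A) s| ≤ E / s ^ B

open Classical in
/-- [SMB] summation by parts, `ψ v = - e ^ (2 v) φ' (e ^ v)`. -/
def St_SMB : Prop :=
  ∀ (φ : ℝ → ℝ), ContDiff ℝ (⊤ : ℕ∞) φ → HasCompactSupport φ → (∃ r : ℝ, 0 < r ∧ ∀ u : ℝ, u ≤ r → φ u = 0) →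
    ∃ ψ : ℝ → ℝ, ContDiff ℝ (⊤ : ℕ∞) ψ ∧ HasCompactSupport ψ ∧ ∫ v, ψ v = ∫ u, φ u ∧
      ∀ (σ : ℤ) (A : Set ℤ) (x : ℝ), σ = 1 ∨ σ = -1 → 0 < x →
        ∑' n : ℕ, (if σ * (n : ℤ) ∈ A then φ (n / x) else 0) = x * Cv (fN σ A) ψ (Real.log x)

open Classical in
/-- [SMOOTH] the theorem. -/
def St_SMOOTH : Prop :=
  ∀ (φ : ℝ → ℝ), ContDiff ℝ (⊤ : ℕ∞) φ → HasCompactSupport φ → (∃ r : ℝ, 0 < r ∧ ∀ u : ℝ, u ≤ r → φ u = 0) →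
    ∀ B : ℕ, ∃ δ C : ℝ, 0 < δ ∧ 0 < C ∧ ∀ (σ : ℤ) (K : ℕ) (A : Set ℤ) (d x : ℝ), σ = 1 ∨ σ = -1 →
      EvInv K A → Tendsto (fun Y : ℕ => (N σ A Y 1 0 : ℝ) / Y) atTop (𝓝 d) → 2 ≤ x → (K : ℝ) ≤ x ^ δ →
      |∑' n : ℕ, (if σ * (n : ℤ) ∈ A then φ (n / x) else 0) - d * x * ∫ u, φ u| ≤
        C * x / Real.log x ^ B

end Pool.Agent.RTE
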