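import Pool.Agent.RTE.SmA
import Pool.Agent.RTE.SmSt

set_option autoImplicit false

/-!
# RTE, module SmAT: the statement [SMA]
-/

namespace Pool.Agent.RTE

open Pool.Agent.SLD (N EvInv T)

/-- [SMA] -/
theorem thm_SMA : St_SMA := by
  intro B
  obtain ⟨δ, C, hδ, _, h⟩ := smA B
  refine ⟨δ, C, hδ, fun σ K A s hσ hA hs hK => ?_⟩
  have e : ∀ t : ℝ, fN σ A t = fS σ A t := by
    intro t
    unfold fN fS
    rw [Real.exp_neg, div_eq_inv_mul]
  unfold Lam
  rw [e, e, e]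
  exact h σ K A s hσ hA hs hK

end Pool.Agent.RTE
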