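import Pool.Agent.RTE.SmSt

/-!
RTE, smooth weights: modules BIN and ITR (helper20).
-/

set_option autoImplicit false

namespace Pool.Agent.RTE

open Finset

private theorem BIN_up (c g : ℕ → ℝ) (M : ℝ) (hg : ∀ a, |g a| ≤ M) (h0 : 0 ≤ c 0) :
    ∀ p : ℕ, (∀ a, a < p → c a ≤ c (a + 1)) →
      |∑ a ∈ range p, c a * (g (a + 1) - g a) - c p * g p| ≤ c p * M := by
  intro p
  induction p with
  | zero =>
    intro _
    rw [Finset.range_zero, Finset.sum_empty, zero_sub, abs_neg, abs_mul, abs_of_nonneg h0]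
    exact mul_le_mul_of_nonneg_left (hg 0) h0
  | succ p ih =>
    intro h
    have h1 := ih fun a ha => h a (by omega)
    have h2 := h p (by omega)
    have h3 : |(c (p + 1) - c p) * g (p + 1)| ≤ (c (p + 1) - c p) * M := by
      rw [abs_mul, abs_of_nonneg (by linarith)]
      exact mul_le_mul_of_nonneg_left (hg _) (by linarith)
    rw [Finset.sum_range_succ]
    have h4 : ∑ a ∈ range p, c a * (g (a + 1) - g a) + c p * (g (p + 1) - g p) -
        c (p + 1) * g (p + 1) = (∑ a ∈ range p, c a * (g (a + 1) - g a) - c p * g p) -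
          (c (p + 1) - c p) * g (p + 1) := by ring
    rw [h4]
    refine (abs_sub _ _).trans ?_
    linarith

private theorem BIN_down (c g : ℕ → ℝ) (M : ℝ) (hg : ∀ a, |g a| ≤ M) (p : ℕ) :
    ∀ q : ℕ, p ≤ q → (∀ a, p ≤ a → a < q → c (a + 1) ≤ c a) →
      |∑ a ∈ Ico p q, c a * (g (a + 1) - g a) - c q * g q + c p * g p| ≤ (c p - c q) * M := by
  intro q hq
  induction q, hq using Nat.le_induction with
  | base => intro _; simp
  | succ q hq ih =>
    intro h
    have h1 := ih fun a ha ha' => h a ha (by omega)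
    have h2 := h q hq (by omega)
    have h3 : |(c q - c (q + 1)) * g (q + 1)| ≤ (c q - c (q + 1)) * M := by
      rw [abs_mul, abs_of_nonneg (by linarith)]
      exact mul_le_mul_of_nonneg_left (hg _) (by linarith)
    rw [Finset.sum_Ico_succ_top hq]
    have h4 : ∑ a ∈ Ico p q, c a * (g (a + 1) - g a) + c q * (g (q + 1) - g q) -
        c (q + 1) * g (q + 1) + c p * g p =
        (∑ a ∈ Ico p q, c a * (g (a + 1) - g a) - c q * g q + c p * g p) +
          (c q - c (q + 1)) * g (q + 1) := by ring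
    rw [h4]
    refine (abs_add_le _ _).trans ?_
    linarith

private theorem BIN_cb : ∀ n : ℕ, (2 * n + 1) * n.centralBinom ^ 2 ≤ 16 ^ n := by
  intro n
  induction n with
  | zero => simp
  | succ n ih =>
    have h1 := Nat.succ_mul_centralBinom_succ n
    have h2 : 0 < (n + 1) ^ 2 := by positivity
    suffices h3 : (n + 1) ^ 2 * ((2 * (n + 1) + 1) * (n + 1).centralBinom ^ 2) ≤
        (n + 1) ^ 2 * 16 ^ (n + 1) from Nat.le_of_mul_le_mul_left h3 h2
    calc (n + 1) ^ 2 * ((2 * (n + 1) + 1) * (n + 1).centralBinom ^ 2)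
        = (2 * n + 3) * ((n + 1) * (n + 1).centralBinom) ^ 2 := by ring
      _ = (2 * n + 3) * (2 * (2 * n + 1) * n.centralBinom) ^ 2 := by rw [h1]
      _ = 4 * (2 * n + 3) * (2 * n + 1) * ((2 * n + 1) * n.centralBinom ^ 2) := by ring
      _ ≤ 4 * (2 * n + 3) * (2 * n + 1) * 16 ^ n := Nat.mul_le_mul_left _ ih
      _ ≤ (n + 1) ^ 2 * 16 ^ (n + 1) := by
        have h4 : (n + 1) ^ 2 * 16 ^ (n + 1) = ((n + 1) ^ 2 * 16) * 16 ^ n := by
          rw [pow_succ 16 n]; ring
        rw [h4]
        refine Nat.mul_le_mul_right _ ?_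
        nlinarith

private theorem BIN_half (k : ℕ) : k * (k.choose (k / 2)) ^ 2 ≤ 4 ^ k := by
  obtain ⟨n, hn⟩ := Nat.even_or_odd' k
  have h16 : (16 : ℕ) ^ n = 4 ^ (2 * n) := by rw [pow_mul]; norm_num
  rcases hn with rfl | rfl
  · have h1 : 2 * n / 2 = n := by omega
    rw [h1, ← h16]
    refine le_trans ?_ (BIN_cb n)
    rw [Nat.centralBinom_eq_two_mul_choose]
    exact Nat.mul_le_mul_right _ (by omega)
  · have h1 : (2 * n + 1) / 2 = n := by omega
    rw [h1]
    have h2 : (2 * n + 1).choose n ≤ 2 * (2 * n).choose n := by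
      rcases Nat.eq_zero_or_pos n with rfl | hn
      · simp
      · obtain ⟨m, rfl⟩ : ∃ m, n = m + 1 := ⟨n - 1, by omega⟩
        have h3 : (2 * (m + 1)).choose m ≤ (2 * (m + 1)).choose (m + 1) :=
          Nat.choose_le_succ_of_lt_half_left (by omega)
        have h4 : (2 * (m + 1) + 1).choose (m + 1) = (2 * (m + 1)).choose m +
            (2 * (m + 1)).choose (m + 1) := Nat.choose_succ_succ _ _
        omega
    calc (2 * n + 1) * (2 * n + 1).choose n ^ 2 ≤ (2 * n + 1) * (2 * (2 * n).choose n) ^ 2 :=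
          Nat.mul_le_mul_left _ (Nat.pow_le_pow_left h2 2)
      _ = 4 * ((2 * n + 1) * n.centralBinom ^ 2) := by
          rw [Nat.centralBinom_eq_two_mul_choose]; ring
      _ ≤ 4 * 16 ^ n := Nat.mul_le_mul_left _ (BIN_cb n)
      _ = 4 ^ (2 * n + 1) := by rw [h16, pow_succ]; ring

theorem thm_BIN : St_BIN := by
  refine ⟨2, by norm_num, ?_⟩
  intro k g M hk hg
  have hM : 0 ≤ M := (abs_nonneg _).trans (hg 0)
  have hk0 : (0 : ℝ) < k := by exact_mod_cast hk
  set c : ℕ → ℝ := fun a => (k.choose a : ℝ) with hc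
  have h1 := BIN_up c g M hg (Nat.cast_nonneg _) (k / 2) fun a ha => by
    have := Nat.choose_le_succ_of_lt_half_left ha
    simp only [hc]
    exact_mod_cast this
  have h2 := BIN_down c g M hg (k / 2) (k + 1) (by omega) fun a ha ha' => by
    have h3 := Nat.choose_succ_right_eq k a
    have h4 : k - a ≤ a + 1 := by omega
    have h5 : k.choose (a + 1) * (a + 1) ≤ k.choose a * (a + 1) := by
      rw [h3]; exact Nat.mul_le_mul_left _ h4
    have h6 : k.choose (a + 1) ≤ k.choose a := Nat.le_of_mul_le_mul_right h5 (by omega)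
    simp only [hc]
    exact_mod_cast h6
  have h3 : c (k + 1) = 0 := by simp [hc]
  have h4 : ∑ a ∈ range (k + 1), c a * (g (a + 1) - g a) =
      ∑ a ∈ range (k / 2), c a * (g (a + 1) - g a) +
        ∑ a ∈ Ico (k / 2) (k + 1), c a * (g (a + 1) - g a) := by
    rw [Finset.range_eq_Ico, Finset.range_eq_Ico, Finset.sum_Ico_consecutive _ (by omega) (by omega)]
  have h5 : |∑ a ∈ range (k + 1), c a * (g (a + 1) - g a)| ≤ 2 * c (k / 2) * M := by
    rw [h4]
    rw [h3] at h2
    rw [abs_le] at h1 h2 ⊢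
    constructor <;> linarith [h1.1, h1.2, h2.1, h2.2]
  have h6 : c (k / 2) ≤ 2 ^ k / Real.sqrt k := by
    have h7 : (k : ℝ) * c (k / 2) ^ 2 ≤ 4 ^ k := by
      simp only [hc]
      exact_mod_cast BIN_half k
    rw [le_div_iff₀ (Real.sqrt_pos.2 hk0)]
    refine le_of_sq_le_sq ?_ (by positivity)
    rw [mul_pow, Real.sq_sqrt hk0.le, ← pow_mul, mul_comm k 2, pow_mul]
    norm_num
    linarith
  calc |∑ a ∈ range (k + 1), c a * (g (a + 1) - g a)| ≤ 2 * c (k / 2) * M := h5
    _ ≤ 2 * (2 ^ k / Real.sqrt k) * M := by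
        refine mul_le_mul_of_nonneg_right ?_ hM
        linarith
    _ = 2 * M * 2 ^ k / Real.sqrt k := by ring

private theorem ITR_pascal (k : ℕ) (g : ℕ → ℝ) :
    ∑ a ∈ range (k + 1 + 1), ((k + 1).choose a : ℝ) * g a =
      ∑ a ∈ range (k + 1), (k.choose a : ℝ) * (g a + g (a + 1)) := by
  rw [Finset.sum_range_succ' _ (k + 1)]
  have h1 : ∑ a ∈ range (k + 1), ((k + 1).choose (a + 1) : ℝ) * g (a + 1) =
      ∑ a ∈ range (k + 1), (k.choose a : ℝ) * g (a + 1) +
        ∑ a ∈ range (k + 1), (k.choose (a + 1) : ℝ) * g (a + 1) := by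
    rw [← Finset.sum_add_distrib]
    refine Finset.sum_congr rfl fun a _ => ?_
    rw [Nat.choose_succ_succ]
    push_cast
    ring
  have h2 : ∑ a ∈ range (k + 1), (k.choose a : ℝ) * g a =
      ∑ a ∈ range (k + 1), (k.choose (a + 1) : ℝ) * g (a + 1) + g 0 := by
    rw [Finset.sum_range_succ' (fun a => (k.choose a : ℝ) * g a) k,
      Finset.sum_range_succ (fun a => (k.choose (a + 1) : ℝ) * g (a + 1)) k]
    simp
  have h3 : ∑ a ∈ range (k + 1), (k.choose a : ℝ) * (g a + g (a + 1)) =
      ∑ a ∈ range (k + 1), (k.choose a : ℝ) * g a +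
        ∑ a ∈ range (k + 1), (k.choose a : ℝ) * g (a + 1) := by
    rw [← Finset.sum_add_distrib]
    exact Finset.sum_congr rfl fun a _ => by ring
  rw [h1, h3, h2]
  simp
  ring

theorem thm_ITR : St_ITR := by
  intro u ε s₀ hu k
  have hε : 0 ≤ ε := (abs_nonneg _).trans (hu s₀ le_rfl)
  have hl2 : 0 < Real.log 2 := Real.log_pos (by norm_num)
  have hl3 : 0 < Real.log 3 := Real.log_pos (by norm_num)
  induction k with
  | zero => intro t _; simp
  | succ k ih =>
    intro t ht
    push_cast at ht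
    have h1 := ih t (by nlinarith)
    have h2 : |(∑ a ∈ range (k + 1), (k.choose a : ℝ) *
        u (t - k * Real.log 2 + a * Real.log 3)) / 2 ^ k -
        (∑ a ∈ range (k + 1 + 1), ((k + 1).choose a : ℝ) *
        u (t - ((k + 1 : ℕ) : ℝ) * Real.log 2 + a * Real.log 3)) / 2 ^ (k + 1)| ≤ ε := by
      rw [ITR_pascal k fun a => u (t - ((k + 1 : ℕ) : ℝ) * Real.log 2 + a * Real.log 3)]
      have h3 : (∑ a ∈ range (k + 1), (k.choose a : ℝ) *
          u (t - k * Real.log 2 + a * Real.log 3)) / 2 ^ k -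
          (∑ a ∈ range (k + 1), (k.choose a : ℝ) *
          (u (t - ((k + 1 : ℕ) : ℝ) * Real.log 2 + a * Real.log 3) +
            u (t - ((k + 1 : ℕ) : ℝ) * Real.log 2 + ((a + 1 : ℕ) : ℝ) * Real.log 3))) / 2 ^ (k + 1) =
          (∑ a ∈ range (k + 1), (k.choose a : ℝ) *
            (-(Lam u (t - ((k + 1 : ℕ) : ℝ) * Real.log 2 + a * Real.log 3)) / 2)) / 2 ^ k := by
        have h2k : (2 : ℝ) ^ k ≠ 0 := by positivity
        have h9 : ∀ x y z : ℝ, (2 * x - y = 2 * z) → x / 2 ^ k - y / 2 ^ (k + 1) = z / 2 ^ k := by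
          intro x y z h
          rw [pow_succ]
          field_simp
          linarith
        apply h9
        rw [Finset.mul_sum, ← Finset.sum_sub_distrib, Finset.mul_sum]
        refine Finset.sum_congr rfl fun a _ => ?_
        unfold Lam
        have e1 : t - ((k + 1 : ℕ) : ℝ) * Real.log 2 + a * Real.log 3 + Real.log 3 =
            t - ((k + 1 : ℕ) : ℝ) * Real.log 2 + ((a + 1 : ℕ) : ℝ) * Real.log 3 := by
          push_cast; ring
        have e2 : t - ((k + 1 : ℕ) : ℝ) * Real.log 2 + a * Real.log 3 + Real.log 2 =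
            t - k * Real.log 2 + a * Real.log 3 := by
          push_cast; ring
        rw [e1, e2]
        ring
      rw [h3, abs_div, abs_of_pos (show (0 : ℝ) < 2 ^ k by positivity), div_le_iff₀ (by positivity)]
      refine (Finset.abs_sum_le_sum_abs _ _).trans ?_
      calc ∑ a ∈ range (k + 1), |(k.choose a : ℝ) *
            (-(Lam u (t - ((k + 1 : ℕ) : ℝ) * Real.log 2 + a * Real.log 3)) / 2)|
          ≤ ∑ a ∈ range (k + 1), (k.choose a : ℝ) * ε := by
            refine Finset.sum_le_sum fun a _ => ?_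
            rw [abs_mul, abs_of_nonneg (Nat.cast_nonneg (α := ℝ) _)]
            refine mul_le_mul_of_nonneg_left ?_ (Nat.cast_nonneg _)
            rw [abs_div, abs_neg, abs_of_pos (show (0 : ℝ) < 2 by norm_num)]
            have h4 : s₀ ≤ t - ((k + 1 : ℕ) : ℝ) * Real.log 2 + a * Real.log 3 := by
              have : 0 ≤ (a : ℝ) * Real.log 3 := by positivity
              push_cast
              linarith
            have h5 := hu _ h4
            linarith
        _ = ε * 2 ^ k := by
            rw [← Finset.sum_mul]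
            have h6 : ∑ a ∈ range (k + 1), (k.choose a : ℝ) = 2 ^ k := by
              exact_mod_cast Nat.sum_range_choose k
            rw [h6, mul_comm]
    have h7 := abs_add_le (u t - (∑ a ∈ range (k + 1), (k.choose a : ℝ) *
        u (t - k * Real.log 2 + a * Real.log 3)) / 2 ^ k)
        ((∑ a ∈ range (k + 1), (k.choose a : ℝ) *
        u (t - k * Real.log 2 + a * Real.log 3)) / 2 ^ k -
        (∑ a ∈ range (k + 1 + 1), ((k + 1).choose a : ℝ) *
        u (t - ((k + 1 : ℕ) : ℝ) * Real.log 2 + a * Real.log 3)) / 2 ^ (k + 1))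
    rw [sub_add_sub_cancel] at h7
    refine h7.trans ?_
    push_cast at h2 ⊢
    linarith

end Pool.Agent.RTE
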