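import Mathlib

/-! RTE, module SmB (helper77): sums with smooth weights as a convolution. -/

set_option autoImplicit false
set_option linter.unusedVariables false

namespace Pool.Agent.RTE

open Finset Filter Topology MeasureTheory

/-- the normalised summatory function on the logarithmic scale -/
noncomputable def smf (a : ℕ → ℝ) (t : ℝ) : ℝ := Real.exp (-t) * ∑ k ∈ Icc 0 ⌊Real.exp t⌋₊, a k

/-- the weight on the logarithmic scale -/
noncomputable def smw (φ : ℝ → ℝ) (v : ℝ) : ℝ := -(Real.exp (2 * v) * deriv φ (Real.exp v))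

/-- the change of variables -/
private theorem sm_exp (g : ℝ → ℝ) :
    ∫ t in Set.Ioi (0 : ℝ), g t = ∫ s : ℝ, Real.exp s * g (Real.exp s) := by
  have h := MeasureTheory.integral_image_eq_integral_abs_deriv_smul (s := Set.univ) (f := Real.exp)
    (f' := Real.exp) MeasurableSet.univ (fun x _ => (Real.hasDerivAt_exp x).hasDerivWithinAt)
    Real.exp_injective.injOn g
  rw [Set.image_univ, Real.range_exp, MeasureTheory.setIntegral_univ] at h
  rw [h]
  apply MeasureTheory.integral_congr_ae
  filter_upwards with s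
  rw [abs_of_pos (Real.exp_pos s), smul_eq_mul]

private theorem sm_deriv_zero {φ : ℝ → ℝ} {β : ℝ} (h2 : ∀ y, β ≤ y → φ y = 0) {y : ℝ} (hy : β < y) :
    deriv φ y = 0 := by
  have h : φ =ᶠ[𝓝 y] fun _ => 0 := by
    filter_upwards [Ioi_mem_nhds hy] with z hz
    exact h2 z (le_of_lt hz)
  rw [h.deriv_eq]
  simp

theorem smB (a : ℕ → ℝ) {φ : ℝ → ℝ} (hφ : ContDiff ℝ 1 φ) {β : ℝ} (hβ : 0 < β)
    (h2 : ∀ y, β ≤ y → φ y = 0) {x : ℝ} (hx : 0 < x) :
    ∑' n : ℕ, a n * φ (n / x) = x * ∫ v : ℝ, smf a (Real.log x + v) * smw φ v := by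
  classical
  set b : ℝ := β * x with hb
  have hb0 : 0 < b := by positivity
  -- the sum is finite
  have e1 : ∑' n : ℕ, a n * φ (n / x) = ∑ k ∈ Icc 0 ⌊b⌋₊, φ (k / x) * a k := by
    rw [tsum_eq_sum (s := Icc 0 ⌊b⌋₊)]
    · apply Finset.sum_congr rfl
      intro k _
      ring
    · intro n hn
      rw [Finset.mem_Icc] at hn
      push Not at hn
      have h3 : b < n := (Nat.floor_lt hb0.le).1 (hn (Nat.zero_le n))
      rw [h2 _ (by rw [le_div_iff₀ hx]; exact h3.le), mul_zero]
  have hd : ∀ t : ℝ, HasDerivAt (fun t : ℝ => φ (t / x)) (deriv φ (t / x) / x) t := by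
    intro t
    have h3 : HasDerivAt φ (deriv φ (t / x)) (t / x) :=
      (hφ.differentiable (by norm_num)).differentiableAt.hasDerivAt
    have h4 : HasDerivAt (fun t : ℝ => t / x) (1 / x) t := (hasDerivAt_id t).div_const x
    have h5 := h3.comp t h4
    simp only [mul_one_div] at h5
    exact h5
  have hderiv : deriv (fun t : ℝ => φ (t / x)) = fun t => deriv φ (t / x) / x :=
    funext fun t => (hd t).deriv
  have hcont : Continuous (fun t : ℝ => deriv φ (t / x) / x) := by
    have := hφ.continuous_deriv (by norm_num)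
    fun_prop
  have e2 := sum_mul_eq_sub_integral_mul a (f := fun t : ℝ => φ (t / x)) hb0.le
    (fun t _ => (hd t).differentiableAt)
    (by rw [hderiv]; exact hcont.continuousOn.integrableOn_Icc)
  have e3 : φ (b / x) = 0 := h2 _ (by rw [hb]; field_simp; exact le_rfl)
  rw [hderiv] at e2
  simp only [e3, zero_mul, zero_sub] at e2
  rw [e1, e2]
  -- extend the integral
  have e4 : ∫ t in Set.Ioc 0 b, deriv φ (t / x) / x * ∑ k ∈ Icc 0 ⌊t⌋₊, a k =
      ∫ t in Set.Ioi (0 : ℝ), deriv φ (t / x) / x * ∑ k ∈ Icc 0 ⌊t⌋₊, a k := by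
    symm
    apply MeasureTheory.setIntegral_eq_of_subset_of_forall_sdiff_eq_zero measurableSet_Ioi
      Set.Ioc_subset_Ioi_self
    intro t ht
    have h3 : b < t := by
      by_contra h
      push Not at h
      exact ht.2 ⟨ht.1, h⟩
    rw [sm_deriv_zero h2 (by rw [lt_div_iff₀ hx]; exact h3)]
    ring
  rw [e4, sm_exp, ← MeasureTheory.integral_const_mul, ← MeasureTheory.integral_neg]
  rw [← MeasureTheory.integral_add_left_eq_self _ (Real.log x)]
  apply MeasureTheory.integral_congr_ae
  filter_upwards with v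
  unfold smf smw
  have h3 : Real.exp (Real.log x + v) = x * Real.exp v := by rw [Real.exp_add, Real.exp_log hx]
  have h4 : Real.exp (-(Real.log x + v)) = 1 / (x * Real.exp v) := by
    rw [Real.exp_neg, h3, one_div]
  have h5 : Real.exp (2 * v) = Real.exp v * Real.exp v := by rw [← Real.exp_add]; ring_nf
  have h6 : x * Real.exp v / x = Real.exp v := by field_simp
  have hev := Real.exp_pos v
  rw [h4, h3, h5, h6]
  field_simp

/-- the mass of the weight -/
theorem smw_integral {φ : ℝ → ℝ} (hφ : ContDiff ℝ 1 φ) (hc : HasCompactSupport φ)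
    (h0 : ∀ y ≤ (0 : ℝ), φ y = 0) : ∫ v : ℝ, smw φ v = ∫ y : ℝ, φ y := by
  have e1 : ∫ v : ℝ, smw φ v = ∫ t in Set.Ioi (0 : ℝ), -(t * deriv φ t) := by
    rw [sm_exp]
    apply MeasureTheory.integral_congr_ae
    filter_upwards with v
    unfold smw
    have h5 : Real.exp (2 * v) = Real.exp v * Real.exp v := by rw [← Real.exp_add]; ring_nf
    rw [h5]
    ring
  have hd0 : ∀ y ≤ (0 : ℝ), y * deriv φ y = 0 := by
    intro y hy
    rcases eq_or_lt_of_le hy with h | h
    · rw [h, zero_mul]
    · have h3 : φ =ᶠ[𝓝 y] fun _ => 0 := by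
        filter_upwards [Iio_mem_nhds h] with z hz
        exact h0 z (le_of_lt hz)
      rw [h3.deriv_eq]
      simp
  have e2 : ∫ t in Set.Ioi (0 : ℝ), -(t * deriv φ t) = ∫ t : ℝ, -(t * deriv φ t) := by
    apply MeasureTheory.setIntegral_eq_integral_of_forall_compl_eq_zero
    intro t ht
    have h3 : t ≤ 0 := by
      by_contra h
      push Not at h
      exact ht h
    rw [hd0 t h3, neg_zero]
  have hdc : Continuous (deriv φ) := hφ.continuous_deriv (by norm_num)
  have e3 : ∫ t : ℝ, t * deriv φ t = -∫ t : ℝ, 1 * φ t := by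
    apply MeasureTheory.integral_mul_deriv_eq_deriv_mul_of_integrable (u := fun t : ℝ => t) (v := φ)
      (u' := fun _ => 1) (v' := deriv φ)
    · intro t _
      exact hasDerivAt_id t
    · intro t _
      exact (hφ.differentiable (by norm_num)).differentiableAt.hasDerivAt
    · apply Continuous.integrable_of_hasCompactSupport
      · exact continuous_id.mul hdc
      · exact hc.deriv.mul_left
    · apply Continuous.integrable_of_hasCompactSupport
      · exact continuous_const.mul hφ.continuous
      · exact hc.mul_left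
    · apply Continuous.integrable_of_hasCompactSupport
      · exact continuous_id.mul hφ.continuous
      · exact hc.mul_left
  rw [e1, e2, MeasureTheory.integral_neg, e3, neg_neg]
  simp

theorem smw_contDiff {φ : ℝ → ℝ} (hφ : ContDiff ℝ (⊤ : ℕ∞) φ) : ContDiff ℝ (⊤ : ℕ∞) (smw φ) := by
  have h1 : ContDiff ℝ (⊤ : ℕ∞) (deriv φ) := by
    rw [contDiff_infty_iff_deriv] at hφ
    exact hφ.2
  unfold smw
  fun_prop

theorem smw_support {φ : ℝ → ℝ} {α β : ℝ} (hα : 0 < α) (hαβ : α < β) (h1 : ∀ y ≤ α, φ y = 0)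
    (h2 : ∀ y, β ≤ y → φ y = 0) : HasCompactSupport (smw φ) := by
  apply HasCompactSupport.intro (K := Set.Icc (Real.log α) (Real.log β)) isCompact_Icc
  intro v hv
  have hd : deriv φ (Real.exp v) = 0 := by
    by_cases h : Real.log α ≤ v
    · have h3 : Real.log β < v := by
        by_contra h4
        push Not at h4
        exact hv ⟨h, h4⟩
      have h5 : β < Real.exp v := (Real.log_lt_iff_lt_exp (by linarith)).1 h3
      exact sm_deriv_zero h2 h5
    · push Not at h
      have h5 : Real.exp v < α := (Real.lt_log_iff_exp_lt hα).1 h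
      have h6 : φ =ᶠ[𝓝 (Real.exp v)] fun _ => 0 := by
        filter_upwards [Iio_mem_nhds h5] with z hz
        exact h1 z (le_of_lt hz)
      rw [h6.deriv_eq]
      simp
  unfold smw
  rw [hd]
  simp

/-- a compact support in `(0, ∞)` lies in some `[α, β]` -/
theorem sm_bounds {φ : ℝ → ℝ} (hc : HasCompactSupport φ) (hs : tsupport φ ⊆ Set.Ioi 0) :
    ∃ α β : ℝ, 0 < α ∧ α < β ∧ (∀ y ≤ α, φ y = 0) ∧ (∀ y, β ≤ y → φ y = 0) := by
  by_cases hne : (tsupport φ).Nonempty
  · obtain ⟨m, hm, hmin⟩ := hc.isCompact.exists_isMinOn hne continuousOn_id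
    obtain ⟨M, hM, hmax⟩ := hc.isCompact.exists_isMaxOn hne continuousOn_id
    have hm0 : (0 : ℝ) < m := hs hm
    have hmM : m ≤ M := hmin hM
    refine ⟨m / 2, M + 1, by positivity, by linarith, ?_, ?_⟩
    · intro y hy
      apply image_eq_zero_of_notMem_tsupport
      intro h
      have h1 : m ≤ y := hmin h
      linarith
    · intro y hy
      apply image_eq_zero_of_notMem_tsupport
      intro h
      have h1 : y ≤ M := hmax h
      linarith
  · rw [Set.not_nonempty_iff_eq_empty] at hne
    refine ⟨1, 2, by norm_num, by norm_num, ?_, ?_⟩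
    · intro y _
      apply image_eq_zero_of_notMem_tsupport
      rw [hne]
      exact Set.notMem_empty _
    · intro y _
      apply image_eq_zero_of_notMem_tsupport
      rw [hne]
      exact Set.notMem_empty _

end Pool.Agent.RTE
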