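import Pool.Agent.RTE.SmSt
import Pool.Agent.RTE.SmB
import Pool.Agent.RTE.STP

/-! RTE, module SMB (helper77): summation by parts. -/

set_option autoImplicit false
set_option linter.unusedVariables false

namespace Pool.Agent.RTE

open Finset Filter Topology MeasureTheory
open Pool.Agent.SLD (N EvInv T)

open Classical in
/-- the indicator on the positive integers -/
private noncomputable def sbA (σ : ℤ) (A : Set ℤ) (n : ℕ) : ℝ :=
  if 1 ≤ n ∧ σ * (n : ℤ) ∈ A then 1 else 0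

private theorem sb_N {σ : ℤ} (hσ : σ = 1 ∨ σ = -1) (A : Set ℤ) (X : ℕ) :
    (N σ A X 1 0 : ℝ) = ∑ k ∈ Icc 0 X, sbA σ A k := by
  rw [stp_N hσ, ← Nat.range_succ_eq_Icc_zero, Finset.sum_range_succ']
  have h0 : sbA σ A 0 = 0 := by
    unfold sbA
    rw [if_neg (by omega)]
  rw [h0, add_zero]
  apply Finset.sum_congr rfl
  intro t _
  unfold stpI sbA
  have e : σ * (((t + 1 : ℕ) : ℤ)) = σ * ((t : ℤ) + 1) := by push_cast; ring
  rw [e]
  by_cases h : σ * ((t : ℤ) + 1) ∈ A
  · rw [if_pos h, if_pos ⟨by omega, h⟩]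
  · rw [if_neg h, if_neg (fun h' => h h'.2)]

theorem thm_SMB : St_SMB := by
  classical
  intro φ hφ hc ⟨r, hr, h0⟩
  have hφ1 : ContDiff ℝ 1 φ := hφ.of_le (by exact_mod_cast le_top)
  obtain ⟨β, hβ, h2⟩ : ∃ β : ℝ, r < β ∧ ∀ y, β ≤ y → φ y = 0 := by
    obtain ⟨M, hM⟩ := hc.isCompact.bddAbove
    refine ⟨max (M + 1) (r + 1), by linarith [le_max_right (M + 1) (r + 1)], ?_⟩
    intro y hy
    apply image_eq_zero_of_notMem_tsupport
    intro h
    have h1 : y ≤ M := hM h
    linarith [le_max_left (M + 1) (r + 1)]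
  refine ⟨smw φ, smw_contDiff hφ, smw_support hr hβ h0 h2,
    smw_integral hφ1 hc (fun y hy => h0 y (by linarith)), ?_⟩
  intro σ A x hσ hx
  have h1 := smB (sbA σ A) hφ1 (by linarith : (0 : ℝ) < β) h2 hx
  have e1 : ∀ n : ℕ, (if σ * (n : ℤ) ∈ A then φ (n / x) else 0) = sbA σ A n * φ (n / x) := by
    intro n
    unfold sbA
    rcases Nat.eq_zero_or_pos n with hn | hn
    · have h3 : φ ((n : ℝ) / x) = 0 := by
        rw [hn]
        apply h0
        rw [Nat.cast_zero, zero_div]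
        exact hr.le
      rw [h3]
      simp
    · by_cases h : σ * (n : ℤ) ∈ A
      · rw [if_pos h, if_pos ⟨hn, h⟩, one_mul]
      · rw [if_neg h, if_neg (fun h' => h h'.2), zero_mul]
  have e2 : ∀ t : ℝ, smf (sbA σ A) t = fN σ A t := by
    intro t
    unfold smf fN
    rw [← sb_N hσ, Real.exp_neg]
    field_simp
  rw [tsum_congr e1, h1]
  unfold Cv
  simp only [e2]

end Pool.Agent.RTE
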