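import Pool.Agent.RTE.SmSt

/-!
RTE, smooth weights: `thm_CORE : St_OS → St_INV → St_CORE` (helper3).
-/

set_option autoImplicit false

namespace Pool.Agent.RTE

open Finset Filter Topology MeasureTheory

/-! ### iterated differences -/

private lemma Dl_cons (h : ℝ) (l : List ℝ) (u : ℝ → ℝ) (t : ℝ) :
    Dl (h :: l) u t = Dl l u (t + h) - Dl l u t := rfl

private lemma Dl_abs_le : ∀ (l : List ℝ) (u : ℝ → ℝ) (M t : ℝ), (∀ h ∈ l, 0 ≤ h) →
    (∀ s, t ≤ s → |u s| ≤ M) → ∀ s, t ≤ s → |Dl l u s| ≤ 2 ^ l.length * M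
  | [], u, M, t, _, hu, s, hs => by simpa [Dl] using hu s hs
  | h :: l, u, M, t, hl, hu, s, hs => by
    have h0 : 0 ≤ h := hl h (by simp)
    have ih := Dl_abs_le l u M t (fun x hx => hl x (by simp [hx])) hu
    have h1 := ih s hs
    have h2 := ih (s + h) (by linarith)
    rw [Dl_cons, List.length_cons, pow_succ]
    calc |Dl l u (s + h) - Dl l u s| ≤ |Dl l u (s + h)| + |Dl l u s| := abs_sub _ _
      _ ≤ 2 ^ l.length * M + 2 ^ l.length * M := add_le_add h2 h1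
      _ = 2 ^ l.length * 2 * M := by ring

private lemma Lam_Dl : ∀ (l : List ℝ) (u : ℝ → ℝ) (t : ℝ), Lam (Dl l u) t = Dl l (Lam u) t
  | [], _, _ => rfl
  | h :: l, u, t => by
    rw [Dl_cons, ← Lam_Dl l u (t + h), ← Lam_Dl l u t]
    simp only [Lam, Dl_cons]
    rw [show t + Real.log 3 + h = t + h + Real.log 3 by ring,
      show t + Real.log 2 + h = t + h + Real.log 2 by ring]
    ring

private lemma Dl_hasDerivAt : ∀ (l : List ℝ) (u u' : ℝ → ℝ), (∀ t, HasDerivAt u (u' t) t) →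
    ∀ t, HasDerivAt (Dl l u) (Dl l u' t) t
  | [], _, _, hu, t => hu t
  | h :: l, u, u', hu, t => by
    have ih := Dl_hasDerivAt l u u' hu
    have h1 : HasDerivAt (fun s => Dl l u (s + h)) (Dl l u' (t + h)) t :=
      HasDerivAt.comp_add_const t h (ih (t + h))
    exact h1.sub (ih t)

private lemma Dl_sub_const : ∀ (l : List ℝ) (u : ℝ → ℝ) (k : ℝ),
    ∃ κ : ℝ, ∀ t, Dl l (fun s => u s - k) t = Dl l u t - κ
  | [], _, k => ⟨k, fun _ => rfl⟩
  | h :: l, u, k => by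
    obtain ⟨κ, hκ⟩ := Dl_sub_const l u k
    refine ⟨0, fun t => ?_⟩
    rw [Dl_cons, Dl_cons, hκ, hκ]
    ring

private lemma Dl_cons_sub_const (h : ℝ) (l : List ℝ) (u : ℝ → ℝ) (k t : ℝ) :
    Dl (h :: l) (fun s => u s - k) t = Dl (h :: l) u t := by
  obtain ⟨κ, hκ⟩ := Dl_sub_const l u k
  rw [Dl_cons, Dl_cons, hκ, hκ]
  ring

private lemma Dl_tendsto : ∀ (l : List ℝ) (u : ℝ → ℝ), Tendsto u atTop (𝓝 0) →
    Tendsto (Dl l u) atTop (𝓝 0)
  | [], _, hu => hu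
  | h :: l, u, hu => by
    have ih := Dl_tendsto l u hu
    have h1 : Tendsto (fun t => Dl l u (t + h)) atTop (𝓝 0) :=
      ih.comp (tendsto_atTop_add_const_right atTop h tendsto_id)
    have h2 := h1.sub ih
    rw [sub_zero] at h2
    exact h2

private lemma Dl_continuous : ∀ (l : List ℝ) (u : ℝ → ℝ), Continuous u → Continuous (Dl l u)
  | [], _, hu => hu
  | h :: l, u, hu => by
    have ih := Dl_continuous l u hu
    exact (ih.comp (continuous_id.add continuous_const)).sub ih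

/-! ### the weighted mean -/

private lemma Cv_int {f ψ : ℝ → ℝ} (hf : Measurable f) (hf1 : ∀ t, |f t| ≤ 1) (hψ : Continuous ψ)
    (hc : HasCompactSupport ψ) (t : ℝ) : Integrable (fun v => f (t + v) * ψ v) := by
  refine Integrable.bdd_mul (c := 1) (hψ.integrable_of_hasCompactSupport hc) ?_ ?_
  · exact (hf.comp (measurable_const.add measurable_id)).aestronglyMeasurable
  · exact Filter.Eventually.of_forall fun v => by
      rw [Real.norm_eq_abs]
      exact hf1 _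

private lemma Lam_Cv {f ψ : ℝ → ℝ} (hf : Measurable f) (hf1 : ∀ t, |f t| ≤ 1)
    (hψ : Continuous ψ) (hc : HasCompactSupport ψ) (t : ℝ) :
    Lam (Cv f ψ) t = ∫ v, Lam f (t + v) * ψ v := by
  have I := fun s => Cv_int hf hf1 hψ hc s
  have e1 : (fun v => Lam f (t + v) * ψ v) = fun v => (f (t + Real.log 3 + v) * ψ v -
      2 * (f (t + Real.log 2 + v) * ψ v)) + f (t + v) * ψ v := by
    funext v
    simp only [Lam]
    rw [show t + v + Real.log 3 = t + Real.log 3 + v by ring,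
      show t + v + Real.log 2 = t + Real.log 2 + v by ring]
    ring
  have h1 : ∫ v, ((f (t + Real.log 3 + v) * ψ v - 2 * (f (t + Real.log 2 + v) * ψ v)) +
      f (t + v) * ψ v) = (∫ v, (f (t + Real.log 3 + v) * ψ v - 2 * (f (t + Real.log 2 + v) * ψ v))) +
      ∫ v, f (t + v) * ψ v := integral_add ((I _).sub ((I _).const_mul 2)) (I _)
  have h2 : ∫ v, (f (t + Real.log 3 + v) * ψ v - 2 * (f (t + Real.log 2 + v) * ψ v)) =
      (∫ v, f (t + Real.log 3 + v) * ψ v) - ∫ v, 2 * (f (t + Real.log 2 + v) * ψ v) :=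
    integral_sub (I _) ((I _).const_mul 2)
  rw [e1, h1, h2, integral_const_mul]
  rfl

private lemma Cv_deriv {f ψ : ℝ → ℝ} (hf : Measurable f) (hf1 : ∀ t, |f t| ≤ 1)
    (hψ : ContDiff ℝ 1 ψ) (hc : HasCompactSupport ψ) (t : ℝ) :
    HasDerivAt (Cv f ψ) (Cv f (fun v => -deriv ψ v) t) t := by
  have hloc : LocallyIntegrable f volume := by
    refine (locallyIntegrable_const (1 : ℝ)).mono hf.aestronglyMeasurable ?_
    exact Filter.Eventually.of_forall fun v => by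
      rw [Real.norm_eq_abs, Real.norm_eq_abs, abs_one]
      exact hf1 v
  obtain ⟨g, hg⟩ : ∃ g : ℝ → ℝ, g = fun y => ψ (-y) := ⟨_, rfl⟩
  have hg1 : ContDiff ℝ 1 g := by
    rw [hg]
    exact hψ.comp contDiff_neg
  have hgc : HasCompactSupport g := by
    rw [hg]
    exact hc.comp_homeomorph (Homeomorph.neg ℝ)
  have hgd : ∀ y, deriv g y = -deriv ψ (-y) := by
    intro y
    have h1 : HasDerivAt ψ (deriv ψ (-y)) (-y) :=
      ((hψ.differentiable one_ne_zero) (-y)).hasDerivAt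
    have h2 := h1.scomp y (hasDerivAt_neg y)
    rw [hg]
    have h3 := h2.deriv
    simp only [smul_eq_mul, neg_mul, one_mul] at h3
    exact h3
  have key := HasCompactSupport.hasDerivAt_convolution_right
    (ContinuousLinearMap.mul ℝ ℝ) hloc hgc hg1 t
  have e1 : convolution f g (ContinuousLinearMap.mul ℝ ℝ) volume = Cv f ψ := by
    funext s
    rw [convolution_def]
    have h1 := integral_add_left_eq_self (μ := (volume : Measure ℝ))
      (fun w => (ContinuousLinearMap.mul ℝ ℝ (f w)) (g (s - w))) s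
    rw [← h1]
    unfold Cv
    congr 1
    funext v
    rw [hg, ContinuousLinearMap.mul_apply']
    simp
  have e2 : convolution f (deriv g) (ContinuousLinearMap.mul ℝ ℝ) volume t =
      Cv f (fun v => -deriv ψ v) t := by
    rw [convolution_def]
    have h1 := integral_add_left_eq_self (μ := (volume : Measure ℝ))
      (fun w => (ContinuousLinearMap.mul ℝ ℝ (f w)) (deriv g (t - w))) t
    rw [← h1]
    unfold Cv
    congr 1
    funext v
    rw [hgd, ContinuousLinearMap.mul_apply']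
    simp
  rw [e1, e2] at key
  exact key

private lemma Cv_bd {f ψ : ℝ → ℝ} (hf1 : ∀ t, |f t| ≤ 1) (hψ : Continuous ψ)
    (hc : HasCompactSupport ψ) (t : ℝ) : |Cv f ψ t| ≤ ∫ v, |ψ v| := by
  have h := norm_integral_le_of_norm_le (μ := (volume : Measure ℝ)) (f := fun v => f (t + v) * ψ v)
    (g := fun v => |ψ v|) (hψ.integrable_of_hasCompactSupport hc).abs
    (Filter.Eventually.of_forall fun v => by
      rw [Real.norm_eq_abs, abs_mul]
      calc |f (t + v)| * |ψ v| ≤ 1 * |ψ v| := mul_le_mul_of_nonneg_right (hf1 _) (abs_nonneg _)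
        _ = |ψ v| := one_mul _)
  rw [Real.norm_eq_abs] at h
  exact h

private lemma Cv_tendsto {f ψ : ℝ → ℝ} {d : ℝ} (hf : Measurable f) (hf1 : ∀ t, |f t| ≤ 1)
    (hψ : Continuous ψ) (hc : HasCompactSupport ψ) (hd : Tendsto f atTop (𝓝 d)) :
    Tendsto (Cv f ψ) atTop (𝓝 (d * ∫ v, ψ v)) := by
  have h := tendsto_integral_filter_of_dominated_convergence (μ := (volume : Measure ℝ))
    (l := (atTop : Filter ℝ)) (F := fun t v => f (t + v) * ψ v) (f := fun v => d * ψ v)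
    (fun v => |ψ v|)
    (Filter.Eventually.of_forall fun t => (Cv_int hf hf1 hψ hc t).aestronglyMeasurable)
    (Filter.Eventually.of_forall fun t => Filter.Eventually.of_forall fun v => by
      rw [Real.norm_eq_abs, abs_mul]
      calc |f (t + v)| * |ψ v| ≤ 1 * |ψ v| := mul_le_mul_of_nonneg_right (hf1 _) (abs_nonneg _)
        _ = |ψ v| := one_mul _)
    (hψ.integrable_of_hasCompactSupport hc).abs
    (Filter.Eventually.of_forall fun v =>
      (hd.comp (tendsto_atTop_add_const_right atTop v tendsto_id)).mul_const (ψ v))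
  rw [integral_const_mul] at h
  exact h

private lemma Lam_Cv_bd {f ψ : ℝ → ℝ} {R E T s : ℝ} {B : ℕ} (hf : Measurable f)
    (hf1 : ∀ t, |f t| ≤ 1) (hψ : Continuous ψ) (hc : HasCompactSupport ψ) (hR : 0 ≤ R)
    (hs : ∀ v, R < |v| → ψ v = 0) (hT : 1 ≤ T) (hL : ∀ s, T ≤ s → |Lam f s| ≤ E / s ^ B)
    (hsT : 2 * (R + 1) * T ≤ s) :
    |Lam (Cv f ψ) s| ≤ (|E| * 2 ^ B * ∫ v, |ψ v|) / s ^ B := by
  have hRT : 0 ≤ R * (T - 1) := mul_nonneg hR (by linarith)
  have hRT2 : 0 ≤ R * T := mul_nonneg hR (by linarith)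
  have h1 : R ≤ s / 2 := by linarith
  have h2 : T ≤ s / 2 := by linarith
  have hs0 : 0 < s := by linarith
  have h := norm_integral_le_of_norm_le (μ := (volume : Measure ℝ))
    (f := fun v => Lam f (s + v) * ψ v)
    (g := fun v => (|E| * 2 ^ B / s ^ B) * |ψ v|)
    ((hψ.integrable_of_hasCompactSupport hc).abs.const_mul _)
    (Filter.Eventually.of_forall fun v => by
      rw [Real.norm_eq_abs, abs_mul]
      by_cases hv : R < |v|
      · rw [hs v hv]
        simp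
      · refine mul_le_mul_of_nonneg_right ?_ (abs_nonneg _)
        have hv1 := abs_le.1 (not_lt.1 hv)
        have h3 : s / 2 ≤ s + v := by linarith [hv1.1]
        have h4 := hL (s + v) (by linarith)
        have h6 : E / (s + v) ^ B ≤ |E| / (s / 2) ^ B :=
          div_le_div₀ (abs_nonneg E) (le_abs_self E) (by positivity)
            (pow_le_pow_left₀ (by positivity) h3 B)
        have h7 : |E| / (s / 2) ^ B = |E| * 2 ^ B / s ^ B := by
          rw [div_pow]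
          field_simp
        linarith)
  rw [integral_const_mul, Real.norm_eq_abs] at h
  rw [Lam_Cv hf hf1 hψ hc]
  calc _ ≤ |E| * 2 ^ B / s ^ B * ∫ v, |ψ v| := h
    _ = _ := by ring

private lemma deriv_supp {ψ : ℝ → ℝ} {R : ℝ} (hs : ∀ v, R < |v| → ψ v = 0) :
    ∀ v, R < |v| → (fun v => -deriv ψ v) v = 0 := by
  intro v hv
  have h1 : ψ =ᶠ[𝓝 v] fun _ => 0 := by
    have h2 : {w : ℝ | R < |w|} ∈ 𝓝 v :=
      (isOpen_lt continuous_const continuous_abs).mem_nhds hv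
    filter_upwards [h2] with w hw
    exact hs w hw
  show -deriv ψ v = 0
  rw [h1.deriv_eq]
  simp

private lemma step_alg {C c τ t M : ℝ} {m : ℕ} (hc1 : c ≤ 1) (hC : 0 < C)
    (hM : 0 ≤ M) (ht : 0 < t) (hτ : τ = t / 3) :
    C * (M / (τ ^ c) ^ m) / τ ^ c ≤ C * M * 3 ^ (m + 1) / (t ^ c) ^ (m + 1) := by
  have hτ0 : 0 < τ := by
    rw [hτ]
    positivity
  have h3 : (3 : ℝ) ^ c ≤ 3 := by
    have := Real.rpow_le_rpow_of_exponent_le (x := (3 : ℝ)) (by norm_num) hc1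
    rwa [Real.rpow_one] at this
  have h1 : t ^ c ≤ 3 * τ ^ c := by
    have h2 : t = 3 * τ := by
      rw [hτ]
      ring
    rw [h2, Real.mul_rpow (by norm_num) hτ0.le]
    exact mul_le_mul_of_nonneg_right h3 (Real.rpow_nonneg hτ0.le c)
  have hp : 0 < τ ^ c := Real.rpow_pos_of_pos hτ0 c
  have hq : 0 < t ^ c := Real.rpow_pos_of_pos ht c
  have h4 : (t ^ c) ^ (m + 1) ≤ 3 ^ (m + 1) * (τ ^ c) ^ (m + 1) := by
    rw [← mul_pow]
    exact pow_le_pow_left₀ hq.le h1 _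
  have h5 : C * (M / (τ ^ c) ^ m) / τ ^ c = C * M / (τ ^ c) ^ (m + 1) := by
    rw [pow_succ]
    field_simp
  rw [h5, div_le_div_iff₀ (by positivity) (by positivity)]
  calc C * M * (t ^ c) ^ (m + 1) ≤ C * M * (3 ^ (m + 1) * (τ ^ c) ^ (m + 1)) :=
        mul_le_mul_of_nonneg_left h4 (by positivity)
    _ = _ := by ring

private lemma pow_alg {c τ : ℝ} {m B : ℕ} (hc1 : c ≤ 1) (hτ : 1 ≤ τ)
    (hB : m + 2 ≤ B) : (τ ^ c) ^ m * τ ^ 2 ≤ τ ^ B := by
  have hp : 0 ≤ τ ^ c := Real.rpow_nonneg (by linarith) c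
  have h1 : τ ^ c ≤ τ := by
    have := Real.rpow_le_rpow_of_exponent_le hτ hc1
    rwa [Real.rpow_one] at this
  calc (τ ^ c) ^ m * τ ^ 2 ≤ τ ^ m * τ ^ 2 :=
        mul_le_mul_of_nonneg_right (pow_le_pow_left₀ hp h1 m) (by positivity)
    _ = τ ^ (m + 2) := by rw [pow_add]
    _ ≤ τ ^ B := pow_le_pow_right₀ hτ hB

private lemma mono_alg {c τ s D M : ℝ} {m : ℕ} (hc0 : 0 < c) (hτ : 1 ≤ τ) (hs : τ ≤ s)
    (hD : 0 ≤ D) (hDM : D ≤ M) : D / (s ^ c) ^ m ≤ M / (τ ^ c) ^ m := by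
  have hp : 0 < τ ^ c := Real.rpow_pos_of_pos (by linarith) c
  have h1 : τ ^ c ≤ s ^ c := Real.rpow_le_rpow (by linarith) hs hc0.le
  exact div_le_div₀ (by linarith) hDM (by positivity) (pow_le_pow_left₀ hp.le h1 m)

private lemma step_up {c C : ℝ} (hc0 : 0 < c) (hc1 : c ≤ 1) (hC : 0 < C)
    (hOS : ∀ (τ M : ℝ) (u : ℝ → ℝ), 2 ≤ τ → 0 ≤ M →
      (∀ s : ℝ, τ ≤ s → |u s| ≤ M) →
      (∀ s s' : ℝ, τ ≤ s → s ≤ s' → |u s' - u s| ≤ M * (s' - s)) →
      (∀ s : ℝ, τ ≤ s → |Lam u s| ≤ M / τ ^ 2) →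
      ∀ h t : ℝ, 0 ≤ h → h ≤ Real.log 3 → 3 * τ ≤ t → |u (t + h) - u t| ≤ C * M / τ ^ c)
    (R E : ℝ) (hR : 0 ≤ R) (B : ℕ) :
    ∀ m : ℕ, m + 1 ≤ B → ∀ ψ : ℝ → ℝ, ContDiff ℝ (⊤ : ℕ∞) ψ → HasCompactSupport ψ →
      (∀ v, R < |v| → ψ v = 0) → ∃ D : ℝ, 0 ≤ D ∧ ∀ (f : ℝ → ℝ) (T : ℝ), Measurable f →
        (∀ t, |f t| ≤ 1) → 1 ≤ T → (∀ s, T ≤ s → |Lam f s| ≤ E / s ^ B) →
        ∀ l : List ℝ, l.length = m → (∀ h ∈ l, 0 ≤ h ∧ h ≤ Real.log 3) →
        ∀ t, 3 ^ m * (2 * (R + 1) * T) ≤ t → |Dl l (Cv f ψ) t| ≤ D / (t ^ c) ^ m := by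
  intro m
  induction m with
  | zero =>
    intro _ ψ hψ hc _
    refine ⟨∫ v, |ψ v|, integral_nonneg fun v => abs_nonneg _, ?_⟩
    intro f T hf hf1 hT hL l hl _ t ht
    have hl0 : l = [] := List.length_eq_zero_iff.1 hl
    subst hl0
    simpa [Dl] using Cv_bd hf1 hψ.continuous hc t
  | succ m ih =>
    intro hmB ψ hψ hc hs
    have hψ' : ContDiff ℝ (⊤ : ℕ∞) (fun v => -deriv ψ v) := by
      have h1 : ContDiff ℝ (⊤ : ℕ∞) (deriv ψ) := by
        have h2 : ContDiff ℝ (((⊤ : ℕ∞) : WithTop ℕ∞) + 1) ψ := by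
          exact_mod_cast hψ
        exact (contDiff_succ_iff_deriv.1 h2).2.2
      exact h1.neg
    have hc' : HasCompactSupport (fun v => -deriv ψ v) := hc.deriv.neg
    obtain ⟨D1, hD1, h1⟩ := ih (by omega) ψ hψ hc hs
    obtain ⟨D2, hD2, h2⟩ := ih (by omega) _ hψ' hc' (deriv_supp hs)
    obtain ⟨J, hJ⟩ : ∃ J : ℝ, J = ∫ v, |ψ v| := ⟨_, rfl⟩
    have hJ0 : 0 ≤ J := by
      rw [hJ]
      exact integral_nonneg fun v => abs_nonneg _
    obtain ⟨K0, hK0⟩ : ∃ K0 : ℝ, K0 = |E| * 2 ^ B * J := ⟨_, rfl⟩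
    have hK00 : 0 ≤ K0 := by
      rw [hK0]
      positivity
    obtain ⟨M0, hM0⟩ : ∃ M0 : ℝ, M0 = D1 + D2 + 2 ^ m * K0 := ⟨_, rfl⟩
    have hK02 : 0 ≤ 2 ^ m * K0 := by positivity
    have hM00 : 0 ≤ M0 := by linarith
    refine ⟨C * M0 * 3 ^ (m + 1), by positivity, ?_⟩
    intro f T hf hf1 hT hL l hl hlh t ht
    obtain ⟨h, l', rfl⟩ : ∃ h l', l = h :: l' := by
      cases l with
      | nil => simp at hl
      | cons h l' => exact ⟨h, l', rfl⟩
    have hl' : l'.length = m := by simpa using hl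
    have hlh' : ∀ x ∈ l', 0 ≤ x ∧ x ≤ Real.log 3 := fun x hx => hlh x (by simp [hx])
    have hh := hlh h (by simp)
    obtain ⟨τ, hτ⟩ : ∃ τ : ℝ, τ = t / 3 := ⟨_, rfl⟩
    have hRT2 : 0 ≤ R * T := mul_nonneg hR (by linarith)
    have hθ2 : 2 ≤ 2 * (R + 1) * T := by nlinarith
    have h3m : (1 : ℝ) ≤ 3 ^ m := one_le_pow₀ (by norm_num)
    have hθm : 2 * (R + 1) * T ≤ 3 ^ m * (2 * (R + 1) * T) :=
      le_mul_of_one_le_left (by linarith) h3m
    have hτm : 3 ^ m * (2 * (R + 1) * T) ≤ τ := by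
      rw [hτ]
      rw [pow_succ] at ht
      linarith
    have hτ2 : 2 ≤ τ := by linarith
    have ht0 : 0 < t := by linarith
    have hpτ : 0 < τ ^ c := Real.rpow_pos_of_pos (by linarith) c
    have key := hOS τ (M0 / (τ ^ c) ^ m) (Dl l' (Cv f ψ)) hτ2 (by positivity) ?_ ?_ ?_ h t hh.1
      hh.2 (by linarith)
    · rw [Dl_cons]
      exact key.trans (step_alg hc1 hC hM00 ht0 hτ)
    · intro s hs1
      exact (h1 f T hf hf1 hT hL l' hl' hlh' s (by linarith)).trans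
        (mono_alg hc0 (by linarith) hs1 hD1 (by linarith))
    · intro s s' hs1 hs2
      have hder : ∀ x ∈ Set.Ici τ, HasDerivWithinAt (Dl l' (Cv f ψ))
          (Dl l' (Cv f (fun v => -deriv ψ v)) x) (Set.Ici τ) x := fun x _ =>
        (Dl_hasDerivAt l' _ _ (fun t => Cv_deriv hf hf1 (hψ.of_le (by exact_mod_cast le_top)) hc t)
          x).hasDerivWithinAt
      have hbd : ∀ x ∈ Set.Ici τ, ‖Dl l' (Cv f (fun v => -deriv ψ v)) x‖ ≤ M0 / (τ ^ c) ^ m := by
        intro x hx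
        rw [Real.norm_eq_abs]
        exact (h2 f T hf hf1 hT hL l' hl' hlh' x (by
          have := Set.mem_Ici.1 hx
          linarith)).trans (mono_alg hc0 (by linarith) (Set.mem_Ici.1 hx) hD2 (by linarith))
      have h5 := Convex.norm_image_sub_le_of_norm_hasDerivWithin_le hder hbd (convex_Ici τ)
        (Set.mem_Ici.2 hs1) (Set.mem_Ici.2 (hs1.trans hs2))
      rw [Real.norm_eq_abs, Real.norm_eq_abs, abs_of_nonneg (by linarith : (0 : ℝ) ≤ s' - s)] at h5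
      exact h5
    · intro s hs1
      have h5 : ∀ x, τ ≤ x → |Lam (Cv f ψ) x| ≤ K0 / τ ^ B := by
        intro x hx
        have h6 := Lam_Cv_bd hf hf1 hψ.continuous hc hR hs hT hL (s := x) (by linarith)
        rw [← hJ, ← hK0] at h6
        exact h6.trans (div_le_div₀ hK00 le_rfl (by positivity)
          (pow_le_pow_left₀ (by linarith) hx B))
      have h6 := Dl_abs_le l' (Lam (Cv f ψ)) (K0 / τ ^ B) τ (fun x hx => (hlh' x hx).1) h5 s hs1
      rw [Lam_Dl]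
      refine h6.trans ?_
      rw [hl', ← mul_div_assoc, div_div]
      exact div_le_div₀ hM00 (by linarith) (by positivity)
        (pow_alg hc1 (by linarith) (by omega))

private noncomputable def dn (C K A : ℝ) : ℕ → ℝ
  | 0 => A
  | i + 1 => C * (dn C K A i + K)

private lemma down {C : ℝ} (hC : 0 < C)
    (hI : ∀ (u : ℝ → ℝ) (E t D : ℝ) (p : ℕ), Continuous u → Tendsto u atTop (𝓝 0) → 1 ≤ p →
      1 ≤ t → 0 ≤ E → (∀ s : ℝ, t ≤ s → |Lam u s| ≤ E / s ^ (p + 1)) →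
      (∀ h : ℝ, 0 ≤ h → h ≤ Real.log 3 → |u (t + h) - u t| ≤ D) → |u t| ≤ C * (D + E / t ^ p))
    (B : ℕ) (U : ℝ → ℝ) (hU : Continuous U) (hU0 : Tendsto U atTop (𝓝 0)) (K θ A : ℝ) (m : ℕ)
    (hθ : 1 ≤ θ) (hK : 0 ≤ K) (hL : ∀ s, θ ≤ s → |Lam U s| ≤ K / s ^ (B + 2))
    (hm : ∀ l : List ℝ, l.length = m → (∀ h ∈ l, 0 ≤ h ∧ h ≤ Real.log 3) →
      ∀ t, θ ≤ t → |Dl l U t| ≤ A / t ^ B) :
    ∀ i j, i + j = m → ∀ l : List ℝ, l.length = j → (∀ h ∈ l, 0 ≤ h ∧ h ≤ Real.log 3) →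
      ∀ t, θ ≤ t → |Dl l U t| ≤ dn C (2 ^ m * K) A i / t ^ B := by
  intro i
  induction i with
  | zero =>
    intro j hj l hl hlh t ht
    exact hm l (by omega) hlh t ht
  | succ i ih =>
    intro j hj l hl hlh t ht
    have ht1 : 1 ≤ t := by linarith
    have key := hI (Dl l U) (2 ^ m * K) t (dn C (2 ^ m * K) A i / t ^ B) (B + 1)
      (Dl_continuous l U hU) (Dl_tendsto l U hU0) (by omega) ht1 (by positivity) ?_ ?_
    · refine key.trans ?_
      have h1 : 2 ^ m * K / t ^ (B + 1) ≤ 2 ^ m * K / t ^ B :=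
        div_le_div₀ (by positivity) le_rfl (by positivity) (pow_le_pow_right₀ ht1 (by omega))
      calc C * (dn C (2 ^ m * K) A i / t ^ B + 2 ^ m * K / t ^ (B + 1)) ≤
            C * (dn C (2 ^ m * K) A i / t ^ B + 2 ^ m * K / t ^ B) :=
            mul_le_mul_of_nonneg_left (by linarith) hC.le
        _ = C * (dn C (2 ^ m * K) A i + 2 ^ m * K) / t ^ B := by ring
        _ = _ := rfl
    · intro s hs
      have h5 : ∀ x, s ≤ x → |Lam U x| ≤ K / s ^ (B + 2) := by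
        intro x hx
        exact (hL x (by linarith)).trans (div_le_div₀ hK le_rfl
          (pow_pos (by linarith) _) (pow_le_pow_left₀ (by linarith) hx _))
      have h6 := Dl_abs_le l (Lam U) _ s (fun x hx => (hlh x hx).1) h5 s le_rfl
      rw [Lam_Dl]
      refine h6.trans ?_
      rw [hl, ← mul_div_assoc]
      have h7 : (2 : ℝ) ^ j ≤ 2 ^ m := pow_le_pow_right₀ (by norm_num) (by omega)
      exact div_le_div₀ (by positivity) (mul_le_mul_of_nonneg_right h7 hK)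
        (pow_pos (by linarith) _) le_rfl
    · intro h h0 h3
      have h8 := ih (j + 1) (by omega) (h :: l) (by simp [hl]) (by
        intro x hx
        rcases List.mem_cons.1 hx with rfl | hx
        · exact ⟨h0, h3⟩
        · exact hlh x hx) t ht
      rw [Dl_cons] at h8
      exact h8

theorem thm_CORE (hOS : St_OS) (hINV : St_INV) : St_CORE := by
  obtain ⟨c, C, hc0, hc1, hC, hOS⟩ := hOS
  obtain ⟨CI, hCI, hI⟩ := hINV
  intro ψ hψ hc B
  obtain ⟨R, hR, hs⟩ : ∃ R : ℝ, 0 ≤ R ∧ ∀ v, R < |v| → ψ v = 0 := by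
    obtain ⟨R, hR⟩ := (hc.isCompact.isBounded).subset_closedBall (0 : ℝ)
    refine ⟨max R 0, le_max_right _ _, fun v hv => ?_⟩
    by_contra h0
    have h1 : v ∈ tsupport ψ := subset_tsupport ψ h0
    have h2 := hR h1
    rw [mem_closedBall_zero_iff, Real.norm_eq_abs] at h2
    have h3 := le_max_left R 0
    linarith
  obtain ⟨m, hm⟩ : ∃ m : ℕ, m = ⌈(B : ℝ) / c⌉₊ + 1 := ⟨_, rfl⟩
  have hcm : (B : ℝ) ≤ c * m := by
    have h1 := Nat.le_ceil ((B : ℝ) / c)
    have h2 : (m : ℝ) = (⌈(B : ℝ) / c⌉₊ : ℝ) + 1 := by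
      rw [hm]
      push_cast
      ring
    have h3 : (B : ℝ) / c ≤ m := by linarith
    rw [div_le_iff₀ hc0] at h3
    linarith
  obtain ⟨B', hB'⟩ : ∃ B' : ℕ, B' = m + B + 2 := ⟨_, rfl⟩
  have h3m : (1 : ℝ) ≤ 3 ^ m := one_le_pow₀ (by norm_num)
  refine ⟨B', 3 ^ m * (2 * (R + 1)), by nlinarith, ?_⟩
  intro E
  obtain ⟨D, hD, hup⟩ := step_up hc0 hc1 hC hOS R E hR B' m (by omega) ψ hψ hc hs
  obtain ⟨J, hJ⟩ : ∃ J : ℝ, J = ∫ v, |ψ v| := ⟨_, rfl⟩
  have hJ0 : 0 ≤ J := by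
    rw [hJ]
    exact integral_nonneg fun v => abs_nonneg _
  obtain ⟨K0, hK0⟩ : ∃ K0 : ℝ, K0 = |E| * 2 ^ B' * J := ⟨_, rfl⟩
  have hK00 : 0 ≤ K0 := by
    rw [hK0]
    positivity
  refine ⟨|dn CI (2 ^ m * K0) D m| + 1, by positivity, ?_⟩
  intro f d T hf hf1 hT hL hd t ht
  have hRT2 : 0 ≤ R * T := mul_nonneg hR (by linarith)
  have hθ2 : 2 ≤ 2 * (R + 1) * T := by nlinarith
  have hθm : 2 * (R + 1) * T ≤ 3 ^ m * (2 * (R + 1) * T) :=
    le_mul_of_one_le_left (by linarith) h3m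
  have hθe : 3 ^ m * (2 * (R + 1)) * T = 3 ^ m * (2 * (R + 1) * T) := by ring
  rw [hθe] at ht
  have hcont : Continuous (Cv f ψ) := by
    refine continuous_iff_continuousAt.2 fun x => ?_
    exact (Cv_deriv hf hf1 (hψ.of_le (by exact_mod_cast le_top)) hc x).continuousAt
  have hU0 : Tendsto (fun s => Cv f ψ s - d * ∫ v, ψ v) atTop (𝓝 0) := by
    have h1 := (Cv_tendsto hf hf1 hψ.continuous hc hd).sub_const (d * ∫ v, ψ v)
    rw [sub_self] at h1
    exact h1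
  have hLU : ∀ s, 3 ^ m * (2 * (R + 1) * T) ≤ s →
      |Lam (fun s => Cv f ψ s - d * ∫ v, ψ v) s| ≤ K0 / s ^ (B + 2) := by
    intro s hs1
    have h1 : Lam (fun s => Cv f ψ s - d * ∫ v, ψ v) s = Lam (Cv f ψ) s := by
      simp only [Lam]
      ring
    rw [h1]
    have h6 := Lam_Cv_bd hf hf1 hψ.continuous hc hR hs hT hL (s := s) (by linarith)
    rw [← hJ, ← hK0] at h6
    exact h6.trans (div_le_div₀ hK00 le_rfl (pow_pos (by linarith) _)
      (pow_le_pow_right₀ (by linarith) (by omega)))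
  have hmU : ∀ l : List ℝ, l.length = m → (∀ h ∈ l, 0 ≤ h ∧ h ≤ Real.log 3) →
      ∀ s, 3 ^ m * (2 * (R + 1) * T) ≤ s → |Dl l (fun s => Cv f ψ s - d * ∫ v, ψ v) s| ≤ D / s ^ B := by
    intro l hl hlh s hs1
    have h1 := hup f T hf hf1 hT hL l hl hlh s hs1
    obtain ⟨h, l', rfl⟩ : ∃ h l', l = h :: l' := by
      cases l with
      | nil =>
        simp at hl
        omega
      | cons h l' => exact ⟨h, l', rfl⟩
    rw [Dl_cons_sub_const]
    refine h1.trans ?_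
    have hs0 : 1 ≤ s := by linarith
    refine div_le_div₀ hD le_rfl (pow_pos (by linarith) _) ?_
    rw [← Real.rpow_mul_natCast (by linarith), ← Real.rpow_natCast]
    exact Real.rpow_le_rpow_of_exponent_le hs0 hcm
  have hfin := down hCI hI B (fun s => Cv f ψ s - d * ∫ v, ψ v) (hcont.sub continuous_const) hU0 K0
    (3 ^ m * (2 * (R + 1) * T)) D m (by linarith) hK00 hLU hmU m 0 (by omega) [] rfl (by simp) t ht
  refine le_trans hfin ?_
  have h9 := le_abs_self (dn CI (2 ^ m * K0) D m)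
  exact div_le_div₀ (by positivity) (by linarith) (pow_pos (by linarith) _) le_rfl

end Pool.Agent.RTE
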