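import Pool.Agent.RTE.SmSt
import Pool.Agent.SLD.LIN

/-!
RTE, smooth weights, last step (helper57): the theorem from the abstract theorem, the functional equation and
the summation by parts.
-/

set_option autoImplicit false
set_option linter.unusedVariables false

open MeasureTheory Filter Topology
open Pool.Agent.SLD (N EvInv T)

namespace Pool.Agent.RTE

private theorem fin_meas (σ : ℤ) (A : Set ℤ) : Measurable (fN σ A) := by
  have h1 : Measurable (fun n : ℕ => (N σ A n 1 0 : ℝ)) := measurable_from_top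
  have h2 : Measurable (fun t : ℝ => (N σ A ⌊Real.exp t⌋₊ 1 0 : ℝ)) :=
    h1.comp (Nat.measurable_floor.comp Real.measurable_exp)
  exact h2.div Real.measurable_exp

private theorem fin_le {σ : ℤ} (hσ : σ = 1 ∨ σ = -1) (A : Set ℤ) (X : ℕ) : (N σ A X 1 0 : ℝ) ≤ X := by
  have h : N σ A X 1 0 ≤ X := by
    unfold N
    calc Set.ncard {n : ℤ | 1 ≤ σ * n ∧ σ * n ≤ X ∧ ((1 : ℕ) : ℤ) ∣ n - 0 ∧ n ∈ A}
        ≤ Set.ncard ((fun m : ℤ => σ * m) '' (Finset.Icc (1 : ℤ) X : Set ℤ)) := by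
          apply Set.ncard_le_ncard
          · intro n hn
            refine ⟨σ * n, by simpa using ⟨hn.1, hn.2.1⟩, ?_⟩
            rcases hσ with rfl | rfl <;> simp
          · exact (Finset.finite_toSet _).image _
      _ ≤ Set.ncard (Finset.Icc (1 : ℤ) X : Set ℤ) := Set.ncard_image_le (Finset.finite_toSet _)
      _ = X := by rw [Set.ncard_coe_finset]; simp
  exact_mod_cast h

private theorem fin_bd {σ : ℤ} (hσ : σ = 1 ∨ σ = -1) (A : Set ℤ) (t : ℝ) : |fN σ A t| ≤ 1 := by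
  have h0 : (0 : ℝ) ≤ (N σ A ⌊Real.exp t⌋₊ 1 0 : ℝ) := Nat.cast_nonneg _
  have hp := Real.exp_pos t
  unfold fN
  rw [abs_of_nonneg (div_nonneg h0 hp.le), div_le_one hp]
  exact (fin_le hσ A _).trans (Nat.floor_le hp.le)

private theorem fin_lim {σ : ℤ} (A : Set ℤ) {d : ℝ}
    (h : Tendsto (fun Y : ℕ => (N σ A Y 1 0 : ℝ) / Y) atTop (𝓝 d)) : Tendsto (fN σ A) atTop (𝓝 d) := by
  have h1 : Tendsto (fun t : ℝ => ⌊Real.exp t⌋₊) atTop atTop :=
    (tendsto_nat_floor_atTop (α := ℝ)).comp Real.tendsto_exp_atTop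
  have h2 := h.comp h1
  have h3 : Tendsto (fun x : ℝ => (⌊x⌋₊ : ℝ) / x) atTop (𝓝 1) := tendsto_nat_floor_div_atTop
  have h4 := h3.comp Real.tendsto_exp_atTop
  have h5 := h2.mul h4
  rw [mul_one] at h5
  refine h5.congr' ?_
  filter_upwards [eventually_ge_atTop (0 : ℝ)] with t ht
  have h6 : 1 ≤ Real.exp t := Real.one_le_exp ht
  have h7 : 1 ≤ ⌊Real.exp t⌋₊ := by rwa [Nat.one_le_floor_iff]
  have h8 : ((⌊Real.exp t⌋₊ : ℕ) : ℝ) ≠ 0 := by
    have : (0 : ℝ) < (⌊Real.exp t⌋₊ : ℕ) := by exact_mod_cast h7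
    exact this.ne'
  simp only [Function.comp]
  unfold fN
  rw [div_mul_div_cancel₀ h8]

private theorem fin_d {σ : ℤ} (hσ : σ = 1 ∨ σ = -1) (A : Set ℤ) {d : ℝ}
    (h : Tendsto (fun Y : ℕ => (N σ A Y 1 0 : ℝ) / Y) atTop (𝓝 d)) : |d| ≤ 1 := by
  refine le_of_tendsto h.abs (Eventually.of_forall fun Y => ?_)
  have h0 : (0 : ℝ) ≤ (N σ A Y 1 0 : ℝ) := Nat.cast_nonneg _
  have hY : (0 : ℝ) ≤ Y := Nat.cast_nonneg _
  rw [abs_of_nonneg (div_nonneg h0 hY)]
  exact div_le_one_of_le₀ (fin_le hσ A _) hY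

private theorem fin_Cv {σ : ℤ} (hσ : σ = 1 ∨ σ = -1) (A : Set ℤ) (ψ : ℝ → ℝ) (hc : Continuous ψ)
    (hs : HasCompactSupport ψ) (t : ℝ) : |Cv (fN σ A) ψ t| ≤ ∫ v, |ψ v| := by
  unfold Cv
  have hi : Integrable ψ := hc.integrable_of_hasCompactSupport hs
  calc |∫ v, fN σ A (t + v) * ψ v| ≤ ∫ v, |ψ v| := by
        rw [← Real.norm_eq_abs]
        apply norm_integral_le_of_norm_le hi.abs
        refine Eventually.of_forall fun v => ?_
        rw [Real.norm_eq_abs, abs_mul]
        have := fin_bd hσ A (t + v)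
        have h2 := abs_nonneg (ψ v)
        nlinarith

/-- [SMOOTH] from [CORE], [SMA], [SMB] -/
theorem thm_SMOOTH (hC : St_CORE) (hA : St_SMA) (hB : St_SMB) : St_SMOOTH := by
  intro φ hφ hφs hφ0 B
  obtain ⟨ψ, hψ, hψs, hint, hsum⟩ := hB φ hφ hφs hφ0
  obtain ⟨B', θ, hθ, hcore⟩ := hC ψ hψ hψs B
  obtain ⟨δ, E, hδ, hsma⟩ := hA B'
  obtain ⟨C, hC0, hcore⟩ := hcore E
  have hψc : Continuous ψ := hψ.continuous
  have hθ0 : 0 < θ := lt_of_lt_of_le one_pos hθ
  obtain ⟨I, hI⟩ : ∃ I : ℝ, I = ∫ v, |ψ v| := ⟨_, rfl⟩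
  have hI0 : 0 ≤ I := by rw [hI]; exact integral_nonneg fun v => abs_nonneg _
  have hII : |∫ v, ψ v| ≤ I := by rw [hI]; exact abs_integral_le_integral_abs
  refine ⟨δ / θ, C + 2 * I * θ ^ B + 1, by positivity, by positivity, ?_⟩
  intro σ K A d x hσ hK hd hx hKx
  have hx0 : 0 < x := by linarith
  have hlog : 0 < Real.log x := Real.log_pos (by linarith)
  rw [hsum σ A x hσ hx0, ← hint]
  have e1 : x * Cv (fN σ A) ψ (Real.log x) - d * x * ∫ v, ψ v =
      x * (Cv (fN σ A) ψ (Real.log x) - d * ∫ v, ψ v) := by ring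
  rw [e1, abs_mul, abs_of_pos hx0]
  have key : |Cv (fN σ A) ψ (Real.log x) - d * ∫ v, ψ v| ≤ (C + 2 * I * θ ^ B + 1) / Real.log x ^ B := by
    by_cases hc : θ ≤ Real.log x
    · have h1 := hcore (fN σ A) d (max 1 (Real.log K / δ)) (fin_meas σ A) (fin_bd hσ A) (le_max_left _ _)
        (fun s hs => by
          have hs1 : 1 ≤ s := (le_max_left _ _).trans hs
          have hs2 : Real.log K / δ ≤ s := (le_max_right _ _).trans hs
          rw [div_le_iff₀ hδ] at hs2
          refine hsma σ K A s hσ hK hs1 ?_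
          rcases Nat.eq_zero_or_pos K with h0 | h0
          · rw [h0]; simpa using (Real.exp_pos _).le
          · have hK0 : (0 : ℝ) < K := by exact_mod_cast h0
            rw [← Real.log_le_iff_le_exp hK0]
            linarith)
        (fin_lim A hd) (Real.log x) ?_
      · refine h1.trans ?_
        apply div_le_div_of_nonneg_right _ (by positivity)
        have : 0 ≤ 2 * I * θ ^ B := by positivity
        linarith
      · rw [mul_max_of_nonneg _ _ hθ0.le, mul_one]
        refine max_le hc ?_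
        rcases Nat.eq_zero_or_pos K with h0 | h0
        · rw [h0]; simpa using hlog.le
        · have hK0 : (0 : ℝ) < K := by exact_mod_cast h0
          have h2 : Real.log K ≤ δ / θ * Real.log x := by
            have := Real.log_le_log hK0 hKx
            rwa [Real.log_rpow hx0] at this
          have h3 : θ * (Real.log K / δ) ≤ θ * ((δ / θ * Real.log x) / δ) := by gcongr
          refine h3.trans (le_of_eq ?_)
          field_simp
    · rw [not_le] at hc
      have h1 := fin_Cv hσ A ψ hψc hψs (Real.log x)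
      rw [← hI] at h1
      have h2 : |d * ∫ v, ψ v| ≤ I := by
        rw [abs_mul]
        have := fin_d hσ A hd
        have h3 := abs_nonneg (∫ v, ψ v)
        have h4 := abs_nonneg d
        nlinarith
      have h3 : |Cv (fN σ A) ψ (Real.log x) - d * ∫ v, ψ v| ≤ 2 * I := by
        refine (abs_sub _ _).trans ?_
        linarith
      refine h3.trans ?_
      rw [le_div_iff₀ (by positivity)]
      have h4 : Real.log x ^ B ≤ θ ^ B := pow_le_pow_left₀ hlog.le hc.le _
      have h5 : 2 * I * Real.log x ^ B ≤ 2 * I * θ ^ B := by gcongr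
      linarith
  calc x * |Cv (fN σ A) ψ (Real.log x) - d * ∫ v, ψ v|
      ≤ x * ((C + 2 * I * θ ^ B + 1) / Real.log x ^ B) := by gcongr
    _ = (C + 2 * I * θ ^ B + 1) * x / Real.log x ^ B := by ring

end Pool.Agent.RTE
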