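import Pool.Agent.RTE.SmSt

/-!
RTE, module INV (helper37): the inversion, `u → 0` with small `Λ u` and small differences is small.
-/

set_option autoImplicit false
set_option linter.unusedVariables false

open MeasureTheory Filter Topology intervalIntegral

namespace Pool.Agent.RTE

/-- the telescoping identity -/
private theorem inv_tel (u : ℝ → ℝ) (hu : Continuous u) (a b t T : ℝ) :
    (∫ s in t..T, (u (s + b) - 2 * u (s + a) + u s)) =
      ((∫ s in T..(T + b), u s) - 2 * ∫ s in T..(T + a), u s) -
      ((∫ s in t..(t + b), u s) - 2 * ∫ s in t..(t + a), u s) := by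
  have hi : ∀ x y : ℝ, IntervalIntegrable u volume x y := fun x y => hu.intervalIntegrable x y
  have h1 : (∫ s in t..T, (u (s + b) - 2 * u (s + a) + u s)) =
      (∫ s in t..T, u (s + b)) - 2 * (∫ s in t..T, u (s + a)) + ∫ s in t..T, u s := by
    rw [intervalIntegral.integral_add, intervalIntegral.integral_sub, intervalIntegral.integral_const_mul]
    · exact (hu.comp (by fun_prop)).intervalIntegrable _ _
    · exact (continuous_const.mul (hu.comp (by fun_prop))).intervalIntegrable _ _
    · exact ((hu.comp (by fun_prop)).sub (continuous_const.mul (hu.comp (by fun_prop)))).intervalIntegrable _ _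
    · exact hi _ _
  rw [h1, intervalIntegral.integral_comp_add_right, intervalIntegral.integral_comp_add_right]
  have e1 : (∫ s in (t + b)..(T + b), u s) = (∫ s in t..T, u s) + (∫ s in T..(T + b), u s) - ∫ s in t..(t + b), u s := by
    have := intervalIntegral.integral_add_adjacent_intervals (hi t T) (hi T (T + b))
    have h2 := intervalIntegral.integral_add_adjacent_intervals (hi t (t + b)) (hi (t + b) (T + b))
    linarith
  have e2 : (∫ s in (t + a)..(T + a), u s) = (∫ s in t..T, u s) + (∫ s in T..(T + a), u s) - ∫ s in t..(t + a), u s := by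
    have := intervalIntegral.integral_add_adjacent_intervals (hi t T) (hi T (T + a))
    have h2 := intervalIntegral.integral_add_adjacent_intervals (hi t (t + a)) (hi (t + a) (T + a))
    linarith
  rw [e1, e2]; ring

/-- `∫_x^{x+h} u` is `h u(x)` up to `h S` -/
private theorem inv_near (u : ℝ → ℝ) (hu : Continuous u) (x h S c : ℝ) (hh : 0 ≤ h)
    (hS : ∀ r : ℝ, 0 ≤ r → r ≤ h → |u (x + r) - c| ≤ S) :
    |(∫ s in x..(x + h), u s) - h * c| ≤ S * h := by
  have e : (∫ s in x..(x + h), u s) - h * c = ∫ s in x..(x + h), (u s - c) := by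
    rw [intervalIntegral.integral_sub (hu.intervalIntegrable _ _) (continuous_const.intervalIntegrable _ _)]
    simp
  rw [e]
  have := intervalIntegral.norm_integral_le_of_norm_le_const (a := x) (b := x + h) (C := S)
    (f := fun s => u s - c) (by
      intro s hs
      rw [Set.uIoc_of_le (by linarith)] at hs
      have := hS (s - x) (by linarith [hs.1]) (by linarith [hs.2])
      rw [Real.norm_eq_abs]
      have e2 : x + (s - x) = s := by ring
      rwa [e2] at this)
  rw [Real.norm_eq_abs] at this
  have e3 : |x + h - x| = h := by rw [add_sub_cancel_left, abs_of_nonneg hh]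
  rwa [e3] at this

/-- the inversion: `u → 0`, small `Lam u` and small differences give a small `u`. -/
private theorem inv_core (u : ℝ → ℝ) (hu : Continuous u) (h0 : Tendsto u atTop (𝓝 0)) (a b E B t S : ℝ)
    (ha : 0 ≤ a) (hab : a ≤ b) (hB : 0 < B) (ht : 0 < t) (hE : 0 ≤ E)
    (hL : ∀ s : ℝ, t ≤ s → |u (s + b) - 2 * u (s + a) + u s| ≤ E * s ^ (-(B + 1)))
    (hS : ∀ h : ℝ, 0 ≤ h → h ≤ b → |u (t + h) - u t| ≤ S) :
    |(2 * a - b) * u t| ≤ (b + 2 * a) * S + E * t ^ (-B) / B := by
  have hb : 0 ≤ b := ha.trans hab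
  -- the bound with the boundary term
  have key : ∀ e : ℝ, 0 < e → |(2 * a - b) * u t| ≤ (b + 2 * a) * S + E * t ^ (-B) / B + (b + 2 * a) * e := by
    intro e he
    have hev : ∀ᶠ s in atTop, |u s| ≤ e := by
      have := (h0.abs)
      rw [abs_zero] at this
      exact (this.eventually (gt_mem_nhds he)).mono (fun s hs => hs.le)
    obtain ⟨T0, hT0⟩ := eventually_atTop.1 hev
    set T := max T0 t with hT
    have hTt : t ≤ T := le_max_right _ _
    have hTT : ∀ s, T ≤ s → |u s| ≤ e := fun s hs => hT0 s ((le_max_left _ _).trans hs)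
    have htel := inv_tel u hu a b t T
    -- the integral of Lam u
    have hF : |∫ s in t..T, (u (s + b) - 2 * u (s + a) + u s)| ≤ E * t ^ (-B) / B := by
      have h1 : |∫ s in t..T, (u (s + b) - 2 * u (s + a) + u s)| ≤ ∫ s in t..T, E * s ^ (-(B + 1)) := by
        rw [← Real.norm_eq_abs]
        refine intervalIntegral.norm_integral_le_of_norm_le hTt ?_ ?_
        · refine Filter.Eventually.of_forall (fun s hs => ?_)
          rw [Real.norm_eq_abs]; exact hL s hs.1.le
        · refine ContinuousOn.intervalIntegrable ?_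
          intro s hs
          rw [Set.uIcc_of_le hTt] at hs
          exact (continuousAt_const.mul (Real.continuousAt_rpow_const s _ (Or.inl (by linarith [hs.1])))).continuousWithinAt
      refine h1.trans ?_
      rw [intervalIntegral.integral_const_mul, integral_rpow (Or.inr ⟨by linarith, by
        rw [Set.uIcc_of_le hTt]; intro h; linarith [h.1]⟩)]
      have e1 : -(B + 1) + 1 = -B := by ring
      rw [e1]
      have hTB : 0 ≤ T ^ (-B) := Real.rpow_nonneg (ht.le.trans hTt) _
      have e2 : E * ((T ^ (-B) - t ^ (-B)) / -B) = E * (t ^ (-B) - T ^ (-B)) / B := by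
        field_simp; ring
      rw [e2]
      refine div_le_div_of_nonneg_right ?_ hB.le
      exact mul_le_mul_of_nonneg_left (by linarith) hE
    have n1 := inv_near u hu t b S (u t) hb hS
    have n2 := inv_near u hu t a S (u t) ha (fun r h1 h2 => hS r h1 (h2.trans hab))
    have n3 := inv_near u hu T b e 0 hb (fun r h1 _ => by rw [sub_zero]; exact hTT _ (by linarith))
    have n4 := inv_near u hu T a e 0 ha (fun r h1 _ => by rw [sub_zero]; exact hTT _ (by linarith))
    rw [mul_zero, sub_zero] at n3 n4
    rw [abs_le] at *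
    constructor <;> nlinarith [n1.1, n1.2, n2.1, n2.2, n3.1, n3.2, n4.1, n4.2, hF.1, hF.2]
  refine le_of_forall_pos_le_add (fun e he => ?_)
  by_cases hz : b + 2 * a = 0
  · have := key e he; rw [hz] at this ⊢; linarith
  · have hpos : 0 < b + 2 * a := lt_of_le_of_ne (by linarith) (Ne.symm hz)
    have := key (e / (b + 2 * a)) (by positivity)
    have e2 : (b + 2 * a) * (e / (b + 2 * a)) = e := by field_simp
    rwa [e2] at this

theorem thm_INV : St_INV := by
  have hl2 : 0 < Real.log 2 := Real.log_pos (by norm_num)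
  have hl3 : 0 < Real.log 3 := Real.log_pos (by norm_num)
  have h23 : Real.log 2 ≤ Real.log 3 := Real.log_le_log (by norm_num) (by norm_num)
  have h43 : Real.log 3 < 2 * Real.log 2 := by
    have : Real.log 3 < Real.log (2 ^ 2) := Real.log_lt_log (by norm_num) (by norm_num)
    rwa [Real.log_pow, Nat.cast_ofNat] at this
  set c := 2 * Real.log 2 - Real.log 3 with hc
  have hc0 : 0 < c := by rw [hc]; linarith
  refine ⟨(Real.log 3 + 2 * Real.log 2 + 1) / c, by positivity, ?_⟩
  intro u E t D p hu h0 hp ht hE hL hD
  have ht0 : 0 < t := lt_of_lt_of_le one_pos ht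
  have hp1 : (1 : ℝ) ≤ (p : ℝ) := by exact_mod_cast hp
  have hD0 : 0 ≤ D := by
    have := hD 0 le_rfl hl3.le
    simpa using this
  have hk := inv_core u hu h0 (Real.log 2) (Real.log 3) E p t D hl2.le h23 (by linarith) ht0 hE
    (by
      intro s hs
      have hs0 : 0 < s := ht0.trans_le hs
      have := hL s hs
      unfold Lam at this
      refine this.trans (le_of_eq ?_)
      rw [Real.rpow_neg hs0.le, div_eq_mul_inv]
      congr 2
      rw [show ((p : ℝ) + 1) = ((p + 1 : ℕ) : ℝ) by push_cast; ring, Real.rpow_natCast])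
    hD
  rw [abs_mul, abs_of_pos hc0] at hk
  have e1 : t ^ (-(p : ℝ)) = 1 / t ^ p := by
    rw [Real.rpow_neg ht0.le, Real.rpow_natCast, one_div]
  rw [e1] at hk
  have hEt : 0 ≤ E / t ^ p := by positivity
  have e2 : E * (1 / t ^ p) / p ≤ E / t ^ p := by
    rw [mul_one_div]
    exact div_le_self hEt hp1
  rw [div_mul_eq_mul_div, le_div_iff₀ hc0]
  nlinarith [hk, e2, hEt, hD0, hl2, hl3]

end Pool.Agent.RTE
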