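import Pool.Agent.RTE.SmSt

/-!
RTE, module OS (helper37): one step, a bounded slowly varying `u` with small `Λ u` has small differences.
-/

set_option autoImplicit false
set_option linter.unusedVariables false

namespace Pool.Agent.RTE

open Finset Filter Topology

private theorem os_step3 (hB : St_BIN) (hI : St_ITR) : ∃ C1 : ℝ, 0 < C1 ∧ ∀ (τ M : ℝ) (u : ℝ → ℝ),
    2 ≤ τ → 0 ≤ M → (∀ s : ℝ, τ ≤ s → |u s| ≤ M) → (∀ s : ℝ, τ ≤ s → |Lam u s| ≤ M / τ ^ 2) →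
    ∀ t : ℝ, 2 * τ ≤ t → |u (t + Real.log 3) - u t| ≤ C1 * (M / Real.sqrt τ) := by
  obtain ⟨C, hC, hBC⟩ := hB
  refine ⟨2 + 2 * C, by positivity, ?_⟩
  intro τ M u hτ hM h1 h3 t ht
  have hl3 : 0 < Real.log 3 := Real.log_pos (by norm_num)
  have hl2 : 0 < Real.log 2 := Real.log_pos (by norm_num)
  have hl2' : Real.log 2 ≤ 1 := by linarith [Real.log_two_lt_d9]
  have hτ0 : 0 < τ := by linarith
  obtain ⟨k, hkd⟩ : ∃ k : ℕ, k = ⌊τ⌋₊ := ⟨_, rfl⟩
  have hk1 : (k : ℝ) ≤ τ := by rw [hkd]; exact Nat.floor_le hτ0.le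
  have hk2 : τ < k + 1 := by rw [hkd]; exact Nat.lt_floor_add_one τ
  have hk : 1 ≤ k := by rw [hkd]; exact Nat.le_floor (by push_cast; linarith)
  have hkR : (1 : ℝ) ≤ k := by exact_mod_cast hk
  have hkl : τ + k * Real.log 2 ≤ t := by nlinarith
  have a1 := hI u (M / τ ^ 2) τ h3 k t hkl
  have a2 := hI u (M / τ ^ 2) τ h3 k (t + Real.log 3) (by linarith)
  have a3 := hBC k (fun a : ℕ => u (t - k * Real.log 2 + a * Real.log 3)) M hk (by
    intro a
    refine h1 _ ?_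
    have : (0 : ℝ) ≤ a * Real.log 3 := by positivity
    linarith)
  have e1 : (∑ a ∈ range (k + 1), (k.choose a : ℝ) * u (t + Real.log 3 - k * Real.log 2 + a * Real.log 3)) =
      (∑ a ∈ range (k + 1), (k.choose a : ℝ) *
        ((fun a : ℕ => u (t - k * Real.log 2 + a * Real.log 3)) (a + 1) -
          (fun a : ℕ => u (t - k * Real.log 2 + a * Real.log 3)) a)) +
      ∑ a ∈ range (k + 1), (k.choose a : ℝ) * u (t - k * Real.log 2 + a * Real.log 3) := by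
    rw [← Finset.sum_add_distrib]
    refine Finset.sum_congr rfl (fun a _ => ?_)
    have e0 : t + Real.log 3 - k * Real.log 2 + a * Real.log 3 =
        t - k * Real.log 2 + ((a + 1 : ℕ) : ℝ) * Real.log 3 := by push_cast; ring
    rw [e0]; simp only []; ring
  rw [e1] at a2
  generalize (∑ a ∈ range (k + 1), (k.choose a : ℝ) *
        ((fun a : ℕ => u (t - k * Real.log 2 + a * Real.log 3)) (a + 1) -
          (fun a : ℕ => u (t - k * Real.log 2 + a * Real.log 3)) a)) = Z at a2 a3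
  generalize (∑ a ∈ range (k + 1), (k.choose a : ℝ) * u (t - k * Real.log 2 + a * Real.log 3)) = Y at a1 a2
  have h2k : (0 : ℝ) < 2 ^ k := by positivity
  have hs0 : 0 < Real.sqrt τ := Real.sqrt_pos.2 hτ0
  have hsk0 : 0 < Real.sqrt k := Real.sqrt_pos.2 (by linarith)
  have hZ : |Z / 2 ^ k| ≤ 2 * C * (M / Real.sqrt τ) := by
    rw [abs_div, abs_of_pos h2k, div_le_iff₀ h2k]
    refine a3.trans ?_
    have hsq : Real.sqrt τ ≤ 2 * Real.sqrt k := by
      rw [show (2 : ℝ) * Real.sqrt k = Real.sqrt (4 * k) by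
        rw [Real.sqrt_mul (by norm_num), show (4 : ℝ) = 2 ^ 2 by norm_num, Real.sqrt_sq (by norm_num)]]
      exact Real.sqrt_le_sqrt (by linarith)
    have h5 : C * M * 2 ^ k / Real.sqrt k = (C * M * 2 ^ k) * (1 / Real.sqrt k) := by ring
    have h6 : 2 * C * (M / Real.sqrt τ) * 2 ^ k = (C * M * 2 ^ k) * (2 / Real.sqrt τ) := by ring
    rw [h5, h6]
    refine mul_le_mul_of_nonneg_left ?_ (by positivity)
    rw [div_le_div_iff₀ hsk0 hs0]
    linarith
  have hε : k * (M / τ ^ 2) ≤ M / Real.sqrt τ := by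
    have h7 : k * (M / τ ^ 2) ≤ τ * (M / τ ^ 2) := mul_le_mul_of_nonneg_right hk1 (by positivity)
    have h8 : τ * (M / τ ^ 2) = M / τ := by field_simp
    rw [h8] at h7
    refine h7.trans (div_le_div_of_nonneg_left hM hs0 ?_)
    rw [Real.sqrt_le_left hτ0.le]
    nlinarith
  have e2 : (Z + Y) / 2 ^ k = Z / 2 ^ k + Y / 2 ^ k := add_div _ _ _
  rw [e2] at a2
  rw [abs_le] at a1 a2 hZ ⊢
  have e3 : (2 + 2 * C) * (M / Real.sqrt τ) = 2 * (M / Real.sqrt τ) + 2 * C * (M / Real.sqrt τ) := by ring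
  rw [e3]
  constructor <;> linarith [a1.1, a1.2, a2.1, a2.2, hZ.1, hZ.2, hε]

/-- going up `i` steps of length `a` -/
private theorem os_up (u : ℝ → ℝ) (a x D : ℝ) (ha : 0 ≤ a)
    (h : ∀ s : ℝ, x ≤ s → |u (s + a) - u s| ≤ D) (i : ℕ) : |u (x + i * a) - u x| ≤ i * D := by
  induction i with
  | zero => simp
  | succ i ih =>
    have h1 := h (x + i * a) (by have : (0 : ℝ) ≤ i * a := by positivity
                                 linarith)
    have e : x + ((i + 1 : ℕ) : ℝ) * a = x + i * a + a := by push_cast; ring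
    rw [e]
    have h2 := abs_sub_le (u (x + i * a + a)) (u (x + i * a)) (u x)
    push_cast
    linarith

theorem thm_OS (hB : St_BIN) (hI : St_ITR) (hN : St_NET) : St_OS := by
  obtain ⟨C1, hC1, h31⟩ := os_step3 hB hI
  obtain ⟨C0, κ, hC0, hnet⟩ := hN
  have hκ1 : (0 : ℝ) < (κ : ℝ) + 1 := by positivity
  refine ⟨1 / (2 * ((κ : ℝ) + 1)), 4 + C0 * (2 * C1 + 1), by positivity, ?_, by positivity, ?_⟩
  · rw [div_le_one (by positivity)]
    have : (0 : ℝ) ≤ κ := Nat.cast_nonneg _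
    linarith
  intro τ M u hτ hM h1 hlip h3 h t hh0 hh3 ht
  obtain ⟨c, hc⟩ : ∃ c : ℝ, c = 1 / (2 * ((κ : ℝ) + 1)) := ⟨_, rfl⟩
  rw [← hc]
  have hc0 : 0 < c := by rw [hc]; positivity
  have hτ0 : 0 < τ := by linarith
  have hl3 : 0 < Real.log 3 := Real.log_pos (by norm_num)
  have hl2 : 0 < Real.log 2 := Real.log_pos (by norm_num)
  have hs0 : 0 < Real.sqrt τ := Real.sqrt_pos.2 hτ0
  have hMs : 0 ≤ M / Real.sqrt τ := by positivity
  -- the two step lengths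
  have s3 := h31 τ M u hτ hM h1 h3
  have s2 : ∀ s : ℝ, 2 * τ ≤ s → |u (s + Real.log 2) - u s| ≤ (C1 + 1) * (M / Real.sqrt τ) := by
    intro s hs
    have b1 := s3 s hs
    have b2 := h3 s (by linarith)
    unfold Lam at b2
    have b3 : M / τ ^ 2 ≤ M / Real.sqrt τ := by
      refine div_le_div_of_nonneg_left hM hs0 ?_
      rw [Real.sqrt_le_left (by positivity)]
      have : τ ≤ τ ^ 2 := by nlinarith
      have h1' : 1 ≤ τ ^ 2 := by nlinarith
      calc τ ≤ τ ^ 2 * 1 := by linarith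
        _ ≤ τ ^ 2 * τ ^ 2 := mul_le_mul_of_nonneg_left h1' (by positivity)
        _ = (τ ^ 2) ^ 2 := by ring
    have b4 : 0 ≤ C1 * (M / Real.sqrt τ) := by positivity
    rw [abs_le] at b1 b2 ⊢
    constructor <;> nlinarith [b1.1, b1.2, b2.1, b2.2]
  -- the net
  obtain ⟨Q, hQ⟩ : ∃ Q : ℕ, Q = ⌊τ ^ c⌋₊ := ⟨_, rfl⟩
  have hτc : 1 ≤ τ ^ c := Real.one_le_rpow (by linarith) hc0.le
  have hQ1 : (Q : ℝ) ≤ τ ^ c := by rw [hQ]; exact Nat.floor_le (by linarith)
  have hQ2 : τ ^ c < Q + 1 := by rw [hQ]; exact Nat.lt_floor_add_one _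
  have hQ3 : 1 ≤ Q := by rw [hQ]; exact Nat.le_floor (by push_cast; exact hτc)
  have hQR : (1 : ℝ) ≤ Q := by exact_mod_cast hQ3
  obtain ⟨i, j, hi, hj, hij⟩ := hnet Q h hQ3 hh0 hh3
  have h2Q : 2 / (Q : ℝ) ≤ 2 := by
    rw [div_le_iff₀ (by linarith)]; linarith
  -- up
  have w1 := os_up u (Real.log 2) t ((C1 + 1) * (M / Real.sqrt τ)) hl2.le
    (fun s hs => s2 s (by linarith)) i
  -- down
  obtain ⟨x, hx⟩ : ∃ x : ℝ, x = t + i * Real.log 2 - j * Real.log 3 := ⟨_, rfl⟩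
  have hij' := abs_le.1 hij
  have hxt : 2 * τ ≤ x := by
    rw [hx]; linarith [hij'.1]
  have w2 := os_up u (Real.log 3) x (C1 * (M / Real.sqrt τ)) hl3.le
    (fun s hs => s3 s (by linarith)) j
  have ex : x + j * Real.log 3 = t + i * Real.log 2 := by rw [hx]; ring
  rw [ex] at w2
  -- near
  have w3 : |u x - u (t + h)| ≤ M * (2 / Q) := by
    rcases le_total x (t + h) with hle | hle
    · rw [abs_sub_comm]
      refine (hlip x (t + h) (by linarith) hle).trans (mul_le_mul_of_nonneg_left ?_ hM)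
      rw [hx]; linarith [hij'.1]
    · refine (hlip (t + h) x (by linarith) hle).trans (mul_le_mul_of_nonneg_left ?_ hM)
      rw [hx]; linarith [hij'.2]
  -- sizes
  have hτc0 : 0 < τ ^ c := by linarith
  have z1 : M * (2 / Q) ≤ 4 * (M / τ ^ c) := by
    have : 2 / (Q : ℝ) ≤ 4 / τ ^ c := by
      rw [div_le_div_iff₀ (by linarith) hτc0]
      linarith
    calc M * (2 / Q) ≤ M * (4 / τ ^ c) := mul_le_mul_of_nonneg_left this hM
      _ = 4 * (M / τ ^ c) := by ring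
  have z2 : (Q : ℝ) ^ κ * (M / Real.sqrt τ) ≤ M / τ ^ c := by
    have q1 : (Q : ℝ) ^ κ ≤ (τ ^ c) ^ κ := pow_le_pow_left₀ (by linarith) hQ1 κ
    have q2 : (τ ^ c) ^ κ * τ ^ c = Real.sqrt τ := by
      rw [← pow_succ, ← Real.rpow_natCast, ← Real.rpow_mul hτ0.le, Real.sqrt_eq_rpow]
      congr 1
      rw [hc]; push_cast; field_simp
    have q3 : (Q : ℝ) ^ κ * τ ^ c ≤ Real.sqrt τ := by
      rw [← q2]; exact mul_le_mul_of_nonneg_right q1 hτc0.le
    rw [mul_div_assoc', div_le_div_iff₀ hs0 hτc0]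
    calc (Q : ℝ) ^ κ * M * τ ^ c = M * ((Q : ℝ) ^ κ * τ ^ c) := by ring
      _ ≤ M * Real.sqrt τ := mul_le_mul_of_nonneg_left q3 hM
  have z3 : i * ((C1 + 1) * (M / Real.sqrt τ)) ≤ C0 * (C1 + 1) * (M / τ ^ c) := by
    calc i * ((C1 + 1) * (M / Real.sqrt τ)) ≤ (C0 * Q ^ κ) * ((C1 + 1) * (M / Real.sqrt τ)) :=
          mul_le_mul_of_nonneg_right hi (by positivity)
      _ = C0 * (C1 + 1) * ((Q : ℝ) ^ κ * (M / Real.sqrt τ)) := by ring
      _ ≤ _ := mul_le_mul_of_nonneg_left z2 (by positivity)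
  have z4 : j * (C1 * (M / Real.sqrt τ)) ≤ C0 * C1 * (M / τ ^ c) := by
    calc j * (C1 * (M / Real.sqrt τ)) ≤ (C0 * Q ^ κ) * (C1 * (M / Real.sqrt τ)) :=
          mul_le_mul_of_nonneg_right hj (by positivity)
      _ = C0 * C1 * ((Q : ℝ) ^ κ * (M / Real.sqrt τ)) := by ring
      _ ≤ _ := mul_le_mul_of_nonneg_left z2 (by positivity)
  have e9 : (4 + C0 * (2 * C1 + 1)) * M / τ ^ c =
      4 * (M / τ ^ c) + C0 * (C1 + 1) * (M / τ ^ c) + C0 * C1 * (M / τ ^ c) := by ring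
  rw [e9]
  rw [abs_le] at w1 w2 w3 ⊢
  constructor <;> linarith [w1.1, w1.2, w2.1, w2.2, w3.1, w3.2, z1, z3, z4]

end Pool.Agent.RTE
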