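import Pool.Agent.RTE.SmQ2

/-!
RTE, smooth weights in residue classes, part 3 (helper77): the theorem.
-/

set_option autoImplicit false
set_option linter.unusedVariables false

namespace Pool.Agent.RTE

open Finset Filter Topology MeasureTheory
open Pool.Agent.SLD (N EvInv T St_FWE St_ALE ALE_N_le)

open Classical in
/-- [SMQ] smooth weights in residue classes. -/
def St_SMQ : Prop :=
  ∀ (φ : ℝ → ℝ), ContDiff ℝ (⊤ : ℕ∞) φ → HasCompactSupport φ → (∃ s : ℝ, 0 < s ∧ ∀ u : ℝ, u ≤ s → φ u = 0) →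
    ∀ B : ℕ, ∃ δ C : ℝ, 0 < δ ∧ 0 < C ∧ ∀ (σ : ℤ) (K : ℕ) (A : Set ℤ) (d x : ℝ) (q : ℕ) (r : ℤ),
      σ = 1 ∨ σ = -1 → EvInv K A → Tendsto (fun Y : ℕ => (N σ A Y 1 0 : ℝ) / Y) atTop (𝓝 d) → 2 ≤ x →
      (K : ℝ) ≤ x ^ δ → 1 ≤ q → (q : ℝ) ≤ x ^ δ →
      |∑' n : ℕ, (if (q : ℤ) ∣ σ * n - r ∧ σ * (n : ℤ) ∈ A then φ (n / x) else 0) -
        d * x / q * ∫ u, φ u| ≤ C * x / (q * Real.log x ^ B)

open Classical in
/-- the indicator of a class -/
noncomputable def sqA (σ : ℤ) (A : Set ℤ) (q : ℕ) (r : ℤ) (n : ℕ) : ℝ :=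
  if 1 ≤ n ∧ (q : ℤ) ∣ σ * n - r ∧ σ * (n : ℤ) ∈ A then 1 else 0

private theorem sq_abs (σ : ℤ) (A : Set ℤ) (q : ℕ) (r : ℤ) (n : ℕ) : |sqA σ A q r n| ≤ 1 := by
  unfold sqA
  split_ifs <;> norm_num

private theorem sq_zero (σ : ℤ) (A : Set ℤ) (q : ℕ) (r : ℤ) : sqA σ A q r 0 = 0 := by
  unfold sqA
  rw [if_neg (by omega)]

private theorem sq_N {σ : ℤ} (hσ : σ = 1 ∨ σ = -1) (A : Set ℤ) (X q : ℕ) (r : ℤ) :
    (N σ A X q r : ℝ) = ∑ k ∈ Icc 0 X, sqA σ A q r k := by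
  have e : N σ A X q r = N σ {n : ℤ | (q : ℤ) ∣ n - r ∧ n ∈ A} X 1 0 := by
    unfold N
    congr 1
    ext n
    constructor
    · rintro ⟨h1, h2, h3, h4⟩
      exact ⟨h1, h2, by simp, h3, h4⟩
    · rintro ⟨h1, h2, _, h3, h4⟩
      exact ⟨h1, h2, h3, h4⟩
  rw [e, stp_N hσ, ← Nat.range_succ_eq_Icc_zero, Finset.sum_range_succ', sq_zero, add_zero]
  apply Finset.sum_congr rfl
  intro t _
  unfold stpI sqA
  have e : σ * (((t + 1 : ℕ) : ℤ)) = σ * ((t : ℤ) + 1) := by push_cast; ring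
  rw [e]
  by_cases h : (q : ℤ) ∣ σ * ((t : ℤ) + 1) - r ∧ σ * ((t : ℤ) + 1) ∈ A
  · rw [if_pos (show σ * ((t : ℤ) + 1) ∈ {n : ℤ | (q : ℤ) ∣ n - r ∧ n ∈ A} from h), if_pos ⟨by omega, h⟩]
  · rw [if_neg (show ¬ σ * ((t : ℤ) + 1) ∈ {n : ℤ | (q : ℤ) ∣ n - r ∧ n ∈ A} from h),
      if_neg (fun h' => h h'.2)]

/-- integrability -/
private theorem sq_int (a : ℕ → ℝ) (ha : ∀ n, |a n| ≤ 1) (ha0 : a 0 = 0) {ψ : ℝ → ℝ}
    (hψ : Continuous ψ) (hc : HasCompactSupport ψ) (t₀ : ℝ) :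
    Integrable (fun v => smf a (t₀ + v) * ψ v) := by
  have hb : ∀ t : ℝ, |smf a t| ≤ 1 := by
    intro t
    unfold smf
    rw [abs_mul, abs_of_pos (Real.exp_pos _)]
    have h1 : |∑ k ∈ Icc 0 ⌊Real.exp t⌋₊, a k| ≤ Real.exp t := by
      have h2 : |∑ k ∈ Icc 0 ⌊Real.exp t⌋₊, a k| ≤ ((⌊Real.exp t⌋₊ : ℕ) : ℝ) := by
        rw [← Nat.range_succ_eq_Icc_zero, Finset.sum_range_succ', ha0, add_zero]
        refine (Finset.abs_sum_le_sum_abs _ _).trans ?_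
        refine (Finset.sum_le_sum fun k _ => ha (k + 1)).trans ?_
        simp
      exact h2.trans (Nat.floor_le (Real.exp_pos t).le)
    calc Real.exp (-t) * |∑ k ∈ Icc 0 ⌊Real.exp t⌋₊, a k| ≤ Real.exp (-t) * Real.exp t :=
          mul_le_mul_of_nonneg_left h1 (Real.exp_pos _).le
      _ = 1 := by rw [← Real.exp_add]; simp
  have hm : Measurable (smf a) := by
    unfold smf
    apply Measurable.mul
    · exact Real.measurable_exp.comp measurable_neg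
    · exact (measurable_from_nat (f := fun m : ℕ => ∑ k ∈ Icc 0 m, a k)).comp
        (Nat.measurable_floor.comp Real.measurable_exp)
  have hm2 : Measurable (fun v => smf a (t₀ + v)) := hm.comp (measurable_const_add t₀)
  exact (hψ.integrable_of_hasCompactSupport hc).bdd_mul hm2.aestronglyMeasurable
    (Filter.Eventually.of_forall fun v => by rw [Real.norm_eq_abs]; exact hb _)

/-- comparison of the two smooth sums -/
private theorem sq_cmp {φ : ℝ → ℝ} (hφ : ContDiff ℝ (⊤ : ℕ∞) φ) {α β : ℝ} (hα : 0 < α) (hαβ : α < β)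
    (h0 : ∀ y ≤ α, φ y = 0) (h2 : ∀ y, β ≤ y → φ y = 0) {σ : ℤ} (hσ : σ = 1 ∨ σ = -1) (A : Set ℤ)
    {x lam Q : ℝ} {q : ℕ} (r : ℤ) (hx : 0 < x) (hq : 0 < (q : ℝ)) (hlam : 0 < lam) (hQ : Q = lam * q)
    {E : ℝ} (hE : 0 ≤ E)
    (hcmp : ∀ y : ℝ, α * x ≤ y → y ≤ β * x →
      |(N σ A ⌊y⌋₊ q r : ℝ) - N σ A ⌊lam * y⌋₊ 1 0 / Q| ≤ E) :
    |∑' n : ℕ, sqA σ A q r n * φ (n / x) - (1 / Q) * ∑' n : ℕ, sqA σ A 1 0 n * φ (n / (lam * x))| ≤
      E * ((1 / α) * ∫ v, |smw φ v|) := by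
  have hβ : 0 < β := by linarith
  have hφ1 : ContDiff ℝ 1 φ := hφ.of_le (by exact_mod_cast le_top)
  have hQ0 : 0 < Q := by rw [hQ]; positivity
  have hψc : Continuous (smw φ) := (smw_contDiff hφ).continuous
  have hψs : HasCompactSupport (smw φ) := smw_support hα hαβ h0 h2
  rw [smB (sqA σ A q r) hφ1 hβ h2 hx, smB (sqA σ A 1 0) hφ1 hβ h2 (by positivity : 0 < lam * x)]
  have hi1 := sq_int (sqA σ A q r) (sq_abs σ A q r) (sq_zero σ A q r) hψc hψs (Real.log x)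
  have hi2 := sq_int (sqA σ A 1 0) (sq_abs σ A 1 0) (sq_zero σ A 1 0) hψc hψs (Real.log (lam * x))
  have e1' : x * (∫ v : ℝ, smf (sqA σ A q r) (Real.log x + v) * smw φ v) -
      1 / Q * (lam * x * ∫ v : ℝ, smf (sqA σ A 1 0) (Real.log (lam * x) + v) * smw φ v) =
      ∫ v : ℝ, (x * (smf (sqA σ A q r) (Real.log x + v) * smw φ v) -
        (x / q) * (smf (sqA σ A 1 0) (Real.log (lam * x) + v) * smw φ v)) := by
    rw [MeasureTheory.integral_sub (hi1.const_mul _) (hi2.const_mul _),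
      MeasureTheory.integral_const_mul, MeasureTheory.integral_const_mul, hQ]
    field_simp
  rw [e1']
  have hψi : Integrable (fun v => |smw φ v|) := (hψc.integrable_of_hasCompactSupport hψs).abs
  have e2 : E * ((1 / α) * ∫ v, |smw φ v|) = ∫ v, (E * (1 / α)) * |smw φ v| := by
    rw [MeasureTheory.integral_const_mul]
    ring
  rw [e2, ← Real.norm_eq_abs]
  apply MeasureTheory.norm_integral_le_of_norm_le (hψi.const_mul _)
  filter_upwards with v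
  rw [Real.norm_eq_abs]
  by_cases hv : smw φ v = 0
  · rw [hv]
    simp
  -- `e ^ v` is in the support
  have hv1 : α ≤ Real.exp v := by
    by_contra h
    push Not at h
    apply hv
    have h6 : φ =ᶠ[𝓝 (Real.exp v)] fun _ => 0 := by
      filter_upwards [Iio_mem_nhds h] with z hz
      exact h0 z (le_of_lt hz)
    unfold smw
    rw [h6.deriv_eq]
    simp
  have hv2 : Real.exp v ≤ β := by
    by_contra h
    push Not at h
    apply hv
    have h6 : φ =ᶠ[𝓝 (Real.exp v)] fun _ => 0 := by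
      filter_upwards [Ioi_mem_nhds h] with z hz
      exact h2 z (le_of_lt hz)
    unfold smw
    rw [h6.deriv_eq]
    simp
  have hev := Real.exp_pos v
  have h3 : Real.exp (Real.log x + v) = x * Real.exp v := by rw [Real.exp_add, Real.exp_log hx]
  have h4 : Real.exp (Real.log (lam * x) + v) = lam * (x * Real.exp v) := by
    rw [Real.exp_add, Real.exp_log (by positivity)]
    ring
  have h5 := hcmp (x * Real.exp v) (by nlinarith) (by nlinarith)
  have f1 : smf (sqA σ A q r) (Real.log x + v) = (N σ A ⌊x * Real.exp v⌋₊ q r : ℝ) / (x * Real.exp v) := by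
    unfold smf
    rw [← sq_N hσ, Real.exp_neg, h3]
    field_simp
  have f2 : smf (sqA σ A 1 0) (Real.log (lam * x) + v) =
      (N σ A ⌊lam * (x * Real.exp v)⌋₊ 1 0 : ℝ) / (lam * (x * Real.exp v)) := by
    unfold smf
    rw [← sq_N hσ, Real.exp_neg, h4]
    field_simp
  rw [f1, f2]
  have f3 : x * ((N σ A ⌊x * Real.exp v⌋₊ q r : ℝ) / (x * Real.exp v) * smw φ v) -
      x / q * ((N σ A ⌊lam * (x * Real.exp v)⌋₊ 1 0 : ℝ) / (lam * (x * Real.exp v)) * smw φ v) =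
      ((N σ A ⌊x * Real.exp v⌋₊ q r : ℝ) - N σ A ⌊lam * (x * Real.exp v)⌋₊ 1 0 / Q) *
        (1 / Real.exp v) * smw φ v := by
    rw [hQ]
    field_simp
  rw [f3, abs_mul, abs_mul, abs_of_pos (by positivity : (0 : ℝ) < 1 / Real.exp v)]
  apply mul_le_mul_of_nonneg_right _ (abs_nonneg _)
  apply mul_le_mul h5 _ (by positivity) hE
  exact one_div_le_one_div_of_le hα hv1

theorem thm_SMQ (h1 : St_FWE) (hA : St_ALE) (hS : St_SMOOTH) : St_SMQ := by
  classical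
  intro φ hφ hc hs B
  obtain ⟨α, hα, h0⟩ := hs
  obtain ⟨β, hαβ, h2⟩ : ∃ β : ℝ, α < β ∧ ∀ y, β ≤ y → φ y = 0 := by
    obtain ⟨M, hM⟩ := hc.isCompact.bddAbove
    refine ⟨max (M + 1) (α + 1), by linarith [le_max_right (M + 1) (α + 1)], ?_⟩
    intro y hy
    apply image_eq_zero_of_notMem_tsupport
    intro h
    have h1 : y ≤ M := hM h
    linarith [le_max_left (M + 1) (α + 1)]
  obtain ⟨δ₁, C₁, hδ₁, hδ₁8, hC₁, hcmp⟩ := smq_cmp h1 hA α β hα hαβ B
  obtain ⟨δ₂, C₂, hδ₂, hC₂, hsm⟩ := hS φ hφ hc ⟨α, hα, h0⟩ B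
  obtain ⟨I, hI⟩ : ∃ I : ℝ, I = (1 / α) * ∫ v, |smw φ v| := ⟨_, rfl⟩
  have hI0 : 0 ≤ I := by
    rw [hI]
    have : 0 ≤ ∫ v, |smw φ v| := MeasureTheory.integral_nonneg fun v => abs_nonneg _
    positivity
  obtain ⟨δ, hδ⟩ : ∃ δ : ℝ, δ = min δ₁ (δ₂ / 2) := ⟨_, rfl⟩
  have hδ0 : 0 < δ := by rw [hδ]; exact lt_min hδ₁ (by positivity)
  have hδa : δ ≤ δ₁ := by rw [hδ]; exact min_le_left _ _
  have hδb : δ ≤ δ₂ / 2 := by rw [hδ]; exact min_le_right _ _
  refine ⟨δ, C₁ * I + C₂ * 2 ^ B, hδ0, by positivity, ?_⟩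
  intro σ K A d x q r hσ hEv hlim hx hK hq hqx
  have hx0 : 0 < x := by linarith
  have hx1 : 1 ≤ x := by linarith
  have hlogx : 0 < Real.log x := Real.log_pos (by linarith)
  have hlB : 0 < Real.log x ^ B := by positivity
  have hq1 : (1 : ℝ) ≤ q := by exact_mod_cast hq
  have hq0 : (0 : ℝ) < q := by linarith
  -- the sums in terms of `sqA`
  have hφ0 : φ 0 = 0 := h0 0 hα.le
  have t1 : ∀ (q' : ℕ) (r' : ℤ) (z : ℝ) (n : ℕ),
      (if (q' : ℤ) ∣ σ * n - r' ∧ σ * (n : ℤ) ∈ A then φ (n / z) else 0) = sqA σ A q' r' n * φ (n / z) := by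
    intro q' r' z n
    unfold sqA
    rcases Nat.eq_zero_or_pos n with hn | hn
    · have h3 : φ ((n : ℝ) / z) = 0 := by rw [hn, Nat.cast_zero, zero_div, hφ0]
      rw [h3]
      simp
    · by_cases h : (q' : ℤ) ∣ σ * n - r' ∧ σ * (n : ℤ) ∈ A
      · rw [if_pos h, if_pos ⟨hn, h⟩, one_mul]
      · rw [if_neg h, if_neg (fun h' => h h'.2), zero_mul]
  have t2 : ∀ (z : ℝ) (n : ℕ),
      (if σ * (n : ℤ) ∈ A then φ (n / z) else 0) = sqA σ A 1 0 n * φ (n / z) := by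
    intro z n
    rw [← t1 1 0 z n]
    by_cases h : σ * (n : ℤ) ∈ A
    · rw [if_pos h, if_pos ⟨by simp, h⟩]
    · rw [if_neg h, if_neg (fun h' => h h'.2)]
  have hgoal : ∀ c : ℝ, c * x / (q * Real.log x ^ B) = c * ((x / q) / Real.log x ^ B) := by
    intro c
    field_simp
  rw [hgoal, tsum_congr (t1 q r x)]
  have hu0 : 0 < (x / q) / Real.log x ^ B := by positivity
  rcases Nat.lt_or_ge q 2 with hq2 | hq2
  · -- q = 1
    have hq' : q = 1 := by omega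
    subst hq'
    have hK2 : (K : ℝ) ≤ x ^ δ₂ :=
      hK.trans (Real.rpow_le_rpow_of_exponent_le hx1 (by linarith))
    have g1 := hsm σ K A d x hσ hEv hlim hx hK2
    rw [tsum_congr (t2 x)] at g1
    have g2 : ∀ n : ℕ, sqA σ A 1 r n = sqA σ A 1 0 n := by
      intro n
      unfold sqA
      simp
    simp only [g2]
    have g3 : d * x / ((1 : ℕ) : ℝ) * ∫ u, φ u = d * x * ∫ u, φ u := by
      rw [Nat.cast_one, div_one]
    rw [g3]
    refine g1.trans ?_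
    have g4 : C₂ * x / Real.log x ^ B = C₂ * 1 * ((x / ((1 : ℕ) : ℝ)) / Real.log x ^ B) := by
      rw [Nat.cast_one]
      ring
    rw [g4]
    apply mul_le_mul_of_nonneg_right _ hu0.le
    have g5 : C₂ * 1 ≤ C₂ * 2 ^ B :=
      mul_le_mul_of_nonneg_left (one_le_pow₀ (by norm_num)) hC₂.le
    have g6 : 0 ≤ C₁ * I := by positivity
    linarith
  -- q ≥ 2
  have hqr2 : (2 : ℝ) ≤ q := by exact_mod_cast hq2
  have hK1 : (K : ℝ) ≤ x ^ δ₁ := hK.trans (Real.rpow_le_rpow_of_exponent_le hx1 hδa)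
  have hqx1 : (q : ℝ) ≤ x ^ δ₁ := hqx.trans (Real.rpow_le_rpow_of_exponent_le hx1 hδa)
  obtain ⟨lam, Q, hlam0, hQ0, hQl, hlq, -, hcm⟩ := hcmp σ K A x q r hσ hEv hx hK1 hq hqx1
  rw [hgoal] at hcm
  have c1 := sq_cmp hφ hα hαβ h0 h2 hσ A r hx0 hq0 hlam0 hQl
    (by positivity : 0 ≤ C₁ * ((x / q) / Real.log x ^ B)) hcm
  rw [← hI] at c1
  -- the range `lam x`
  obtain ⟨S, hS⟩ : ∃ S : ℝ, S = x ^ ((1 : ℝ) / 4) := ⟨_, rfl⟩
  have hS0 : 0 < S := by rw [hS]; exact Real.rpow_pos_of_pos hx0 _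
  have hS4 : S ^ 4 = x := by
    rw [hS, ← Real.rpow_natCast, ← Real.rpow_mul hx0.le]
    norm_num
  have hqS : (q : ℝ) ≤ S := by
    refine hqx1.trans ?_
    rw [hS]
    exact Real.rpow_le_rpow_of_exponent_le hx1 (by linarith)
  have hS2 : 2 ≤ S := hqr2.trans hqS
  have hlx : S ^ 2 ≤ lam * x := by
    have d1 : x ≤ lam * x * q := by nlinarith
    have d2 : lam * x * q ≤ lam * x * S := mul_le_mul_of_nonneg_left hqS (by positivity)
    have d3 : S ^ 3 * S ≤ lam * x * S := by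
      have : S ^ 3 * S = x := by rw [← hS4]; ring
      linarith
    have d4 : S ^ 3 ≤ lam * x := le_of_mul_le_mul_right d3 hS0
    have d5 : S ^ 2 ≤ S ^ 3 := pow_le_pow_right₀ (by linarith) (by norm_num)
    linarith
  have hS22 : 2 ≤ S ^ 2 := by nlinarith
  have hlx2 : 2 ≤ lam * x := by linarith
  have hKl : (K : ℝ) ≤ (lam * x) ^ δ₂ := by
    refine hK.trans ?_
    have d1 : x ^ δ = (S ^ 2) ^ (2 * δ) := by
      rw [← hS4, ← Real.rpow_natCast S 2, ← Real.rpow_natCast S 4, ← Real.rpow_mul hS0.le,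
        ← Real.rpow_mul hS0.le]
      congr 1
      push_cast
      ring
    rw [d1]
    calc (S ^ 2) ^ (2 * δ) ≤ (S ^ 2) ^ δ₂ :=
          Real.rpow_le_rpow_of_exponent_le (by linarith) (by linarith)
      _ ≤ (lam * x) ^ δ₂ := Real.rpow_le_rpow (by positivity) hlx hδ₂.le
  have g1 := hsm σ K A d (lam * x) hσ hEv hlim hlx2 hKl
  rw [tsum_congr (t2 (lam * x))] at g1
  have hloglx : Real.log x / 2 ≤ Real.log (lam * x) := by
    have h3 : Real.log (S ^ 2) ≤ Real.log (lam * x) := Real.log_le_log (by positivity) hlx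
    have h4 : Real.log (S ^ 2) = Real.log x / 2 := by
      rw [← hS4, Real.log_pow, Real.log_pow]
      push_cast
      ring
    linarith
  have hloglx0 : 0 < Real.log (lam * x) := by linarith
  have g2 : C₂ * (lam * x) / Real.log (lam * x) ^ B ≤ C₂ * 2 ^ B * (lam * x) / Real.log x ^ B := by
    have d1 : Real.log x ^ B ≤ 2 ^ B * Real.log (lam * x) ^ B := by
      rw [← mul_pow]
      exact pow_le_pow_left₀ hlogx.le (by linarith) B
    rw [div_le_div_iff₀ (by positivity) hlB]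
    have d2 : C₂ * (lam * x) * Real.log x ^ B ≤ C₂ * (lam * x) * (2 ^ B * Real.log (lam * x) ^ B) :=
      mul_le_mul_of_nonneg_left d1 (by positivity)
    linarith
  have g3 := g1.trans g2
  have g4 : |(1 / Q) * ∑' n : ℕ, sqA σ A 1 0 n * φ (n / (lam * x)) - d * x / q * ∫ u, φ u| ≤
      C₂ * 2 ^ B * ((x / q) / Real.log x ^ B) := by
    have d1 : (1 / Q) * ∑' n : ℕ, sqA σ A 1 0 n * φ (n / (lam * x)) - d * x / q * ∫ u, φ u =
        (1 / Q) * (∑' n : ℕ, sqA σ A 1 0 n * φ (n / (lam * x)) - d * (lam * x) * ∫ u, φ u) := by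
      rw [hQl]
      field_simp
    rw [d1, abs_mul, abs_of_pos (by positivity : (0 : ℝ) < 1 / Q)]
    calc 1 / Q * |∑' n : ℕ, sqA σ A 1 0 n * φ (n / (lam * x)) - d * (lam * x) * ∫ u, φ u| ≤
          1 / Q * (C₂ * 2 ^ B * (lam * x) / Real.log x ^ B) :=
          mul_le_mul_of_nonneg_left g3 (by positivity)
      _ = C₂ * 2 ^ B * ((x / q) / Real.log x ^ B) := by
          rw [hQl]
          field_simp
  have k1 := abs_le.1 c1
  have k2 := abs_le.1 g4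
  have k3 : C₁ * ((x / q) / Real.log x ^ B) * I + C₂ * 2 ^ B * ((x / q) / Real.log x ^ B) =
      (C₁ * I + C₂ * 2 ^ B) * ((x / q) / Real.log x ^ B) := by ring
  rw [← k3, abs_le]
  constructor
  · linarith [k1.1, k2.1]
  · linarith [k1.2, k2.2]

end Pool.Agent.RTE
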