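import Pool.Agent.RTE.AllX
import Pool.Agent.RTE.SmBin
import Pool.Agent.RTE.SmOS
import Pool.Agent.RTE.SmInv
import Pool.Agent.RTE.SmCore
import Pool.Agent.RTE.SmAT
import Pool.Agent.RTE.SmBt
import Pool.Agent.RTE.SmFin
import Pool.Agent.RTE.SmQ3

/-! RTE, assembly of the smooth weights. -/

set_option autoImplicit false

namespace Pool.Agent.RTE

theorem all_SMQ : St_SMQ :=
  thm_SMQ Pool.Agent.SLD.thm_FWE Pool.Agent.SLD.all_ALE
    (thm_SMOOTH (thm_CORE (thm_OS thm_BIN thm_ITR thm_NET) thm_INV) thm_SMA thm_SMB)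

end Pool.Agent.RTE
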