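import Pool.Agent.RTE.SmSt
import Pool.Agent.RTE.SmB
import Pool.Agent.RTE.STP
import Pool.Agent.SLD.TWE
import Pool.Agent.SLD.ALE

/-!
RTE, smooth weights in residue classes, part 1 (helper77): the counting functions of the classes.
-/

set_option autoImplicit false
set_option linter.unusedVariables false

namespace Pool.Agent.RTE

open Finset Filter Topology MeasureTheory
open Pool.Agent.SLD (N EvInv T St_FWE St_ALE TWO_A TWO_it_zero TWO_pos TWO_neg TWO_card TWE_small TWE_cmp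
  TWE_fin ALE_N_le)

theorem smq_twu (h1 : St_FWE) (σ r : ℤ) (K : ℕ) (A : Set ℤ) (i q₁ : ℕ) (hσ : σ = 1 ∨ σ = -1)
    (hA : EvInv K A) : ∃ (a : ℕ) (b : ℤ), a ≤ i ∧ ∀ X : ℕ, ∃ X' : ℕ,
      |(N σ A X (2 ^ i * q₁) r : ℝ) - N σ A X' (3 ^ a * q₁) b| ≤ K + 1 ∧
      |(X' : ℝ) - 3 ^ a * X / 2 ^ i| ≤ 2 * 3 ^ a := by
  have hp : (0 : ℤ) < 2 ^ i := by positivity
  obtain ⟨a, t, ha, ht0, ht1, hl⟩ := TWO_A i (r % 2 ^ i) (Int.emod_nonneg _ hp.ne')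
    (Int.emod_lt_of_pos _ hp)
  have hr0 := Int.emod_nonneg r hp.ne'
  have hr1 := Int.emod_lt_of_pos r hp
  have hrr := Int.emod_add_mul_ediv r (2 ^ i)
  set r₀ := r % 2 ^ i with hr₀
  set k := r / 2 ^ i with hk
  have hz : r₀ = 0 ↔ t = 0 := by
    have h1 := hl 0
    rw [mul_zero, mul_zero, add_zero, zero_add] at h1
    rw [← h1]
    exact (TWO_it_zero i r₀).symm
  refine ⟨a, t + 3 ^ a * k, ha, fun X => ?_⟩
  have key : ∃ X' : ℕ, (∀ l : ℤ, (1 ≤ σ * (r₀ + 2 ^ i * l) ∧ σ * (r₀ + 2 ^ i * l) ≤ X) ↔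
      (1 ≤ σ * (t + 3 ^ a * l) ∧ σ * (t + 3 ^ a * l) ≤ X')) ∧
      |(X' : ℝ) - 3 ^ a * X / 2 ^ i| ≤ 2 * 3 ^ a := by
    rcases hσ with rfl | rfl
    · obtain ⟨X', h1, h2⟩ := TWO_pos X a i r₀ t hr0 hr1 ht0 ht1 hz
      refine ⟨X', fun l => ?_, h2⟩
      rw [one_mul, one_mul]
      exact h1 l
    · obtain ⟨X', h1, h2⟩ := TWO_neg X a i r₀ t hr0 hr1 ht0 ht1
      refine ⟨X', fun l => ?_, h2⟩
      rw [neg_one_mul, neg_one_mul]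
      exact h1 l
  obtain ⟨X', hX', hX2⟩ := key
  refine ⟨X', ?_, hX2⟩
  let S : Set ℤ := {l | (q₁ : ℤ) ∣ l - k ∧ 1 ≤ σ * (r₀ + 2 ^ i * l) ∧
    σ * (r₀ + 2 ^ i * l) ≤ X ∧ r₀ + 2 ^ i * l ∈ A}
  let S' : Set ℤ := {l | (q₁ : ℤ) ∣ l - k ∧ 1 ≤ σ * (r₀ + 2 ^ i * l) ∧
    σ * (r₀ + 2 ^ i * l) ≤ X ∧ t + 3 ^ a * l ∈ A}
  let D : Set ℤ := {l | 1 ≤ σ * (r₀ + 2 ^ i * l) ∧ |r₀ + 2 ^ i * l| ≤ K * 2 ^ i}
  have e1 : N σ A X (2 ^ i * q₁) r = S.ncard := by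
    refine TWO_card σ A X (2 ^ i * q₁) q₁ (2 ^ i) r r₀ k hp.ne' S ?_ hrr.symm
      (fun l => Iff.rfl)
    push_cast
    rfl
  have e2 : N σ A X' (3 ^ a * q₁) (t + 3 ^ a * k) = S'.ncard := by
    refine TWO_card σ A X' (3 ^ a * q₁) q₁ (3 ^ a) (t + 3 ^ a * k) t k
      (by positivity) S' ?_ rfl (fun l => ?_)
    · push_cast
      rfl
    · have h2 := hX' l
      constructor
      · rintro ⟨h3, h4, h5, h6⟩
        exact ⟨h3, (h2.1 ⟨h4, h5⟩).1, (h2.1 ⟨h4, h5⟩).2, h6⟩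
      · rintro ⟨h3, h4, h5, h6⟩
        exact ⟨h3, (h2.2 ⟨h4, h5⟩).1, (h2.2 ⟨h4, h5⟩).2, h6⟩
  obtain ⟨hDf, hDc⟩ := TWE_small σ hσ K i r₀ hr0 hr1 D (fun l hl => hl)
  rw [e1, e2]
  refine TWE_cmp S S' D (TWE_fin σ hσ X i r₀ hr0 hr1 S fun l hl => ⟨hl.2.1, hl.2.2.1⟩)
    (TWE_fin σ hσ X i r₀ hr0 hr1 S' fun l hl => ⟨hl.2.1, hl.2.2.1⟩) hDf (fun l hd => ?_) K hDc
  have h5 : 1 ≤ σ * (r₀ + 2 ^ i * l) → (r₀ + 2 ^ i * l ∈ A ↔ t + 3 ^ a * l ∈ A) := by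
    intro h6
    have h7 : (K : ℤ) * 2 ^ i < |r₀ + 2 ^ i * l| := by
      by_contra hc
      exact hd ⟨h6, not_lt.1 hc⟩
    have h8 := h1.2 K A hA _ _ h7
    rw [hl] at h8
    rw [← h8, add_comm]
  constructor
  · rintro ⟨h6, h7, h8, h9⟩
    exact ⟨h6, h7, h8, (h5 h7).1 h9⟩
  · rintro ⟨h6, h7, h8, h9⟩
    exact ⟨h6, h7, h8, (h5 h7).2 h9⟩


/-- one step of the counting function -/
private theorem smq_diff {σ : ℤ} (hσ : σ = 1 ∨ σ = -1) (A : Set ℤ) (m k : ℕ) :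
    (N σ A m 1 0 : ℝ) ≤ N σ A (m + k) 1 0 ∧ (N σ A (m + k) 1 0 : ℝ) ≤ N σ A m 1 0 + k := by
  rw [stp_N hσ, stp_N hσ]
  induction k with
  | zero => simp
  | succ k ih =>
    rw [← add_assoc, Finset.sum_range_succ]
    have h1 : 0 ≤ stpI A (σ * (((m + k : ℕ) : ℤ) + 1)) ∧ stpI A (σ * (((m + k : ℕ) : ℤ) + 1)) ≤ 1 := by
      unfold stpI
      split_ifs <;> norm_num
    push_cast at h1 ih ⊢
    constructor <;> linarith [ih.1, ih.2, h1.1, h1.2]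

theorem smq_lip {σ : ℤ} (hσ : σ = 1 ∨ σ = -1) (A : Set ℤ) (m n : ℕ) :
    |(N σ A m 1 0 : ℝ) - N σ A n 1 0| ≤ |(m : ℝ) - n| := by
  rcases le_total m n with h | h
  · obtain ⟨k, rfl⟩ := Nat.exists_eq_add_of_le h
    have h1 := smq_diff hσ A m k
    have e : |(m : ℝ) - ((m + k : ℕ) : ℝ)| = k := by
      push_cast
      rw [show (m : ℝ) - (m + k) = -(k : ℝ) by ring, abs_neg, abs_of_nonneg (Nat.cast_nonneg k)]
    rw [e, abs_le]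
    constructor <;> linarith [h1.1, h1.2]
  · obtain ⟨k, rfl⟩ := Nat.exists_eq_add_of_le h
    have h1 := smq_diff hσ A n k
    have e : |((n + k : ℕ) : ℝ) - n| = k := by
      push_cast
      rw [show (n : ℝ) + k - n = (k : ℝ) by ring, abs_of_nonneg (Nat.cast_nonneg k)]
    rw [e, abs_le]
    constructor <;> linarith [h1.1, h1.2]

end Pool.Agent.RTE
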