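import Pool.Agent.RTE.SmQ1

/-!
RTE, smooth weights in residue classes, part 2 (helper77): the counting function of a class against the
counting function of the set.
-/

set_option autoImplicit false
set_option linter.unusedVariables false

namespace Pool.Agent.RTE

open Finset Filter Topology MeasureTheory
open Pool.Agent.SLD (N EvInv T St_FWE St_ALE ALE_N_le)

private theorem smq_log {x S : ℝ} (hx : 1 ≤ x) (hS : S ^ 4 = x) (hS0 : 0 < S) (B : ℕ) :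
    Real.log x ^ B ≤ (2 * (B : ℝ) + 2) ^ B * S ^ 2 := by
  have hx0 : 0 < x := by linarith
  have hlog : 0 ≤ Real.log x := Real.log_nonneg hx
  have he : (0 : ℝ) < 1 / (2 * (B : ℝ) + 2) := by positivity
  have h1 : Real.log x ≤ x ^ (1 / (2 * (B : ℝ) + 2)) / (1 / (2 * (B : ℝ) + 2)) :=
    Real.log_le_rpow_div hx0.le he
  have h2 : x ^ (1 / (2 * (B : ℝ) + 2)) / (1 / (2 * (B : ℝ) + 2)) =
      (2 * (B : ℝ) + 2) * x ^ (1 / (2 * (B : ℝ) + 2)) := by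
    field_simp
  rw [h2] at h1
  have h3 : Real.log x ^ B ≤ ((2 * (B : ℝ) + 2) * x ^ (1 / (2 * (B : ℝ) + 2))) ^ B :=
    pow_le_pow_left₀ hlog h1 B
  rw [mul_pow] at h3
  refine h3.trans (mul_le_mul_of_nonneg_left ?_ (by positivity))
  have h4 : (x ^ (1 / (2 * (B : ℝ) + 2))) ^ B = x ^ (1 / (2 * (B : ℝ) + 2) * B) := by
    rw [← Real.rpow_natCast, ← Real.rpow_mul hx0.le]
  have h5 : S ^ 2 = x ^ ((1 : ℝ) / 2) := by
    rw [← hS, ← Real.rpow_natCast S 4, ← Real.rpow_mul hS0.le]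
    norm_num
  rw [h4, h5]
  apply Real.rpow_le_rpow_of_exponent_le hx
  rw [div_mul_eq_mul_div, one_mul, div_le_div_iff₀ (by positivity) (by norm_num)]
  have : (0 : ℝ) ≤ B := Nat.cast_nonneg B
  linarith

set_option maxHeartbeats 1000000 in
theorem smq_cmp (h1 : St_FWE) (hA : St_ALE) (α β : ℝ) (hα : 0 < α) (hαβ : α < β) (B : ℕ) :
    ∃ δ C : ℝ, 0 < δ ∧ δ ≤ 1 / 8 ∧ 0 < C ∧ ∀ (σ : ℤ) (K : ℕ) (A : Set ℤ) (x : ℝ) (q : ℕ) (r : ℤ),
      σ = 1 ∨ σ = -1 → EvInv K A → 2 ≤ x → (K : ℝ) ≤ x ^ δ → 1 ≤ q → (q : ℝ) ≤ x ^ δ →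
      ∃ lam Q : ℝ, 0 < lam ∧ 0 < Q ∧ Q = lam * q ∧ 1 ≤ lam * q ∧ lam ≤ q ∧
        ∀ y : ℝ, α * x ≤ y → y ≤ β * x →
          |(N σ A ⌊y⌋₊ q r : ℝ) - N σ A ⌊lam * y⌋₊ 1 0 / Q| ≤ C * x / (q * Real.log x ^ B) := by
  have hβ : 0 < β := by linarith
  obtain ⟨δ₁, hδ₁, C₁, hC₁⟩ := hA B
  obtain ⟨δ, hδ⟩ : ∃ δ : ℝ, δ = min (δ₁ / 4) (1 / 8) := ⟨_, rfl⟩
  have hδ0 : 0 < δ := by rw [hδ]; exact lt_min (by positivity) (by norm_num)
  have hδ4 : δ ≤ δ₁ / 4 := by rw [hδ]; exact min_le_left _ _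
  have hδ8 : δ ≤ 1 / 8 := by rw [hδ]; exact min_le_right _ _
  obtain ⟨X₀, hX₀⟩ : ∃ X₀ : ℝ, X₀ = 256 + (4 / α) ^ 4 := ⟨_, rfl⟩
  have hX₀0 : 256 ≤ X₀ := by
    rw [hX₀]
    have : 0 ≤ (4 / α) ^ 4 := by positivity
    linarith
  obtain ⟨M, hM⟩ : ∃ M : ℝ, M = (2 * (B : ℝ) + 2) ^ B := ⟨_, rfl⟩
  have hM0 : 0 < M := by rw [hM]; positivity
  have hX₀p : 0 < X₀ := by linarith
  refine ⟨δ, 6 * M + |C₁| * 2 ^ B * (β + 2) + β * (X₀ * X₀ ^ B), hδ0, hδ8, by positivity, ?_⟩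
  intro σ K A x q r hσ hI hx hK hq hqx
  have hx0 : 0 < x := by linarith
  have hx1 : 1 ≤ x := by linarith
  have hlogx : 0 < Real.log x := Real.log_pos (by linarith)
  have hq1 : (1 : ℝ) ≤ q := by exact_mod_cast hq
  have hq0 : (0 : ℝ) < q := by linarith
  -- the odd part
  obtain ⟨i, q₁, hq₁, hqi⟩ := Nat.exists_eq_two_pow_mul_odd (n := q) (by omega)
  have hq₁1 : 1 ≤ q₁ := hq₁.pos
  have hq₁r : (1 : ℝ) ≤ q₁ := by exact_mod_cast hq₁1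
  have hq₁0 : (0 : ℝ) < q₁ := by linarith
  have hqi' : (q : ℝ) = 2 ^ i * q₁ := by rw [hqi]; push_cast; ring
  have h2i0 : (0 : ℝ) < 2 ^ i := by positivity
  have h2i : (2 : ℝ) ^ i ≤ q := by
    rw [hqi']
    exact le_mul_of_one_le_right h2i0.le hq₁r
  obtain ⟨a, b, hai, htw⟩ := smq_twu h1 σ r K A i q₁ hσ hI
  have h3a1 : (1 : ℝ) ≤ 3 ^ a := one_le_pow₀ (by norm_num)
  have h3a0 : (0 : ℝ) < 3 ^ a := by positivity
  have h3a2 : (3 : ℝ) ^ a ≤ (2 ^ i) ^ 2 := by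
    calc (3 : ℝ) ^ a ≤ 3 ^ i := pow_le_pow_right₀ (by norm_num) hai
      _ ≤ 4 ^ i := pow_le_pow_left₀ (by norm_num) (by norm_num) i
      _ = (2 ^ i) ^ 2 := by rw [← pow_mul, mul_comm, pow_mul]; norm_num
  obtain ⟨lam, hlam⟩ : ∃ lam : ℝ, lam = 3 ^ a / 2 ^ i := ⟨_, rfl⟩
  have hlam0 : 0 < lam := by rw [hlam]; positivity
  obtain ⟨Q, hQ⟩ : ∃ Q : ℝ, Q = 3 ^ a * q₁ := ⟨_, rfl⟩
  have hQ0 : 0 < Q := by rw [hQ]; positivity
  have hQ1 : 1 ≤ Q := by rw [hQ]; exact one_le_mul_of_one_le_of_one_le h3a1 hq₁r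
  have hQl : Q = lam * q := by rw [hQ, hlam, hqi']; field_simp
  have hlamq : lam ≤ q := by
    refine le_trans ?_ h2i
    rw [hlam, div_le_iff₀ h2i0, ← sq]
    exact h3a2
  refine ⟨lam, Q, hlam0, hQ0, hQl, by rw [← hQl]; exact hQ1, hlamq, ?_⟩
  intro y hy1 hy2
  have hy0 : 0 < y := lt_of_lt_of_le (by positivity) hy1
  have hxq0 : 0 < x / q := by positivity
  have hlB : 0 < Real.log x ^ B := by positivity
  have hl0 : (0 : ℝ) ≤ lam * y := by positivity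
  have rw1 : ∀ c : ℝ, c * x / (q * Real.log x ^ B) = c * ((x / q) / Real.log x ^ B) := by
    intro c
    field_simp
  have hu0 : 0 < (x / q) / Real.log x ^ B := by positivity
  rw [rw1]
  have hfl1 : ((⌊y⌋₊ : ℕ) : ℝ) ≤ y := Nat.floor_le hy0.le
  have hfl2 : y < ((⌊y⌋₊ : ℕ) : ℝ) + 1 := Nat.lt_floor_add_one y
  have hfl3 : ((⌊lam * y⌋₊ : ℕ) : ℝ) ≤ lam * y := Nat.floor_le hl0
  have hfl4 : lam * y < ((⌊lam * y⌋₊ : ℕ) : ℝ) + 1 := Nat.lt_floor_add_one _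
  have hlQ : lam / Q = 1 / q := by rw [hQl]; field_simp
  have hqx1 : (q : ℝ) ≤ x := by
    refine hqx.trans ?_
    calc x ^ δ ≤ x ^ (1 : ℝ) := Real.rpow_le_rpow_of_exponent_le hx1 (by linarith)
      _ = x := Real.rpow_one x
  by_cases hsm : x < X₀
  · -- small x
    have a1 : (N σ A ⌊y⌋₊ q r : ℝ) ≤ β * x := by
      have : (N σ A ⌊y⌋₊ q r : ℝ) ≤ ((⌊y⌋₊ : ℕ) : ℝ) := by
        exact_mod_cast ALE_N_le σ hσ A ⌊y⌋₊ q r
      linarith
    have a2 : (N σ A ⌊lam * y⌋₊ 1 0 : ℝ) / Q ≤ β * x := by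
      have h3 : (N σ A ⌊lam * y⌋₊ 1 0 : ℝ) ≤ lam * y := by
        have : (N σ A ⌊lam * y⌋₊ 1 0 : ℝ) ≤ ((⌊lam * y⌋₊ : ℕ) : ℝ) := by
          exact_mod_cast ALE_N_le σ hσ A ⌊lam * y⌋₊ 1 0
        linarith
      calc (N σ A ⌊lam * y⌋₊ 1 0 : ℝ) / Q ≤ lam * y / Q := div_le_div_of_nonneg_right h3 hQ0.le
        _ = (lam / Q) * y := by ring
        _ = y / q := by rw [hlQ]; ring
        _ ≤ y := div_le_self hy0.le hq1
        _ ≤ β * x := hy2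
    have a3 : (0 : ℝ) ≤ N σ A ⌊y⌋₊ q r := Nat.cast_nonneg _
    have a4 : (0 : ℝ) ≤ (N σ A ⌊lam * y⌋₊ 1 0 : ℝ) / Q := by positivity
    have a5 : |(N σ A ⌊y⌋₊ q r : ℝ) - N σ A ⌊lam * y⌋₊ 1 0 / Q| ≤ β * x := by
      rw [abs_le]
      constructor <;> linarith
    have a6 : β * x ≤ β * (X₀ * X₀ ^ B) * ((x / q) / Real.log x ^ B) := by
      have b1 : Real.log x ≤ X₀ := by
        have := Real.log_le_sub_one_of_pos hx0
        linarith
      have b2 : Real.log x ^ B ≤ X₀ ^ B := pow_le_pow_left₀ hlogx.le b1 B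
      have b3 : (q : ℝ) ≤ X₀ := by linarith
      have b4 : (q : ℝ) * Real.log x ^ B ≤ X₀ * X₀ ^ B := mul_le_mul b3 b2 hlB.le hX₀p.le
      have b5 : (x / q) / Real.log x ^ B = x / (q * Real.log x ^ B) := by field_simp
      rw [b5, mul_div_assoc', le_div_iff₀ (by positivity)]
      have b6 : β * x * (q * Real.log x ^ B) ≤ β * x * (X₀ * X₀ ^ B) :=
        mul_le_mul_of_nonneg_left b4 (by positivity)
      linarith
    calc |(N σ A ⌊y⌋₊ q r : ℝ) - N σ A ⌊lam * y⌋₊ 1 0 / Q| ≤ β * x := a5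
      _ ≤ β * (X₀ * X₀ ^ B) * ((x / q) / Real.log x ^ B) := a6
      _ ≤ (6 * M + |C₁| * 2 ^ B * (β + 2) + β * (X₀ * X₀ ^ B)) * ((x / q) / Real.log x ^ B) := by
          apply mul_le_mul_of_nonneg_right _ hu0.le
          have : 0 ≤ 6 * M + |C₁| * 2 ^ B * (β + 2) := by positivity
          linarith
  push Not at hsm
  -- the fourth root
  obtain ⟨S, hS⟩ : ∃ S : ℝ, S = x ^ ((1 : ℝ) / 4) := ⟨_, rfl⟩
  have hS0 : 0 < S := by rw [hS]; exact Real.rpow_pos_of_pos hx0 _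
  have hS4 : S ^ 4 = x := by
    rw [hS, ← Real.rpow_natCast, ← Real.rpow_mul hx0.le]
    norm_num
  have hSα : 4 / α ≤ S := by
    by_contra h
    push Not at h
    have : S ^ 4 < (4 / α) ^ 4 := pow_lt_pow_left₀ h hS0.le (by norm_num)
    rw [hS4] at this
    linarith
  have hS4' : 4 ≤ S := by
    by_contra h
    push Not at h
    have : S ^ 4 < 4 ^ 4 := pow_lt_pow_left₀ h hS0.le (by norm_num)
    rw [hS4] at this
    have h4 : 0 ≤ (4 / α) ^ 4 := by positivity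
    norm_num at this
    linarith
  have hxδ : x ^ δ ≤ S := by
    rw [hS]
    exact Real.rpow_le_rpow_of_exponent_le hx1 (by linarith)
  have hqS : (q : ℝ) ≤ S := hqx.trans hxδ
  have hKS : (K : ℝ) ≤ S := hK.trans hxδ
  have hS2 : ∀ e : ℝ, (S ^ 2) ^ (2 * e) = x ^ e := by
    intro e
    rw [← hS4, ← Real.rpow_natCast S 2, ← Real.rpow_natCast S 4, ← Real.rpow_mul hS0.le,
      ← Real.rpow_mul hS0.le]
    congr 1
    push_cast
    ring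
  have hSS : 16 ≤ S ^ 2 := by
    have h5 := mul_le_mul hS4' hS4' (by norm_num) hS0.le
    rw [sq]
    linarith
  obtain ⟨X', hN, hX'⟩ := htw ⌊y⌋₊
  have hαS : 4 ≤ α * S := by
    rw [div_le_iff₀ hα] at hSα
    linarith
  -- the lower bound of X'
  have hX'S : S ^ 2 ≤ (X' : ℝ) := by
    have c1 := (abs_le.1 hX').1
    have c2 : (α * x - 1) / q ≤ ((⌊y⌋₊ : ℕ) : ℝ) / 2 ^ i := by
      have c3 : 0 ≤ α * x - 1 := by
        have : 4 * S ^ 3 ≤ α * S * S ^ 3 := mul_le_mul_of_nonneg_right hαS (by positivity)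
        have h5 : α * S * S ^ 3 = α * x := by rw [← hS4]; ring
        have h6 : 1 ≤ S ^ 3 := one_le_pow₀ (by linarith)
        linarith
      calc (α * x - 1) / q ≤ (α * x - 1) / 2 ^ i := div_le_div_of_nonneg_left c3 h2i0 h2i
        _ ≤ ((⌊y⌋₊ : ℕ) : ℝ) / 2 ^ i := div_le_div_of_nonneg_right (by linarith) h2i0.le
    have c4 : S ^ 2 + 2 ≤ (α * x - 1) / q := by
      rw [le_div_iff₀ hq0]
      have d1 : (S ^ 2 + 2) * q ≤ (S ^ 2 + 2) * S := mul_le_mul_of_nonneg_left hqS (by positivity)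
      have d2 : 4 * S ^ 3 ≤ α * S * S ^ 3 := mul_le_mul_of_nonneg_right hαS (by positivity)
      have d3 : α * S * S ^ 3 = α * x := by rw [← hS4]; ring
      have d4 : (S ^ 2 + 2) * S = S ^ 3 + 2 * S := by ring
      have d6 : S * 16 ≤ S * S ^ 2 := mul_le_mul_of_nonneg_left hSS hS0.le
      have d7 : S * S ^ 2 = S ^ 3 := by ring
      have d5 : 2 * S + 1 ≤ 3 * S ^ 3 := by linarith
      linarith
    have c5 : S ^ 2 + 2 ≤ ((⌊y⌋₊ : ℕ) : ℝ) / 2 ^ i := c4.trans c2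
    have c6 : (3 : ℝ) ^ a * ((⌊y⌋₊ : ℕ) : ℝ) / 2 ^ i = 3 ^ a * (((⌊y⌋₊ : ℕ) : ℝ) / 2 ^ i) := by ring
    rw [c6] at c1
    have c7 : (3 : ℝ) ^ a * (S ^ 2 + 2) ≤ 3 ^ a * (((⌊y⌋₊ : ℕ) : ℝ) / 2 ^ i) :=
      mul_le_mul_of_nonneg_left c5 h3a0.le
    have c8 : 1 * S ^ 2 ≤ 3 ^ a * S ^ 2 := mul_le_mul_of_nonneg_right h3a1 (by positivity)
    have c9 : (3 : ℝ) ^ a * (S ^ 2 + 2) = 3 ^ a * S ^ 2 + 2 * 3 ^ a := by ring
    linarith
  have hX'0 : (0 : ℝ) < X' := by linarith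
  have hX'2 : 2 ≤ X' := by
    have : (2 : ℝ) ≤ X' := by linarith
    exact_mod_cast this
  have hKX' : (K : ℝ) ≤ (X' : ℝ) ^ δ₁ := by
    refine hK.trans ?_
    rw [← hS2]
    calc (S ^ 2) ^ (2 * δ) ≤ (S ^ 2) ^ δ₁ :=
          Real.rpow_le_rpow_of_exponent_le (by linarith) (by linarith)
      _ ≤ (X' : ℝ) ^ δ₁ := Real.rpow_le_rpow (by positivity) hX'S hδ₁.le
  have hQodd : Odd (3 ^ a * q₁) := (Odd.pow (by decide)).mul hq₁
  have hQcast : ((3 ^ a * q₁ : ℕ) : ℝ) = Q := by rw [hQ]; push_cast; ring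
  have hQX' : ((3 ^ a * q₁ : ℕ) : ℝ) ≤ (X' : ℝ) ^ δ₁ := by
    rw [hQcast, hQ]
    have e1 : (3 : ℝ) ^ a * q₁ ≤ (q : ℝ) ^ 2 := by
      rw [hqi', mul_pow]
      exact mul_le_mul h3a2 (by rw [sq]; exact le_mul_of_one_le_right hq₁0.le hq₁r) hq₁0.le
        (by positivity)
    refine e1.trans ?_
    have e2 : (q : ℝ) ^ 2 ≤ (x ^ δ) ^ 2 := pow_le_pow_left₀ hq0.le hqx 2
    have e3 : (x ^ δ) ^ 2 = x ^ (2 * δ) := by
      rw [← Real.rpow_natCast, ← Real.rpow_mul hx0.le]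
      congr 1
      push_cast
      ring
    rw [e3, ← hS2] at e2
    refine e2.trans ?_
    calc (S ^ 2) ^ (2 * (2 * δ)) ≤ (S ^ 2) ^ δ₁ :=
          Real.rpow_le_rpow_of_exponent_le (by linarith) (by linarith)
      _ ≤ (X' : ℝ) ^ δ₁ := Real.rpow_le_rpow (by positivity) hX'S hδ₁.le
  have e1 := hC₁ σ b K A X' (3 ^ a * q₁) hσ hI hX'2 hKX' hQodd hQX'
  rw [hQcast] at e1
  have hlogX' : Real.log x / 2 ≤ Real.log X' := by
    have h3 : Real.log (S ^ 2) ≤ Real.log X' := Real.log_le_log (by positivity) hX'S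
    have h4 : Real.log (S ^ 2) = Real.log x / 2 := by
      rw [← hS4, Real.log_pow, Real.log_pow]
      push_cast
      ring
    linarith
  have hlogX'0 : 0 < Real.log X' := by linarith
  -- X' / Q
  have hXQ : (X' : ℝ) / Q ≤ (β + 2) * (x / q) := by
    have c1 := (abs_le.1 hX').2
    have c2 : (X' : ℝ) ≤ lam * y + 2 * 3 ^ a := by
      have c3 : (3 : ℝ) ^ a * ((⌊y⌋₊ : ℕ) : ℝ) / 2 ^ i = lam * ((⌊y⌋₊ : ℕ) : ℝ) := by rw [hlam]; ring
      rw [c3] at c1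
      have c4 : lam * ((⌊y⌋₊ : ℕ) : ℝ) ≤ lam * y := mul_le_mul_of_nonneg_left hfl1 hlam0.le
      linarith
    have c5 : (X' : ℝ) / Q ≤ (lam * y + 2 * 3 ^ a) / Q := div_le_div_of_nonneg_right c2 hQ0.le
    have c6 : (lam * y + 2 * 3 ^ a) / Q = y / q + 2 * (3 ^ a / Q) := by
      rw [add_div, mul_div_right_comm, hlQ]
      ring
    have c7 : (3 : ℝ) ^ a / Q ≤ 1 := by
      rw [div_le_one hQ0, hQ]
      exact le_mul_of_one_le_right h3a0.le hq₁r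
    have c8 : y / q ≤ β * (x / q) := by
      rw [mul_div_assoc']
      exact div_le_div_of_nonneg_right hy2 hq0.le
    have c9 : 1 ≤ x / q := by rw [le_div_iff₀ hq0]; linarith
    rw [c6] at c5
    have c10 : (β + 2) * (x / q) = β * (x / q) + 2 * (x / q) := by ring
    rw [c10]
    linarith
  have e3 : C₁ * X' / (Q * Real.log X' ^ B) ≤ (|C₁| * 2 ^ B * (β + 2)) * ((x / q) / Real.log x ^ B) := by
    have d1 : Real.log x ^ B ≤ 2 ^ B * Real.log X' ^ B := by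
      rw [← mul_pow]
      exact pow_le_pow_left₀ hlogx.le (by linarith) B
    have d2 : 1 / Real.log X' ^ B ≤ 2 ^ B / Real.log x ^ B := by
      rw [div_le_div_iff₀ (by positivity) hlB]
      linarith
    calc C₁ * X' / (Q * Real.log X' ^ B) = C₁ * ((X' / Q) * (1 / Real.log X' ^ B)) := by field_simp
      _ ≤ |C₁| * ((X' / Q) * (1 / Real.log X' ^ B)) :=
          mul_le_mul_of_nonneg_right (le_abs_self _) (by positivity)
      _ ≤ |C₁| * (((β + 2) * (x / q)) * (2 ^ B / Real.log x ^ B)) := by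
          apply mul_le_mul_of_nonneg_left _ (abs_nonneg _)
          exact mul_le_mul hXQ d2 (by positivity) (by positivity)
      _ = (|C₁| * 2 ^ B * (β + 2)) * ((x / q) / Real.log x ^ B) := by ring
  have e4 : |(N σ A X' 1 0 : ℝ) / Q - N σ A ⌊lam * y⌋₊ 1 0 / Q| ≤ 4 := by
    rw [← sub_div, abs_div, abs_of_pos hQ0, div_le_iff₀ hQ0]
    refine (smq_lip hσ A X' ⌊lam * y⌋₊).trans ?_
    have c3 : (3 : ℝ) ^ a * ((⌊y⌋₊ : ℕ) : ℝ) / 2 ^ i = lam * ((⌊y⌋₊ : ℕ) : ℝ) := by rw [hlam]; ring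
    rw [c3] at hX'
    have c4 : lam * ((⌊y⌋₊ : ℕ) : ℝ) ≤ lam * y := mul_le_mul_of_nonneg_left hfl1 hlam0.le
    have c5 : lam * y ≤ lam * (((⌊y⌋₊ : ℕ) : ℝ) + 1) := mul_le_mul_of_nonneg_left hfl2.le hlam0.le
    have c6 : lam ≤ Q := by rw [hQl]; exact le_mul_of_one_le_right hlam0.le hq1
    have c7 : (3 : ℝ) ^ a ≤ Q := by rw [hQ]; exact le_mul_of_one_le_right h3a0.le hq₁r
    have c8 := abs_le.1 hX'
    rw [abs_le]
    constructor
    · linarith [c8.1, c8.2]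
    · linarith [c8.1, c8.2]
  have e5 : (K : ℝ) + 5 ≤ 6 * M * ((x / q) / Real.log x ^ B) := by
    have d1 := smq_log hx1 hS4 hS0 B
    rw [← hM] at d1
    have d2 : S ^ 3 ≤ x / q := by
      rw [le_div_iff₀ hq0, ← hS4]
      calc S ^ 3 * q ≤ S ^ 3 * S := mul_le_mul_of_nonneg_left hqS (by positivity)
        _ = S ^ 4 := by ring
    have d3 : S / M ≤ (x / q) / Real.log x ^ B := by
      rw [div_le_div_iff₀ hM0 hlB]
      calc S * Real.log x ^ B ≤ S * (M * S ^ 2) := mul_le_mul_of_nonneg_left d1 hS0.le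
        _ = S ^ 3 * M := by ring
        _ ≤ (x / q) * M := mul_le_mul_of_nonneg_right d2 hM0.le
    have d4 : 6 * M * (S / M) = 6 * S := by field_simp
    have d5 : 6 * M * (S / M) ≤ 6 * M * ((x / q) / Real.log x ^ B) :=
      mul_le_mul_of_nonneg_left d3 (by positivity)
    linarith
  have hNq : (N σ A ⌊y⌋₊ q r : ℝ) = (N σ A ⌊y⌋₊ (2 ^ i * q₁) r : ℝ) := by rw [hqi]
  rw [← hNq] at hN
  have e6 := e1.trans e3
  have h7 : 0 ≤ β * (X₀ * X₀ ^ B) * ((x / q) / Real.log x ^ B) := by positivity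
  have g1 := abs_le.1 hN
  have g2 := abs_le.1 e6
  have g3 := abs_le.1 e4
  rw [abs_le]
  constructor
  · linarith [g1.1, g2.1, g3.1]
  · linarith [g1.2, g2.2, g3.2]

end Pool.Agent.RTE
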