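import Pool.Agent.RTE.St
import Pool.Agent.RTE.Cq

set_option autoImplicit false

/-!
# RTE, module Tr: translation of the counting functions to sums over `ℕ`
-/

namespace Pool.Agent.RTE

open Finset
open Pool.Agent.SLD (N EvInv T)

open Classical in
/-- The indicator of `σ n ∈ A`. -/
noncomputable def ind (σ : ℤ) (A : Set ℤ) (n : ℕ) : ℝ := if σ * (n : ℤ) ∈ A then 1 else 0

theorem ind_nonneg (σ : ℤ) (A : Set ℤ) (n : ℕ) : 0 ≤ ind σ A n := by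
  unfold ind
  split_ifs <;> norm_num

theorem ind_le_one (σ : ℤ) (A : Set ℤ) (n : ℕ) : ind σ A n ≤ 1 := by
  unfold ind
  split_ifs <;> norm_num

open Classical in
theorem tr_N {σ : ℤ} (hσ : σ = 1 ∨ σ = -1) (A : Set ℤ) (X q : ℕ) (r : ℤ) :
    N σ A X q r = ((Ioc 0 X).filter
      (fun m : ℕ => (q : ℤ) ∣ σ * (m : ℤ) - r ∧ σ * (m : ℤ) ∈ A)).card := by
  have hσσ : σ * σ = 1 := by rcases hσ with rfl | rfl <;> norm_num
  have hset : {n : ℤ | 1 ≤ σ * n ∧ σ * n ≤ X ∧ (q : ℤ) ∣ n - r ∧ n ∈ A} =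
      (((Ioc 0 X).filter (fun m : ℕ => (q : ℤ) ∣ σ * (m : ℤ) - r ∧ σ * (m : ℤ) ∈ A)).image
        (fun m : ℕ => σ * (m : ℤ)) : Finset ℤ) := by
    ext n
    rw [Set.mem_setOf_eq, mem_coe, mem_image]
    constructor
    · rintro ⟨h1, h2, h3, h4⟩
      have e : σ * (((σ * n).toNat : ℕ) : ℤ) = n := by
        rw [Int.toNat_of_nonneg (by omega), ← mul_assoc, hσσ, one_mul]
      refine ⟨(σ * n).toNat, ?_, e⟩
      rw [mem_filter, mem_Ioc, e]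
      exact ⟨⟨by omega, by omega⟩, h3, h4⟩
    · rintro ⟨m, hm, rfl⟩
      rw [mem_filter, mem_Ioc] at hm
      obtain ⟨⟨h1, h2⟩, h3, h4⟩ := hm
      have e : σ * (σ * (m : ℤ)) = m := by rw [← mul_assoc, hσσ, one_mul]
      rw [e]
      exact ⟨by omega, by omega, h3, h4⟩
  have hinj : Function.Injective (fun m : ℕ => σ * (m : ℤ)) := by
    intro a b hab
    have h1 : σ * (a : ℤ) = σ * (b : ℤ) := hab
    have h2 : σ * (σ * (a : ℤ)) = σ * (σ * (b : ℤ)) := by rw [h1]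
    rw [← mul_assoc, ← mul_assoc, hσσ, one_mul, one_mul] at h2
    exact_mod_cast h2
  unfold N
  rw [hset, Set.ncard_coe_finset, card_image_of_injective _ hinj]

/-- `S(X) = N(X)`. -/
theorem tr_SS {σ : ℤ} (hσ : σ = 1 ∨ σ = -1) (A : Set ℤ) (X : ℕ) :
    SS (ind σ A) X = (N σ A X 1 0 : ℝ) := by
  classical
  rw [tr_N hσ, SS]
  unfold ind
  rw [sum_boole]
  congr 2
  ext m
  simp

/-- `L(X)`. -/
theorem tr_LL (σ : ℤ) (A : Set ℤ) (X : ℕ) : L σ A X = LL (ind σ A) X := by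
  classical
  unfold L LL ind
  rw [sum_filter]
  have e : Icc 1 X = Ioc 0 X := by
    ext m
    rw [mem_Icc, mem_Ioc]
    omega
  rw [e]
  refine sum_congr rfl fun m _ => ?_
  split_ifs <;> simp

/-- `M(X)`. -/
theorem tr_MM (σ : ℤ) (A : Set ℤ) (X : ℕ) : Mq σ A X = MM (ind σ A) X := by
  unfold Mq MM
  rw [tr_LL, tr_LL, tr_LL]

/-- `F(X)`. -/
theorem tr_Fr {σ : ℤ} (hσ : σ = 1 ∨ σ = -1) (A : Set ℤ) (X : ℕ) :
    Fr σ A X = SS (ind σ A) X / X := by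
  rw [tr_SS hσ]
  rfl

/-- `0 ≤ F(X) ≤ 1`. -/
theorem Fr_bound {σ : ℤ} (hσ : σ = 1 ∨ σ = -1) (A : Set ℤ) (X : ℕ) :
    0 ≤ Fr σ A X ∧ Fr σ A X ≤ 1 := by
  classical
  have h0 : (0 : ℝ) ≤ X := Nat.cast_nonneg _
  unfold Fr
  constructor
  · positivity
  · apply div_le_one_of_le₀ _ h0
    rw [tr_N hσ]
    have h1 := card_filter_le (Ioc 0 X) (fun m : ℕ => ((1 : ℕ) : ℤ) ∣ σ * (m : ℤ) - 0 ∧
      σ * (m : ℤ) ∈ A)
    rw [Nat.card_Ioc, Nat.sub_zero] at h1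
    exact_mod_cast h1

/-- The class in which the odd integers land. -/
theorem tr_cl {σ : ℤ} (hσ : σ = 1 ∨ σ = -1) (A : Set ℤ) (X ρ : ℕ)
    (hρ : (σ = 1 ∧ ρ = 2) ∨ (σ = -1 ∧ ρ = 1)) :
    SS (cl (ind σ A) ρ) X = (N σ A X 3 2 : ℝ) := by
  classical
  rw [tr_N hσ, SS]
  have h : ∀ m ∈ Ioc 0 X, cl (ind σ A) ρ m =
      if (((3 : ℕ) : ℤ) ∣ σ * (m : ℤ) - 2 ∧ σ * (m : ℤ) ∈ A) then (1 : ℝ) else 0 := by
    intro m _
    unfold cl ind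
    have h1 : m % 3 = ρ ↔ ((3 : ℕ) : ℤ) ∣ σ * (m : ℤ) - 2 := by
      rcases hρ with ⟨h, h'⟩ | ⟨h, h'⟩ <;> rw [h, h'] <;> push_cast <;> omega
    by_cases h2 : m % 3 = ρ
    · rw [if_pos h2]
      simp only [h1.1 h2, true_and]
    · rw [if_neg h2, if_neg]
      rintro ⟨h3, -⟩
      exact h2 (h1.2 h3)
  rw [sum_congr rfl h, sum_boole]

theorem SS_df (a : ℕ → ℝ) (ρ x : ℕ) : SS (df a ρ) x = SS (cl a ρ) x - SS a x / 3 := by
  unfold SS df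
  rw [sum_div, ← sum_sub_distrib]

/-- `0 ≤ L(x + k) - L(x) ≤ k / x`. -/
theorem LL_incr (a : ℕ → ℝ) (h0 : ∀ n, 0 ≤ a n) (h1 : ∀ n, a n ≤ 1) (x k : ℕ) (hx : 1 ≤ x) :
    0 ≤ LL a (x + k) - LL a x ∧ LL a (x + k) - LL a x ≤ (k : ℝ) / x := by
  have hx0 : (0 : ℝ) < x := by exact_mod_cast hx
  induction k with
  | zero => simp
  | succ k ih =>
    obtain ⟨i1, i2⟩ := ih
    rw [← add_assoc x k 1, LL_succ]
    have hp : (0 : ℝ) < ((x + k + 1 : ℕ) : ℝ) := by positivity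
    have e1 : 0 ≤ a (x + k + 1) / ((x + k + 1 : ℕ) : ℝ) := div_nonneg (h0 _) hp.le
    have e2 : a (x + k + 1) / ((x + k + 1 : ℕ) : ℝ) ≤ 1 / (x : ℝ) := by
      apply div_le_div₀ (by norm_num) (h1 _) hx0
      exact_mod_cast (by omega : x ≤ x + k + 1)
    constructor
    · linarith
    · have e3 : ((k + 1 : ℕ) : ℝ) / x = (k : ℝ) / x + 1 / x := by
        push_cast
        ring
      rw [e3]
      linarith

/-- `|M(y)| ≤ 1`. -/
theorem MM_le (a : ℕ → ℝ) (h0 : ∀ n, 0 ≤ a n) (h1 : ∀ n, a n ≤ 1) (y : ℕ) (hy : 1 ≤ y) :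
    |MM a y| ≤ 1 := by
  have hy0 : (0 : ℝ) < y := by exact_mod_cast hy
  obtain ⟨i1, i2⟩ := LL_incr a h0 h1 y y hy
  obtain ⟨i3, i4⟩ := LL_incr a h0 h1 (2 * y) y (by omega)
  have e1 : y + y = 2 * y := by ring
  have e2 : 2 * y + y = 3 * y := by ring
  rw [e1] at i1 i2
  rw [e2] at i3 i4
  rw [div_self hy0.ne'] at i2
  have i5 : (y : ℝ) / ((2 * y : ℕ) : ℝ) ≤ 1 := by
    apply div_le_one_of_le₀ _ (Nat.cast_nonneg _)
    exact_mod_cast (by omega : y ≤ 2 * y)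
  unfold MM
  rw [abs_le]
  constructor <;> linarith

end Pool.Agent.RTE
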